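import Pool.Agent.Lib.MP_7315a9_pr.Criterion

/-!
# The transition operator and sums over paths
-/

open MeasureTheory ProbabilityTheory Set Filter

namespace MP7315a9

noncomputable section

variable {V : Type*} (G : SimpleGraph V) [G.LocallyFinite]

/-- The transition operator. -/
def Pe (f : V → ENNReal) (x : V) : ENNReal := ∑' y, ENNReal.ofReal (stepProb G x y) * f y

/-- The transition operator on real functions. -/
def Pr (f : V → ℝ) (x : V) : ℝ :=
  1 / 2 * f x + ∑ y ∈ G.neighborFinset x, 1 / (2 * G.degree x) * f y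

variable {G}

lemma Pe_ofReal {f : V → ℝ} (hf : ∀ x, 0 ≤ f x) (x : V) :
    Pe G (fun x => ENNReal.ofReal (f x)) x = ENNReal.ofReal (Pr G f x) := by
  rw [Pe, tsum_stepProb, Pr, ENNReal.ofReal_add (by have := hf x; positivity)
    (Finset.sum_nonneg fun y _ => by have := hf y; positivity),
    ENNReal.ofReal_mul (by norm_num), ENNReal.ofReal_sum_of_nonneg
      fun y _ => by have := hf y; positivity]
  congr 1
  refine Finset.sum_congr rfl fun y _ => ?_
  rw [ENNReal.ofReal_mul (by positivity)]

lemma Pe_mono {f g : V → ENNReal} (h : ∀ x, f x ≤ g x) (x : V) : Pe G f x ≤ Pe G g x :=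
  ENNReal.tsum_le_tsum fun y => mul_le_mul_right (h y) _

lemma Pe_const (hdeg : ∀ v, 0 < G.degree v) (c : ENNReal) (x : V) :
    Pe G (fun _ => c) x = c := by
  rw [Pe, tsum_stepProb]
  simp only [Finset.sum_const, nsmul_eq_mul, SimpleGraph.card_neighborFinset_eq_degree]
  rw [← mul_assoc, ← add_mul, ← ENNReal.ofReal_natCast, ← ENNReal.ofReal_mul (by positivity),
    ← ENNReal.ofReal_add (by positivity) (by positivity)]
  have h : (0 : ℝ) < G.degree x := by exact_mod_cast hdeg x
  have h2 : (1 : ℝ) / 2 + G.degree x * (1 / (2 * G.degree x)) = 1 := by field_simp; norm_num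
  rw [h2]; simp

lemma Pe_mul (c : ENNReal) (f : V → ENNReal) (x : V) :
    Pe G (fun y => c * f y) x = c * Pe G f x := by
  rw [Pe, Pe, ← ENNReal.tsum_mul_left]
  exact tsum_congr fun y => by ring

lemma Pe_iter_mono {f g : V → ENNReal} (h : ∀ x, f x ≤ g x) (n : ℕ) (x : V) :
    (Pe G)^[n] f x ≤ (Pe G)^[n] g x := by
  induction n generalizing x with
  | zero => exact h x
  | succ n ih =>
    rw [Function.iterate_succ_apply', Function.iterate_succ_apply']
    exact Pe_mono ih x

lemma Pe_iter_mul (c : ENNReal) (f : V → ENNReal) (n : ℕ) :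
    (Pe G)^[n] (fun y => c * f y) = fun y => c * (Pe G)^[n] f y := by
  induction n with
  | zero => rfl
  | succ n ih =>
    rw [Function.iterate_succ_apply', ih, Function.iterate_succ_apply']
    funext x
    exact Pe_mul c _ x

lemma Pe_iter_const (hdeg : ∀ v, 0 < G.degree v) (c : ENNReal) (n : ℕ) :
    (Pe G)^[n] (fun _ => c) = fun _ => c := by
  induction n with
  | zero => rfl
  | succ n ih =>
    rw [Function.iterate_succ_apply', ih]
    funext x
    exact Pe_const hdeg c x

lemma stepProb_symm (hdeg : ∀ v, 0 < G.degree v) (x y : V) :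
    (G.degree x : ENNReal) * ENNReal.ofReal (stepProb G x y) =
      (G.degree y : ENNReal) * ENNReal.ofReal (stepProb G y x) := by
  classical
  have hx : (0 : ℝ) < G.degree x := by exact_mod_cast hdeg x
  have hy : (0 : ℝ) < G.degree y := by exact_mod_cast hdeg y
  rw [← ENNReal.ofReal_natCast, ← ENNReal.ofReal_natCast, ← ENNReal.ofReal_mul (by positivity),
    ← ENNReal.ofReal_mul (by positivity)]
  congr 1
  unfold stepProb
  by_cases h : y = x
  · subst h; rfl
  · by_cases h' : G.Adj x y
    · simp only [h, Ne.symm h, h', h'.symm, if_true, if_false]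
      field_simp
    · have h'' : ¬ G.Adj y x := fun h => h' h.symm
      simp [h, Ne.symm h, h', h'']

/-- The transition operator is symmetric with respect to the degrees. -/
lemma dual (hdeg : ∀ v, 0 < G.degree v) (f g : V → ENNReal) :
    ∑' x, (G.degree x : ENNReal) * f x * Pe G g x =
      ∑' x, (G.degree x : ENNReal) * Pe G f x * g x := by
  have h1 : ∀ x, (G.degree x : ENNReal) * f x * Pe G g x =
      ∑' y, f x * ((G.degree x : ENNReal) * ENNReal.ofReal (stepProb G x y)) * g y := by
    intro x
    rw [Pe, ← ENNReal.tsum_mul_left]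
    exact tsum_congr fun y => by ring
  have h2 : ∀ y, (G.degree y : ENNReal) * Pe G f y * g y =
      ∑' x, f x * ((G.degree y : ENNReal) * ENNReal.ofReal (stepProb G y x)) * g y := by
    intro y
    rw [Pe, ← ENNReal.tsum_mul_left, ← ENNReal.tsum_mul_right]
    exact tsum_congr fun x => by ring
  simp only [h1, h2]
  rw [ENNReal.tsum_comm]
  refine tsum_congr fun y => tsum_congr fun x => ?_
  rw [stepProb_symm hdeg]

variable (G)

/-- The forward value of a product functional. -/
def U : ℕ → (ℕ → V → ENNReal) → V → ENNReal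
  | 0, h, x => h 0 x
  | n + 1, h, x => h 0 x * Pe G (U n fun j => h (j + 1)) x

/-- The backward value of a product functional. -/
def Bk (h : ℕ → V → ENNReal) : ℕ → V → ENNReal
  | 0 => fun _ => 1
  | j + 1 => Pe G fun x => h j x * Bk h j x

variable {G}

lemma wt_cons {n : ℕ} (x : V) (γ : Tr V n) :
    wt G (Fin.cons x γ : Tr V (n + 1)) = ENNReal.ofReal (stepProb G x (γ 0)) * wt G γ := by
  unfold wt
  rw [Fin.prod_univ_succ]
  congr 1

/-- Sums of product functionals over all trajectories. -/
lemma sum_paths (n : ℕ) (h : ℕ → V → ENNReal) (g : V → ENNReal) :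
    ∑' γ : Tr V n, g (γ 0) * wt G γ * ∏ j : Fin (n + 1), h j (γ j) = ∑' x, g x * U G n h x := by
  induction n generalizing h g with
  | zero =>
    rw [← (Equiv.funUnique (Fin 1) V).symm.tsum_eq]
    refine tsum_congr fun x => ?_
    simp [wt, U]
  | succ n ih =>
    rw [← (Fin.consEquiv fun _ : Fin (n + 2) => V).tsum_eq, ENNReal.tsum_prod']
    refine tsum_congr fun x => ?_
    have h1 : ∀ γ : Tr V n, g ((Fin.consEquiv fun _ : Fin (n + 2) => V) (x, γ) 0) *
        wt G ((Fin.consEquiv fun _ : Fin (n + 2) => V) (x, γ)) *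
        ∏ j : Fin (n + 2), h j ((Fin.consEquiv fun _ : Fin (n + 2) => V) (x, γ) j) =
        g x * h 0 x * (ENNReal.ofReal (stepProb G x (γ 0)) * wt G γ *
          ∏ j : Fin (n + 1), h (j + 1) (γ j)) := by
      intro γ
      have e1 : (Fin.consEquiv fun _ : Fin (n + 2) => V) (x, γ) = (Fin.cons x γ : Tr V (n + 1)) :=
        rfl
      rw [e1, wt_cons, Fin.prod_univ_succ]
      simp only [Fin.cons_zero, Fin.cons_succ, Fin.val_zero, Fin.val_succ]
      ring
    simp only [h1]
    rw [ENNReal.tsum_mul_left, ih (fun j => h (j + 1)) fun y => ENNReal.ofReal (stepProb G x y)]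
    rw [U, mul_assoc]
    rfl

/-- Decomposition at time `s`. -/
lemma split (hdeg : ∀ v, 0 < G.degree v) (n : ℕ) (h : ℕ → V → ENNReal) (s : ℕ) (hs : s ≤ n) :
    ∑' x, (G.degree x : ENNReal) * U G n h x =
      ∑' x, (G.degree x : ENNReal) * Bk G h s x * U G (n - s) (fun j => h (j + s)) x := by
  induction s with
  | zero => simp [Bk]
  | succ s ih =>
    rw [ih (by omega)]
    obtain ⟨m, hm⟩ : ∃ m, n - s = m + 1 := ⟨n - s - 1, by omega⟩
    have hm' : n - (s + 1) = m := by omega
    rw [hm, hm']
    have h1 : ∀ x, (G.degree x : ENNReal) * Bk G h s x * U G (m + 1) (fun j => h (j + s)) x =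
        (G.degree x : ENNReal) * (h s x * Bk G h s x) *
          Pe G (U G m fun j => h (j + (s + 1))) x := by
      intro x
      rw [U]
      simp only [zero_add]
      have : (fun j => h (j + 1 + s)) = fun j => h (j + (s + 1)) := by
        funext j; congr 1; omega
      rw [this]
      ring
    simp only [h1]
    rw [dual hdeg]
    rfl

/-- The mass of trajectories at a fixed point at time `s`. -/
lemma mass_at (hdeg : ∀ v, 0 < G.degree v) (n : ℕ) (h : ℕ → V → ENNReal) (s : ℕ) (hs : s ≤ n)
    (a : V) (ha : ∀ x, x ≠ a → h s x = 0) :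
    ∑' γ : Tr V n, (G.degree (γ 0) : ENNReal) * wt G γ * ∏ j : Fin (n + 1), h j (γ j) =
      (G.degree a : ENNReal) * Bk G h s a * U G (n - s) (fun j => h (j + s)) a := by
  rw [sum_paths n h fun x => (G.degree x : ENNReal), split hdeg n h s hs, tsum_eq_single a]
  intro x hx
  have : U G (n - s) (fun j => h (j + s)) x = 0 := by
    cases n - s with
    | zero => simp [U, ha x hx]
    | succ m => simp [U, ha x hx]
  rw [this, mul_zero]

lemma Bk_one (hdeg : ∀ v, 0 < G.degree v) {h : ℕ → V → ENNReal} {s : ℕ}
    (hh : ∀ j < s, ∀ x, h j x = 1) (x : V) : Bk G h s x = 1 := by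
  induction s generalizing x with
  | zero => rfl
  | succ s ih =>
    have h1 : (fun x => h s x * Bk G h s x) = fun _ => 1 := by
      funext y
      rw [hh s (Nat.lt_succ_self s), ih (fun j hj => hh j (by omega)), one_mul]
    simp only [Bk, h1]
    exact Pe_const hdeg 1 x

lemma U_one (hdeg : ∀ v, 0 < G.degree v) {n : ℕ} {h : ℕ → V → ENNReal}
    (hh : ∀ j ≤ n, ∀ x, h j x = 1) (x : V) : U G n h x = 1 := by
  induction n generalizing h x with
  | zero => exact hh 0 le_rfl x
  | succ n ih =>
    have h1 : (U G n fun j => h (j + 1)) = fun _ => 1 := by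
      funext y
      exact ih (fun j hj y => hh (j + 1) (by omega) y) y
    simp only [U, h1]
    rw [hh 0 (by omega), one_mul]
    exact Pe_const hdeg 1 x

/-- The forward value when the first factors are `1`. -/
lemma U_iter {n : ℕ} {h : ℕ → V → ENNReal} {k : ℕ} (hk : k ≤ n)
    (hh : ∀ j < k, ∀ x, h j x = 1) (x : V) :
    U G n h x = (Pe G)^[k] (U G (n - k) fun j => h (j + k)) x := by
  induction k generalizing n h x with
  | zero => simp
  | succ k ih =>
    obtain ⟨m, rfl⟩ : ∃ m, n = m + 1 := ⟨n - 1, by omega⟩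
    rw [U, hh 0 (by omega), one_mul, Function.iterate_succ_apply']
    congr 1
    funext y
    rw [ih (n := m) (by omega) (fun j hj y => hh (j + 1) (by omega) y) y]
    have : m + 1 - (k + 1) = m - k := by omega
    rw [this]
    rfl

/-- The backward value when the last factors are `1`. -/
lemma Bk_iter {h : ℕ → V → ENNReal} {s k : ℕ} (hh : ∀ j, s ≤ j → j < s + k → ∀ x, h j x = 1)
    (x : V) : Bk G h (s + k) x = (Pe G)^[k] (Bk G h s) x := by
  induction k generalizing x with
  | zero => rfl
  | succ k ih =>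
    rw [← add_assoc, Function.iterate_succ_apply']
    simp only [Bk]
    congr 1
    funext y
    rw [hh (s + k) (by omega) (by omega), one_mul]
    exact ih (fun j h1 h2 => hh j h1 (by omega)) y

lemma U_mono {n : ℕ} {h h' : ℕ → V → ENNReal} (hh : ∀ j ≤ n, ∀ x, h j x ≤ h' j x) (x : V) :
    U G n h x ≤ U G n h' x := by
  induction n generalizing h h' x with
  | zero => exact hh 0 le_rfl x
  | succ n ih =>
    exact mul_le_mul' (hh 0 (by omega) x)
      (Pe_mono (fun y => ih (fun j hj y => hh (j + 1) (by omega) y) y) x)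

end

end MP7315a9
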