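import Pool.Agent.Lib.MP_7315a9_pr.Mart

/-!
# Harmonic maps to the plane: hitting estimates
-/

open Set Filter

namespace MP7315a9

noncomputable section

variable {V : Type*} {G : SimpleGraph V} [G.LocallyFinite] {F1 F2 : V → ℝ} {b ε : ℝ} {T0 : ℕ}

lemma exp_ineq {z : ℝ} (hz : |z| ≤ 1) : 1 - z + z ^ 2 / 4 ≤ Real.exp (-z) := by
  have h1 := Real.exp_bound (x := -z) (by rwa [abs_neg]) (n := 3) (by norm_num)
  have h2 : ∑ m ∈ Finset.range 3, (-z) ^ m / (m.factorial : ℝ) = 1 - z + z ^ 2 / 2 := by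
    simp [Finset.sum_range_succ, Nat.factorial]; ring
  rw [h2, abs_neg] at h1
  have h3 : ((Nat.succ 3 : ℕ) : ℝ) / ((Nat.factorial 3 : ℕ) * (3 : ℕ)) = 2 / 9 := by
    norm_num [Nat.factorial]
  rw [h3] at h1
  have h4 : |z| ^ 3 ≤ z ^ 2 := by
    rw [← sq_abs z, pow_succ]
    have := abs_nonneg z
    nlinarith [sq_nonneg |z|]
  have h5 := (abs_le.1 h1).1
  nlinarith [sq_nonneg z]

/-- The barrier function. -/
lemma barrier (hF : PlaneMap G F1 F2 b ε T0) {α ρ : ℝ} (hα : α = 64 * (T0 * b ^ 2) / ε)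
    (hρ : 0 < ρ) (h16 : 16 * α * (T0 * b) ≤ ρ) (h4 : 4 * α * (T0 * b) ^ 2 ≤ ρ ^ 2)
    (h64 : 64 * (T0 * b) ^ 4 / ε ≤ ρ ^ 2) (c : ℝ × ℝ) (x : V)
    (hx1 : (ρ / 4) ^ 2 ≤ N2 F1 F2 x c) (hx2 : N2 F1 F2 x c ≤ (2 * ρ) ^ 2) :
    Real.exp (-(α * N2 F1 F2 x c / ρ ^ 2)) ≤
      (Pr G)^[T0] (fun y => Real.exp (-(α * N2 F1 F2 y c / ρ ^ 2))) x := by
  have hb := hF.b0
  have hε := hF.e0
  set β : ℝ := T0 * b with hβ
  have hβ0 : 0 ≤ β := by positivity
  have hα0 : 0 ≤ α := by rw [hα]; positivity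
  set k : ℝ := α / ρ ^ 2 with hk
  have hk0 : 0 ≤ k := by positivity
  set D1 : ℝ := F1 x - c.1 with hD1
  set D2 : ℝ := F2 x - c.2 with hD2
  set W : ℝ := Real.exp (-(α * N2 F1 F2 x c / ρ ^ 2)) with hW
  have hW0 : 0 < W := Real.exp_pos _
  let g1 : V → ℝ := fun y => D1 * (F1 y - F1 x) + D2 * (F2 y - F2 x)
  let g2 : V → ℝ := fun y => N2 F1 F2 y (F1 x, F2 x)
  let φ : V → ℝ := fun y => W * ((1 - k * (2 * g1 y + g2 y)) +
    k ^ 2 / 4 * (2 * (g1 y) ^ 2 - (g2 y) ^ 2))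
  have hN : N2 F1 F2 x c = D1 ^ 2 + D2 ^ 2 := rfl
  have hD1' : |D1| ≤ 2 * ρ := by
    apply abs_le_of_sq_le_sq _ (by positivity)
    nlinarith [sq_nonneg D2]
  have hD2' : |D2| ≤ 2 * ρ := by
    apply abs_le_of_sq_le_sq _ (by positivity)
    nlinarith [sq_nonneg D1]
  -- pointwise
  have hpt : ∀ y, |F1 y - F1 x| ≤ T0 * b → |F2 y - F2 x| ≤ T0 * b →
      φ y ≤ Real.exp (-(α * N2 F1 F2 y c / ρ ^ 2)) := by
    intro y hy1 hy2
    have e1 : N2 F1 F2 y c = N2 F1 F2 x c + (2 * g1 y + g2 y) := by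
      simp only [N2, g1, g2, hD1, hD2]; ring
    have e2 : Real.exp (-(α * N2 F1 F2 y c / ρ ^ 2)) =
        W * Real.exp (-(k * (2 * g1 y + g2 y))) := by
      rw [hW, ← Real.exp_add, e1, hk]
      congr 1
      field_simp
      ring
    rw [e2]
    refine mul_le_mul_of_nonneg_left ?_ hW0.le
    have hg1 : |g1 y| ≤ 4 * ρ * β := by
      calc |g1 y| ≤ |D1 * (F1 y - F1 x)| + |D2 * (F2 y - F2 x)| := abs_add_le _ _
        _ = |D1| * |F1 y - F1 x| + |D2| * |F2 y - F2 x| := by rw [abs_mul, abs_mul]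
        _ ≤ 2 * ρ * β + 2 * ρ * β := by gcongr
        _ = 4 * ρ * β := by ring
    have hg20 : 0 ≤ g2 y := N2_nonneg _ _
    have hg2 : g2 y ≤ 2 * β ^ 2 := by
      have h1 : (F1 y - F1 x) ^ 2 ≤ β ^ 2 := by
        rw [← sq_abs (F1 y - F1 x)]; exact pow_le_pow_left₀ (abs_nonneg _) hy1 2
      have h2 : (F2 y - F2 x) ^ 2 ≤ β ^ 2 := by
        rw [← sq_abs (F2 y - F2 x)]; exact pow_le_pow_left₀ (abs_nonneg _) hy2 2
      simp only [g2, N2]
      linarith
    have hz : |k * (2 * g1 y + g2 y)| ≤ 1 := by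
      rw [abs_mul, abs_of_nonneg hk0]
      have h1 : |2 * g1 y + g2 y| ≤ 8 * ρ * β + 2 * β ^ 2 := by
        calc |2 * g1 y + g2 y| ≤ |2 * g1 y| + |g2 y| := abs_add_le _ _
          _ = 2 * |g1 y| + g2 y := by rw [abs_mul, abs_of_nonneg hg20]; norm_num
          _ ≤ 8 * ρ * β + 2 * β ^ 2 := by linarith
      have h2 : k * (8 * ρ * β + 2 * β ^ 2) ≤ 1 := by
        rw [hk, div_mul_eq_mul_div, div_le_one (by positivity)]
        nlinarith
      exact (mul_le_mul_of_nonneg_left h1 hk0).trans h2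
    refine le_trans ?_ (exp_ineq hz)
    have h3 : (k * (2 * g1 y + g2 y)) ^ 2 / 4 ≥ k ^ 2 / 4 * (2 * (g1 y) ^ 2 - (g2 y) ^ 2) := by
      have h4 : (2 * g1 y + g2 y) ^ 2 ≥ 2 * (g1 y) ^ 2 - (g2 y) ^ 2 := by
        nlinarith [sq_nonneg (g1 y + g2 y)]
      have h5 : 0 ≤ k ^ 2 / 4 := by positivity
      calc (k * (2 * g1 y + g2 y)) ^ 2 / 4 = k ^ 2 / 4 * (2 * g1 y + g2 y) ^ 2 := by ring
        _ ≥ _ := mul_le_mul_of_nonneg_left h4 h5
    linarith
  refine le_trans ?_ (Pr_iter_mono_on hF T0 x hpt)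
  -- evaluation
  have hR1 : (Pr G)^[T0] g1 x = 0 := by
    have h1 : (Pr G)^[T0] g1 x = D1 * ((Pr G)^[T0] F1 x - F1 x) + D2 * ((Pr G)^[T0] F2 x - F2 x) := by
      have e1 : g1 = fun y => D1 * (F1 y - F1 x) + D2 * (F2 y - F2 x) := rfl
      rw [e1, Pr_iter_add, Pr_iter_mul, Pr_iter_mul, Pr_iter_sub, Pr_iter_sub,
        Pr_iter_const hF.deg, Pr_iter_const hF.deg]
    rw [h1, (Pr_iter_F hF T0).1, (Pr_iter_F hF T0).2]
    ring
  have hR2 : (Pr G)^[T0] g2 x ≤ T0 * b ^ 2 := by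
    have := Pr_iter_N2 hF (F1 x, F2 x) T0 x
    have h0 : N2 F1 F2 x (F1 x, F2 x) = 0 := by simp [N2]
    rw [h0, zero_add] at this
    exact this
  have hR3 : ε * (D1 ^ 2 + D2 ^ 2) ≤ (Pr G)^[T0] (fun y => g1 y ^ 2) x := hF.ell x D1 D2
  have hR4 : (Pr G)^[T0] (fun y => g2 y ^ 2) x ≤ 4 * β ^ 4 := by
    have h1 : (Pr G)^[T0] (fun y => g2 y ^ 2) x ≤ (Pr G)^[T0] (fun _ => 4 * β ^ 4) x := by
      refine Pr_iter_mono_on hF T0 x fun y hy1 hy2 => ?_
      have h1 : (F1 y - F1 x) ^ 2 ≤ β ^ 2 := by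
        rw [← sq_abs (F1 y - F1 x)]; exact pow_le_pow_left₀ (abs_nonneg _) hy1 2
      have h2 : (F2 y - F2 x) ^ 2 ≤ β ^ 2 := by
        rw [← sq_abs (F2 y - F2 x)]; exact pow_le_pow_left₀ (abs_nonneg _) hy2 2
      have h3 : g2 y ≤ 2 * β ^ 2 := by
        simp only [g2, N2]; linarith
      have h4 : 0 ≤ g2 y := N2_nonneg _ _
      nlinarith
    rwa [Pr_iter_const hF.deg] at h1
  have hRφ : (Pr G)^[T0] φ x = W * ((1 - k * (2 * (Pr G)^[T0] g1 x + (Pr G)^[T0] g2 x)) +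
      k ^ 2 / 4 * (2 * (Pr G)^[T0] (fun y => g1 y ^ 2) x - (Pr G)^[T0] (fun y => g2 y ^ 2) x)) := by
    have e1 : φ = fun y => W * ((1 - k * (2 * g1 y + g2 y)) +
      k ^ 2 / 4 * (2 * (g1 y) ^ 2 - (g2 y) ^ 2)) := rfl
    rw [e1, Pr_iter_mul, Pr_iter_add, Pr_iter_sub, Pr_iter_const hF.deg, Pr_iter_mul, Pr_iter_add,
      Pr_iter_mul, Pr_iter_mul, Pr_iter_sub, Pr_iter_mul]
  rw [hRφ, hR1]
  have hkey : 1 ≤ (1 - k * (2 * 0 + (Pr G)^[T0] g2 x)) +
      k ^ 2 / 4 * (2 * (Pr G)^[T0] (fun y => g1 y ^ 2) x - (Pr G)^[T0] (fun y => g2 y ^ 2) x) := by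
    have h1 : k * (Pr G)^[T0] g2 x ≤ k * (T0 * b ^ 2) := mul_le_mul_of_nonneg_left hR2 hk0
    have h2 : ρ ^ 2 / 16 ≤ D1 ^ 2 + D2 ^ 2 := by
      have : (ρ / 4) ^ 2 = ρ ^ 2 / 16 := by ring
      rw [← this]; exact hx1
    have h3 : ε * (ρ ^ 2 / 16) ≤ (Pr G)^[T0] (fun y => g1 y ^ 2) x :=
      (mul_le_mul_of_nonneg_left h2 hε.le).trans hR3
    have h5 : k ^ 2 / 4 * (2 * (ε * (ρ ^ 2 / 16)) - 4 * β ^ 4) ≤ k ^ 2 / 4 *
        (2 * (Pr G)^[T0] (fun y => g1 y ^ 2) x - (Pr G)^[T0] (fun y => g2 y ^ 2) x) :=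
      mul_le_mul_of_nonneg_left (by linarith) (by positivity)
    have h6 : k * (T0 * b ^ 2) ≤ k ^ 2 / 4 * (2 * (ε * (ρ ^ 2 / 16)) - 4 * β ^ 4) := by
      have h7 : k ^ 2 / 4 * (2 * (ε * (ρ ^ 2 / 16)) - 4 * β ^ 4) =
          k * (k * (ε * ρ ^ 2 / 32 - β ^ 4)) := by ring
      rw [h7]
      refine mul_le_mul_of_nonneg_left ?_ hk0
      have h8 : β ^ 4 ≤ ε * ρ ^ 2 / 64 := by
        rw [div_le_iff₀ hε] at h64
        rw [le_div_iff₀ (by norm_num)]
        linarith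
      have h9 : k * (ε * ρ ^ 2 / 64) ≤ k * (ε * ρ ^ 2 / 32 - β ^ 4) :=
        mul_le_mul_of_nonneg_left (by linarith) hk0
      refine le_trans (le_of_eq ?_) h9
      rw [hk, hα]
      field_simp
    linarith
  calc W = W * 1 := (mul_one W).symm
    _ ≤ _ := mul_le_mul_of_nonneg_left hkey hW0.le

/-- Probability to be in `A` at some multiple of `T0`, before leaving `B`, in `T` steps. -/
def uu (G : SimpleGraph V) [G.LocallyFinite] (T0 : ℕ) (A B : Set V) : ℕ → V → ℝ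
  | 0 => A.indicator 1
  | T + 1 => fun x => A.indicator 1 x + (B \ A).indicator ((Pr G)^[T0] (uu G T0 A B T)) x

/-- Probability to stay in `B \ A` at the multiples of `T0`, in `T` steps. -/
def vv (G : SimpleGraph V) [G.LocallyFinite] (T0 : ℕ) (A B : Set V) : ℕ → V → ℝ
  | 0 => (B \ A).indicator 1
  | T + 1 => (B \ A).indicator ((Pr G)^[T0] (vv G T0 A B T))

lemma vv_nonneg (hdeg : ∀ v, 0 < G.degree v) (A B : Set V) (T : ℕ) (x : V) :
    0 ≤ vv G T0 A B T x := by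
  induction T generalizing x with
  | zero => exact indicator_nonneg (fun _ _ => zero_le_one) x
  | succ T ih => exact indicator_nonneg (fun y _ => Pr_iter_nonneg hdeg ih T0 y) x

lemma vv_anti (hdeg : ∀ v, 0 < G.degree v) (A B : Set V) (T : ℕ) (x : V) :
    vv G T0 A B (T + 1) x ≤ vv G T0 A B T x := by
  induction T generalizing x with
  | zero =>
    simp only [vv]
    refine indicator_le_indicator ?_
    have h1 : ∀ y, (B \ A).indicator (1 : V → ℝ) y ≤ (fun _ => (1 : ℝ)) y := fun y =>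
      indicator_le_self' (fun _ _ => zero_le_one) y
    have := Pr_iter_mono (G := G) h1 T0 x
    rwa [Pr_iter_const hdeg] at this
  | succ T ih =>
    exact indicator_le_indicator (Pr_iter_mono ih T0 x)

lemma uv_ge {A B : Set V} {w : V → ℝ} {κ : ℝ} (hκ : 0 ≤ κ) (hdeg : ∀ v, 0 < G.degree v)
    (hw1 : ∀ x, w x ≤ 1) (hwB : ∀ x, x ∉ B → x ∉ A → w x ≤ κ)
    (hR : ∀ x ∈ B \ A, w x ≤ (Pr G)^[T0] w x) (T : ℕ) (x : V) :
    w x - κ ≤ uu G T0 A B T x + vv G T0 A B T x := by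
  induction T generalizing x with
  | zero =>
    by_cases hA : x ∈ A
    · have h1 : x ∉ B \ A := fun h => h.2 hA
      simp only [uu, vv, indicator_of_mem hA, indicator_of_notMem h1, Pi.one_apply]
      linarith [hw1 x]
    · by_cases hB : x ∈ B
      · simp only [uu, vv, indicator_of_notMem hA, indicator_of_mem (show x ∈ B \ A from ⟨hB, hA⟩),
          Pi.one_apply]
        linarith [hw1 x]
      · have h1 : x ∉ B \ A := fun h => hB h.1
        simp only [uu, vv, indicator_of_notMem hA, indicator_of_notMem h1]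
        linarith [hwB x hB hA]
  | succ T ih =>
    by_cases hA : x ∈ A
    · have h1 : x ∉ B \ A := fun h => h.2 hA
      simp only [uu, vv, indicator_of_mem hA, indicator_of_notMem h1, Pi.one_apply]
      linarith [hw1 x]
    · by_cases hB : x ∈ B
      · have h1 : x ∈ B \ A := ⟨hB, hA⟩
        simp only [uu, vv, indicator_of_notMem hA, indicator_of_mem h1, zero_add]
        rw [← Pr_iter_add]
        refine le_trans ?_ (Pr_iter_mono ih T0 x)
        rw [Pr_iter_sub, Pr_iter_const hdeg]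
        linarith [hR x h1]
      · have h1 : x ∉ B \ A := fun h => hB h.1
        simp only [uu, vv, indicator_of_notMem hA, indicator_of_notMem h1]
        linarith [hwB x hB hA]

lemma vv_sum (hF : PlaneMap G F1 F2 b ε T0) {A B Dm : Set V} {q : V → ℝ}
    (hq : ∀ x ∈ Dm, 0 ≤ q x)
    (hstep : ∀ x ∈ B \ A, ∀ y, |F1 y - F1 x| ≤ T0 * b → |F2 y - F2 x| ≤ T0 * b → y ∈ Dm)
    (hR : ∀ x ∈ B \ A, (Pr G)^[T0] q x ≤ q x - 1) (T : ℕ) :
    ∀ x ∈ Dm, ∑ j ∈ Finset.range (T + 1), vv G T0 A B j x ≤ q x := by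
  induction T with
  | zero =>
    intro x hx
    simp only [zero_add, Finset.sum_range_one]
    by_cases h : x ∈ B \ A
    · simp only [vv, indicator_of_mem h, Pi.one_apply]
      have h1 := Pr_iter_mono_on hF (f := fun _ => (0 : ℝ)) (g := q) T0 x fun y hy1 hy2 =>
        hq y (hstep x h y hy1 hy2)
      rw [Pr_iter_const hF.deg] at h1
      linarith [hR x h]
    · simp only [vv, indicator_of_notMem h]
      exact hq x hx
  | succ T ih =>
    intro x hx
    rw [Finset.sum_range_succ']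
    by_cases h : x ∈ B \ A
    · simp only [vv, indicator_of_mem h, Pi.one_apply]
      have h1 : ∑ j ∈ Finset.range (T + 1), (Pr G)^[T0] (vv G T0 A B j) x =
          (Pr G)^[T0] (fun y => ∑ j ∈ Finset.range (T + 1), vv G T0 A B j y) x := by
        clear ih
        induction (T + 1) with
        | zero => simp [Pr_iter_const hF.deg]
        | succ m ihm =>
          simp only [Finset.sum_range_succ]
          rw [ihm, ← Pr_iter_add]
      rw [h1]
      have h2 := Pr_iter_mono_on hF (f := fun y => ∑ j ∈ Finset.range (T + 1), vv G T0 A B j y)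
        (g := q) T0 x fun y hy1 hy2 => ih y (hstep x h y hy1 hy2)
      linarith [hR x h]
    · simp only [vv, indicator_of_notMem h]
      simp only [Finset.sum_const_zero, add_zero]
      exact hq x hx

/-- From distance `ρ` the walk hits the ball of radius `ρ / 4` in time of order `ρ ^ 2` with
probability bounded from below. -/
lemma small_step (hF : PlaneMap G F1 F2 b ε T0) : ∃ ρ0 > 0, ∃ c2 > 0, ∃ CT > 0, ∀ ρ ≥ ρ0,
    ∀ (c : ℝ × ℝ) (x : V), N2 F1 F2 x c ≤ ρ ^ 2 → ∀ T : ℕ, CT * ρ ^ 2 ≤ T →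
      c2 ≤ uu G T0 {y | N2 F1 F2 y c ≤ (ρ / 4) ^ 2} {y | N2 F1 F2 y c < (2 * ρ) ^ 2} T x := by
  have hb := hF.b0
  have hε := hF.e0
  have ht0 : (0 : ℝ) < T0 := by exact_mod_cast hF.t0
  set β : ℝ := T0 * b with hβ
  have hβ0 : 0 < β := by positivity
  set α : ℝ := 64 * (T0 * b ^ 2) / ε with hα
  have hα0 : 0 < α := by positivity
  set δ : ℝ := Real.exp (-α) - Real.exp (-(4 * α)) with hδ
  have hδ0 : 0 < δ := by
    rw [hδ, sub_pos, Real.exp_lt_exp]; linarith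
  refine ⟨1 + 16 * α * β + 4 * α * β ^ 2 + 64 * β ^ 4 / ε + β, by positivity, δ / 2, by positivity,
    16 / (ε * δ), by positivity, ?_⟩
  intro ρ hρ c x hx T hT
  have t1 : 0 < 16 * α * β := by positivity
  have t2 : 0 < 4 * α * β ^ 2 := by positivity
  have t3 : 0 < 64 * β ^ 4 / ε := by positivity
  have hρ1 : 1 ≤ ρ := by linarith
  have hρ0 : 0 < ρ := by linarith
  have hρρ : ρ ≤ ρ ^ 2 := by nlinarith
  set A : Set V := {y | N2 F1 F2 y c ≤ (ρ / 4) ^ 2} with hA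
  set B : Set V := {y | N2 F1 F2 y c < (2 * ρ) ^ 2} with hB
  let w : V → ℝ := fun y => Real.exp (-(α * N2 F1 F2 y c / ρ ^ 2))
  have hw1 : ∀ y, w y ≤ 1 := by
    intro y
    simp only [w]
    rw [Real.exp_le_one_iff]
    have := N2_nonneg (F1 := F1) (F2 := F2) y c
    have : 0 ≤ α * N2 F1 F2 y c / ρ ^ 2 := by positivity
    linarith
  have hwB : ∀ y, y ∉ B → y ∉ A → w y ≤ Real.exp (-(4 * α)) := by
    intro y hy _
    have h1 : (2 * ρ) ^ 2 ≤ N2 F1 F2 y c := not_lt.1 hy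
    simp only [w]
    rw [Real.exp_le_exp, neg_le_neg_iff, le_div_iff₀ (by positivity)]
    nlinarith
  have hRw : ∀ y ∈ B \ A, w y ≤ (Pr G)^[T0] w y := by
    rintro y ⟨hy1, hy2⟩
    have h1 : N2 F1 F2 y c < (2 * ρ) ^ 2 := hy1
    have h2 : (ρ / 4) ^ 2 < N2 F1 F2 y c := not_le.1 hy2
    exact barrier hF hα hρ0 (by linarith) (by linarith) (by linarith) c y h2.le h1.le
  have h1 := uv_ge (A := A) (B := B) (Real.exp_pos (-(4 * α))).le hF.deg hw1 hwB hRw T x
  have h2 : Real.exp (-α) ≤ w x := by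
    simp only [w]
    rw [Real.exp_le_exp, neg_le_neg_iff, div_le_iff₀ (by positivity)]
    nlinarith
  -- the time
  have h3 : vv G T0 A B T x ≤ δ / 2 := by
    let q : V → ℝ := fun y => ((4 * ρ) ^ 2 - N2 F1 F2 y c) / (2 * ε)
    have h4 := vv_sum hF (A := A) (B := B) (Dm := {y | N2 F1 F2 y c ≤ (4 * ρ) ^ 2}) (q := q)
      (fun y hy => div_nonneg (sub_nonneg.2 hy) (by positivity)) (by
        rintro y ⟨hy, _⟩ z hz1 hz2
        have h5 : N2 F1 F2 y c < (2 * ρ) ^ 2 := hy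
        have h6 : (F1 z - F1 y) ^ 2 ≤ ρ ^ 2 := by
          rw [← sq_abs (F1 z - F1 y)]
          exact pow_le_pow_left₀ (abs_nonneg _) (hz1.trans (by linarith)) 2
        have h7 : (F2 z - F2 y) ^ 2 ≤ ρ ^ 2 := by
          rw [← sq_abs (F2 z - F2 y)]
          exact pow_le_pow_left₀ (abs_nonneg _) (hz2.trans (by linarith)) 2
        show N2 F1 F2 z c ≤ (4 * ρ) ^ 2
        simp only [N2] at h5 ⊢
        nlinarith [sq_nonneg (F1 z - F1 y - (F1 y - c.1)), sq_nonneg (F2 z - F2 y - (F2 y - c.2))])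
      (by
        rintro y _
        have h5 : (Pr G)^[T0] (fun z => N2 F1 F2 z c) y ≥ N2 F1 F2 y c + 2 * ε := by
          have e1 : (fun z => N2 F1 F2 z c) = fun z => (N2 F1 F2 y c +
              (2 * (F1 y - c.1) * (F1 z - F1 y) + 2 * (F2 y - c.2) * (F2 z - F2 y))) +
              ((1 * (F1 z - F1 y) + 0 * (F2 z - F2 y)) ^ 2 +
                (0 * (F1 z - F1 y) + 1 * (F2 z - F2 y)) ^ 2) := by
            funext z; simp only [N2]; ring
          have e2 := hF.ell y 1 0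
          have e3 := hF.ell y 0 1
          rw [e1, Pr_iter_add, Pr_iter_add, Pr_iter_add, Pr_iter_add, Pr_iter_const hF.deg,
            Pr_iter_mul, Pr_iter_mul, Pr_iter_sub, Pr_iter_sub, (Pr_iter_F hF T0).1,
            (Pr_iter_F hF T0).2, Pr_iter_const hF.deg, Pr_iter_const hF.deg]
          linarith
        have e4 : q = fun z => (1 / (2 * ε)) * ((4 * ρ) ^ 2 - N2 F1 F2 z c) := by
          funext z; simp only [q]; field_simp
        rw [e4, Pr_iter_mul, Pr_iter_sub, Pr_iter_const hF.deg]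
        have h6 : 0 < 1 / (2 * ε) := by positivity
        have h7 : 1 / (2 * ε) * ((4 * ρ) ^ 2 - (Pr G)^[T0] (fun z => N2 F1 F2 z c) y) ≤
            1 / (2 * ε) * ((4 * ρ) ^ 2 - (N2 F1 F2 y c + 2 * ε)) :=
          mul_le_mul_of_nonneg_left (by linarith) h6.le
        refine h7.trans (le_of_eq ?_)
        field_simp
        ring) T x (by
        show N2 F1 F2 x c ≤ (4 * ρ) ^ 2
        nlinarith)
    have h5 : ((T : ℝ) + 1) * vv G T0 A B T x ≤ ∑ j ∈ Finset.range (T + 1), vv G T0 A B j x := by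
      have h6 : ∀ j ∈ Finset.range (T + 1), vv G T0 A B T x ≤ vv G T0 A B j x := by
        intro j hj
        have h7 : Antitone fun j => vv G T0 A B j x :=
          antitone_nat_of_succ_le fun j => vv_anti hF.deg A B j x
        exact h7 (Nat.lt_succ_iff.1 (Finset.mem_range.1 hj))
      have := Finset.card_nsmul_le_sum _ _ _ h6
      rw [Finset.card_range, nsmul_eq_mul] at this
      push_cast at this
      exact this
    have h6 : q x ≤ 8 * ρ ^ 2 / ε := by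
      simp only [q]
      have := N2_nonneg (F1 := F1) (F2 := F2) x c
      rw [div_le_div_iff₀ (by positivity) hε]
      nlinarith [mul_nonneg this hε.le]
    have h7 : ((T : ℝ) + 1) * vv G T0 A B T x ≤ 8 * ρ ^ 2 / ε := h5.trans (h4.trans h6)
    have h8 : 16 / (ε * δ) * ρ ^ 2 ≤ (T : ℝ) + 1 := hT.trans (by linarith)
    have h9 : 0 ≤ vv G T0 A B T x := vv_nonneg hF.deg A B T x
    have h10 : 16 / (ε * δ) * ρ ^ 2 * vv G T0 A B T x ≤ 8 * ρ ^ 2 / ε :=
      (mul_le_mul_of_nonneg_right h8 h9).trans h7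
    have h11 : 16 / (ε * δ) * ρ ^ 2 * vv G T0 A B T x =
        (8 * ρ ^ 2 / ε) * (2 * vv G T0 A B T x / δ) := by field_simp; ring
    rw [h11] at h10
    have h12 : 0 < 8 * ρ ^ 2 / ε := by positivity
    have h13 : 2 * vv G T0 A B T x / δ ≤ 1 := by
      by_contra h14
      push Not at h14
      have := mul_lt_mul_of_pos_left h14 h12
      linarith
    rw [div_le_one hδ0] at h13
    linarith
  rw [hδ] at h3 ⊢
  linarith

end

end MP7315a9
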