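import Mathlib

/-!
# Bernoulli product measures: grouping and monotone coupling
-/

open MeasureTheory ProbabilityTheory Set

namespace MP7315a9

noncomputable section

/-- The Bernoulli measure with parameter `p` on `Bool`. -/
def bern (p : unitInterval) : Measure Bool :=
  ENNReal.ofReal p • Measure.dirac true + ENNReal.ofReal (1 - p) • Measure.dirac false

lemma bern_true (p : unitInterval) : bern p {true} = ENNReal.ofReal p := by
  simp [bern]

lemma bern_false (p : unitInterval) : bern p {false} = ENNReal.ofReal (1 - p) := by
  simp [bern]

instance (p : unitInterval) : IsProbabilityMeasure (bern p) where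
  measure_univ := by
    simp only [bern, Measure.coe_add, Measure.coe_smul, Pi.add_apply, Pi.smul_apply,
      measure_univ, smul_eq_mul, mul_one]
    rw [← ENNReal.ofReal_add p.2.1 (sub_nonneg.2 p.2.2)]
    simp

/-- A probability measure on `Bool` is determined by the mass of `true`. -/
lemma eq_bern {ν : Measure Bool} [IsProbabilityMeasure ν] {p : unitInterval}
    (h : ν {true} = ENNReal.ofReal p) : ν = bern p := by
  have hf : ν {false} = bern p {false} := by
    have h1 : ({false} : Set Bool) = ({true} : Set Bool)ᶜ := by ext b; cases b <;> simp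
    rw [h1, prob_compl_eq_one_sub (by trivial), prob_compl_eq_one_sub (by trivial), h, bern_true]
  have ht : ν {true} = bern p {true} := by rw [h, bern_true]
  ext s _
  rw [← Measure.sum_smul_dirac ν, ← Measure.sum_smul_dirac (bern p)]
  simp [ht, hf]

lemma eq_bern_of_false {ν : Measure Bool} [IsProbabilityMeasure ν] {p : unitInterval}
    (h : ν {false} = ENNReal.ofReal (1 - p)) : ν = bern p := by
  apply eq_bern
  have h1 : ({true} : Set Bool) = ({false} : Set Bool)ᶜ := by ext b; cases b <;> simp
  rw [h1, prob_compl_eq_one_sub (by trivial), h, ← ENNReal.ofReal_one,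
    ← ENNReal.ofReal_sub _ (sub_nonneg.2 p.2.2)]
  simp

/-- Independent Bernoulli variables. -/
def bits {K : Type*} (r : K → unitInterval) : Measure (K → Bool) :=
  Measure.infinitePi fun k => bern (r k)

instance {K : Type*} (r : K → unitInterval) : IsProbabilityMeasure (bits r) := by
  unfold bits; infer_instance

/-- Functions of disjoint groups of independent bits are independent. -/
lemma bits_group {K I : Type*} {J : I → Type*} (r : K → unitInterval)
    (g : (Σ i, J i) → K) (hg : Function.Injective g) (F : (i : I) → (J i → Bool) → Bool)
    (hF : ∀ i, Measurable (F i)) :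
    (bits r).map (fun b i => F i fun j => b (g ⟨i, j⟩)) =
      Measure.infinitePi fun i => (bits fun j : J i => r (g ⟨i, j⟩)).map (F i) := by
  have h1 : (bits r).map (fun b k => b (g k)) = bits fun k => r (g k) := by
    have := Measure.map_infinitePi_infinitePi_of_inj (P := fun k => bern (r k)) hg
    simpa [bits] using this
  have h2 := Measure.infinitePi_map_piCurry (X := fun (i : I) (_ : J i) => Bool)
    (μ := fun i j => bern (r (g ⟨i, j⟩)))
  have h3 := Measure.infinitePi_map_pi (X := fun i : I => J i → Bool) (Y := fun _ : I => Bool)
    (fun i => Measure.infinitePi fun j : J i => bern (r (g ⟨i, j⟩))) (f := F) hF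
  have hm1 : Measurable fun (b : K → Bool) (k : Σ i, J i) => b (g k) := by fun_prop
  have hm2 : Measurable (MeasurableEquiv.piCurry fun (i : I) (_ : J i) => Bool) :=
    MeasurableEquiv.measurable _
  have hm3 : Measurable fun (x : (i : I) → J i → Bool) (i : I) => F i (x i) := by fun_prop
  calc (bits r).map (fun b i => F i fun j => b (g ⟨i, j⟩))
      = (((bits r).map (fun b (k : Σ i, J i) => b (g k))).map
          (MeasurableEquiv.piCurry fun (i : I) (_ : J i) => Bool)).map
          (fun x i => F i (x i)) := by
        rw [Measure.map_map hm2 hm1, Measure.map_map hm3 (hm2.comp hm1)]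
        rfl
    _ = _ := by
        rw [h1]
        unfold bits
        rw [h2, h3]

/-- All bits of a finite group are `true`. -/
lemma bits_all {J : Type*} [Fintype J] (r : J → unitInterval) {F : (J → Bool) → Bool}
    (hF : ∀ b, F b = true ↔ ∀ j, b j = true) :
    (bits r).map F = bern (∏ j, r j) := by
  have hm : Measurable F := measurable_of_finite _
  have : IsProbabilityMeasure ((bits r).map F) := Measure.isProbabilityMeasure_map hm.aemeasurable
  apply eq_bern
  rw [Measure.map_apply hm (by trivial)]
  have : F ⁻¹' {true} = Set.pi ((Finset.univ : Finset J) : Set J) fun _ => {true} := by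
    ext b; simp [hF]
  rw [this, bits, Measure.infinitePi_pi _ (fun _ _ => by trivial)]
  simp only [bern_true]
  rw [← ENNReal.ofReal_prod_of_nonneg fun j _ => (r j).2.1]
  congr 1
  exact (map_prod (unitInterval.submonoid.subtype) _ _).symm

/-- Some bit of a finite group is `true`. -/
lemma bits_exists {J : Type*} [Fintype J] (r : J → unitInterval) {F : (J → Bool) → Bool}
    (hF : ∀ b, F b = true ↔ ∃ j, b j = true) :
    (bits r).map F = bern (unitInterval.symm (∏ j, unitInterval.symm (r j))) := by
  have hm : Measurable F := measurable_of_finite _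
  have : IsProbabilityMeasure ((bits r).map F) := Measure.isProbabilityMeasure_map hm.aemeasurable
  apply eq_bern_of_false
  rw [Measure.map_apply hm (by trivial)]
  have : F ⁻¹' {false} = Set.pi ((Finset.univ : Finset J) : Set J) fun _ => {false} := by
    ext b
    have := hF b
    simp only [mem_preimage, mem_singleton_iff, Finset.coe_univ, mem_pi, mem_univ, forall_const]
    rw [← Bool.not_eq_true, this]
    simp
  rw [this, bits, Measure.infinitePi_pi _ (fun _ _ => by trivial)]
  simp only [bern_false]
  rw [← ENNReal.ofReal_prod_of_nonneg fun j _ => sub_nonneg.2 (r j).2.2]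
  congr 1
  rw [unitInterval.coe_symm_eq, sub_sub_cancel]
  exact (map_prod (unitInterval.submonoid.subtype) (fun j => unitInterval.symm (r j)) _).symm

/-- The monotone coupling. -/
lemma bits_mono {K : Type*} {r r' : K → unitInterval} (h : ∀ k, r k ≤ r' k)
    {A : Set (K → Bool)} (hA : MeasurableSet A) (hup : ∀ b b', b ≤ b' → b ∈ A → b' ∈ A) :
    bits r A ≤ bits r' A := by
  classical
  -- the ratios
  have hc : ∀ k, ∃ c : unitInterval, r k = r' k * c := by
    intro k
    rcases eq_or_lt_of_le (r' k).2.1 with h0 | h0
    · refine ⟨0, ?_⟩
      have h1 : (r k : ℝ) ≤ 0 := by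
        have := h k
        rw [← Subtype.coe_le_coe] at this
        linarith
      have e : (r k : ℝ) = 0 := le_antisymm h1 (r k).2.1
      exact Subtype.ext (by simp [e])
    · refine ⟨⟨(r k : ℝ) / r' k, div_nonneg (r k).2.1 (r' k).2.1,
        (div_le_one h0).2 (Subtype.coe_le_coe.2 (h k))⟩, ?_⟩
      apply Subtype.ext
      push_cast
      field_simp
  choose c hc using hc
  let ρ : K × Bool → unitInterval := fun x => if x.2 then c x.1 else r' x.1
  have e1 : (bits ρ).map (fun b k => b (k, false)) = bits r' := by
    have := Measure.map_infinitePi_infinitePi_of_inj (P := fun k => bern (ρ k))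
      (f := fun k : K => (k, false)) (fun a b hab => by simpa using hab)
    simpa [bits, ρ] using this
  have e2 : (bits ρ).map (fun b k => decide (∀ j : Bool, b (k, j) = true)) = bits r := by
    have := bits_group (J := fun _ : K => Bool) ρ (fun x => (x.1, x.2))
      (fun a b hab => by
        rcases a with ⟨a1, a2⟩; rcases b with ⟨b1, b2⟩
        simp only [Prod.mk.injEq] at hab
        obtain ⟨rfl, rfl⟩ := hab; rfl)
      (fun _ b => decide (∀ j, b j = true)) (fun _ => measurable_of_finite _)
    rw [this]
    unfold bits
    congr 1
    funext k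
    refine (bits_all (fun j : Bool => ρ (k, j)) fun b => by simp).trans ?_
    congr 1
    simp [ρ, hc k, mul_comm]
  have m1 : Measurable fun (b : K × Bool → Bool) (k : K) => b (k, false) := by fun_prop
  have m2 : Measurable fun (b : K × Bool → Bool) (k : K) =>
      decide (∀ j : Bool, b (k, j) = true) := by
    apply measurable_pi_lambda
    intro k
    have h1 : Measurable fun (b : K × Bool → Bool) (j : Bool) => b (k, j) := by fun_prop
    exact (measurable_of_finite (fun b : Bool → Bool => decide (∀ j, b j = true))).comp h1
  rw [← e1, ← e2, Measure.map_apply m1 hA, Measure.map_apply m2 hA]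
  refine measure_mono fun b hb => hup _ _ ?_ hb
  intro k
  by_cases h2 : b (k, false) = true
  · simp [h2]
  · simp [h2]

end

end MP7315a9
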