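import Pool.Agent.Lib.MP_7315a9_pr.Path

/-!
# Independence for Bernoulli bits, and measurability of reachability
-/

open MeasureTheory ProbabilityTheory Set Filter

namespace MP7315a9

noncomputable section

/-- Events which depend on disjoint sets of bits are independent. -/
lemma bits_indep {K : Type*} (r : K → unitInterval) {S T : Set K} (hST : Disjoint S T)
    {A B : Set (K → Bool)} (hA : MeasurableSet A) (hB : MeasurableSet B)
    (hA' : ∀ η η' : K → Bool, (∀ k ∈ S, η k = η' k) → η ∈ A → η' ∈ A)
    (hB' : ∀ η η' : K → Bool, (∀ k ∈ T, η k = η' k) → η ∈ B → η' ∈ B) :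
    bits r (A ∩ B) = bits r A * bits r B := by
  classical
  let s : K → MeasurableSpace (K → Bool) := fun e => MeasurableSpace.comap (fun ω => ω e) inferInstance
  have hind : iIndep s (bits r) := by
    have := iIndepFun_infinitePi (P := fun k => bern (r k)) (X := fun _ (b : Bool) => b)
      (fun _ => measurable_id)
    exact this
  have h1 := indep_iSup_of_disjoint (m := s) (fun e => measurable_iff_comap_le.1
    (measurable_pi_apply e)) hind hST
  rw [Indep_iff] at h1
  have key : ∀ (U : Set K) (C : Set (K → Bool)), MeasurableSet C →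
      (∀ η η' : K → Bool, (∀ k ∈ U, η k = η' k) → η ∈ C → η' ∈ C) →
      MeasurableSet[⨆ k ∈ U, s k] C := by
    intro U C hC hC'
    let f : (K → Bool) → K → Bool := fun η k => if k ∈ U then η k else false
    have hf : Measurable[⨆ k ∈ U, s k] f := by
      rw [@measurable_pi_iff]
      intro e
      by_cases he : e ∈ U
      · simp only [f, he, if_true]
        have h1 : s e ≤ ⨆ a ∈ U, s a := le_iSup₂_of_le e he le_rfl
        exact (measurable_iff_comap_le.2 (le_refl (s e))).mono h1 le_rfl
      · simp only [f, he, if_false]
        exact @measurable_const _ _ _ (_) _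
    have hfC : f ⁻¹' C = C := by
      ext η
      constructor
      · exact fun h => hC' _ _ (fun k hk => by simp [f, hk]) h
      · exact fun h => hC' _ _ (fun k hk => by simp [f, hk]) h
    rw [← hfC]
    exact hf hC
  exact h1 A B (key S A hA hA') (key T B hB hB')

/-- Points reachable in `n` steps of a relation. -/
def rN {α : Type*} (r : α → α → Prop) (v : α) : ℕ → α → Prop
  | 0, u => u = v
  | n + 1, u => ∃ w, rN r v n w ∧ r w u

lemma rtg_iff {α : Type*} {r : α → α → Prop} {v u : α} :
    Relation.ReflTransGen r v u ↔ ∃ n, rN r v n u := by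
  constructor
  · intro h
    induction h with
    | refl => exact ⟨0, rfl⟩
    | tail _ h2 ih =>
      obtain ⟨n, hn⟩ := ih
      exact ⟨n + 1, _, hn, h2⟩
  · rintro ⟨n, hn⟩
    induction n generalizing u with
    | zero => rw [show u = v from hn]
    | succ n ih =>
      obtain ⟨w, h1, h2⟩ := hn
      exact (ih h1).tail h2

lemma rtg_mono {α : Type*} {r r' : α → α → Prop} (h : ∀ x y, r x y → r' x y) {u v : α}
    (h1 : Relation.ReflTransGen r u v) : Relation.ReflTransGen r' u v := by
  induction h1 with
  | refl => exact Relation.ReflTransGen.refl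
  | tail _ h2 ih => exact ih.tail (h _ _ h2)

lemma measurable_rtg {α Ω : Type*} [MeasurableSpace Ω] [Countable α]
    {r : Ω → α → α → Prop} (hr : ∀ u v, MeasurableSet {ω | r ω u v}) (v u : α) :
    MeasurableSet {ω | Relation.ReflTransGen (r ω) v u} := by
  have h1 : ∀ n u, MeasurableSet {ω | rN (r ω) v n u} := by
    intro n
    induction n with
    | zero =>
      intro u
      by_cases h : u = v
      · simp [rN, h]
      · simp [rN, h]
    | succ n ih =>
      intro u
      have : {ω | rN (r ω) v (n + 1) u} =
          ⋃ w, ({ω | rN (r ω) v n w} ∩ {ω | r ω w u}) := by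
        ext ω; simp [rN]
      rw [this]
      exact MeasurableSet.iUnion fun w => (ih w).inter (hr w u)
  have : {ω | Relation.ReflTransGen (r ω) v u} = ⋃ n, {ω | rN (r ω) v n u} := by
    ext ω; simp [rtg_iff]
  rw [this]
  exact MeasurableSet.iUnion fun n => h1 n u

end

end MP7315a9
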