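import Pool.Agent.Lib.MP_7315a9_pr.Hier

/-!
# A criterion for an infinite class
-/

open MeasureTheory ProbabilityTheory Set Filter Relation

namespace MP7315a9

noncomputable section

variable {V : Type*} {n : ℕ}

lemma cnn_of_infinite {η : E2 → Bool} (h : {z | Con η (0, 0) z}.Infinite) (F : Finset (ℤ × ℤ)) :
    ∃ B : Finset E2, Cnn ea eb η B {(0, 0)} {z | z ∉ F} := by
  classical
  obtain ⟨z, hz, hz'⟩ := h.exists_notMem_finset F
  have h1 : ∀ y, Con η (0, 0) y → ∃ B : Finset E2, ReflTransGen (opn ea eb η B) (0, 0) y := by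
    intro y hy
    unfold Con at hy
    induction hy with
    | refl => exact ⟨∅, ReflTransGen.refl⟩
    | @tail c d _ hcd ih =>
      obtain ⟨B, hB⟩ := ih
      obtain ⟨e, _, h2, h3⟩ := hcd
      refine ⟨insert e B, ReflTransGen.tail (rtg_mono (fun x y h => opn_mono
        (Finset.coe_subset.2 (Finset.subset_insert e B)) (fun _ _ h => h) h) hB) ?_⟩
      exact ⟨e, Finset.mem_coe.2 (Finset.mem_insert_self e B), h2, h3⟩
  obtain ⟨B, hB⟩ := h1 z hz
  exact ⟨B, (0, 0), rfl, z, hB, hz'⟩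

/-- An infinite exploration from the trajectory of a walker gives an infinite class. -/
lemma infClass_of_rch {Λ : E2 → Set V} (hΛ : ∀ e e', e ≠ e' → Disjoint (Λ e) (Λ e'))
    {K : ℤ × ℤ → Set (Tr V n)} {ω : Om V} {w0 : V × ℕ} (hw0 : w0.2 < ω.1 w0.1)
    (h : ∀ F : Finset (ℤ × ℤ), Rch ea eb Λ K ω univ {((0, 0), traj n ω w0)} {z | z ∉ F}) :
    InfClass ω n := by
  classical
  have key : ∀ u : (ℤ × ℤ) × Tr V n,
      ReflTransGen (expl ea eb Λ K ω univ) ((0, 0), traj n ω w0) u →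
      ∃ w', (acq ω n).Reachable w0 w' ∧ traj n ω w' = u.2 ∧ w'.2 < ω.1 w'.1 ∧
        (u.1 = (0, 0) ∨ ∃ e, (ea e = u.1 ∨ eb e = u.1) ∧ w'.1 ∈ Λ e) := by
    intro u hu
    induction hu with
    | refl => exact ⟨w0, SimpleGraph.Reachable.refl _, rfl, hw0, Or.inl rfl⟩
    | @tail c d _ hcd ih =>
      obtain ⟨w', h1, h2, h3, _⟩ := ih
      obtain ⟨e, _, h4, h5, ⟨s, hs⟩, x, hx, i, hi, h6⟩ := hcd
      refine ⟨(x, i), h1.trans ?_, h6, hi, Or.inr ⟨e, ?_, hx⟩⟩
      · by_cases h7 : w' = (x, i)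
        · rw [h7]
        · refine SimpleGraph.Adj.reachable ⟨h7, h3, hi, s, Nat.lt_succ_iff.1 s.2, ?_⟩
          rw [← h2, ← h6] at hs
          exact hs
      · rcases h4 with ⟨_, h4⟩ | ⟨_, h4⟩
        · exact Or.inr h4
        · exact Or.inl h4
  refine ⟨w0, hw0, ?_⟩
  intro hfin
  set W : Set (V × ℕ) := {w' | (acq ω n).Reachable w0 w'} with hW
  let Ed : Set E2 := {e | ∃ w' ∈ W, w'.1 ∈ Λ e}
  have hEd : Ed.Finite := by
    have h1 : Ed ⊆ ⋃ w' ∈ W, {e | w'.1 ∈ Λ e} := by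
      rintro e ⟨w', hw', he⟩
      exact mem_biUnion hw' he
    refine Finite.subset (hfin.biUnion fun w' _ => ?_) h1
    refine Set.Subsingleton.finite ?_
    intro e he e' he'
    by_contra hne
    exact Set.disjoint_left.1 (hΛ e e' hne) he he'
  let F : Finset (ℤ × ℤ) := insert (0, 0) ((hEd.toFinset.image ea) ∪ (hEd.toFinset.image eb))
  obtain ⟨u, hu, v, h1, h2⟩ := h F
  rw [mem_singleton_iff] at hu
  subst hu
  obtain ⟨w', h3, _, _, h4⟩ := key v h1
  apply h2
  rcases h4 with h4 | ⟨e, h4, h5⟩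
  · rw [h4]; exact Finset.mem_insert_self _ _
  · have he : e ∈ hEd.toFinset := by
      rw [Set.Finite.mem_toFinset]
      exact ⟨w', h3, h5⟩
    refine Finset.mem_insert_of_mem (Finset.mem_union.2 ?_)
    rcases h4 with h4 | h4
    · left; rw [← h4]; exact Finset.mem_image_of_mem _ he
    · right; rw [← h4]; exact Finset.mem_image_of_mem _ he

/-- The criterion. -/
theorem criterion [MeasurableSpace V] [DiscreteMeasurableSpace V] [Countable V]
    (G : SimpleGraph V) [G.LocallyFinite] {lam : NNReal} (hlam : 0 < lam)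
    (hdeg : ∀ v, 0 < G.degree v) (Λ : E2 → Set V) (K : ℤ × ℤ → Set (Tr V n))
    (hΛ : ∀ e e', e ≠ e' → Disjoint (Λ e) (Λ e')) {p : unitInterval}
    (hp0 : 2 * (1 - (p : ℝ)) ≤ 1 / 144)
    (hp : ∀ e z z', Opp ea eb e z z' → ∀ γ ∈ K z, ENNReal.ofReal p ≤
      snLaw G lam {ω | ∃ x ∈ Λ e, ∃ i < ω.1 x, traj n ω (x, i) ∈ {γ' | γ' ∈ K z' ∧ Meet γ γ'}})
    {v0 : V} (hv0 : ∀ e, v0 ∉ Λ e) (hK0 : pl G n v0 (K (0, 0)) ≠ 0) :
    ∀ᵐ ω ∂(snLaw G lam), InfClass ω n := by
  classical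
  have := snLaw_prob G lam hdeg
  have := isProb_pl G hdeg n v0
  set θ : ENNReal := bits (fun _ : E2 => p) {η | {z | Con η (0, 0) z}.Infinite} with hθ
  have hθ0 : 0 < θ := perc_pos hp0
  -- a trajectory
  obtain ⟨γ, hγK, hγ⟩ : ∃ γ ∈ K (0, 0), pl G n v0 {γ} ≠ 0 := by
    by_contra hcon
    push Not at hcon
    apply hK0
    have h1 : K (0, 0) = ⋃ γ ∈ K (0, 0), {γ} := by simp
    rw [h1, measure_biUnion_null_iff (to_countable _)]
    exact hcon
  have h1 : ∀ F : Finset (ℤ × ℤ), θ ≤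
      snLaw G lam {ω | Rch ea eb Λ K ω univ {((0, 0), γ)} {z | z ∉ F}} := by
    intro F
    have h2 : {η : E2 → Bool | {z | Con η (0, 0) z}.Infinite} ⊆
        ⋃ B : Finset E2, {η | Cnn ea eb η B {(0, 0)} {z | z ∉ F}} := by
      intro η hη
      obtain ⟨B, hB⟩ := cnn_of_infinite hη F
      exact mem_iUnion.2 ⟨B, hB⟩
    rw [hθ]
    refine (measure_mono h2).trans ?_
    have hdir : Directed (· ⊆ ·) fun B : Finset E2 =>
        {η : E2 → Bool | Cnn ea eb η B {(0, 0)} {z | z ∉ F}} := by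
      refine Monotone.directed_le fun B B' hBB' η hη => ?_
      exact Cnn_mono (Finset.coe_subset.2 hBB') (fun _ _ h => h) subset_rfl subset_rfl hη
    rw [hdir.measure_iUnion]
    refine iSup_le fun B => ?_
    have h3 := explore G lam hdeg ea eb Λ K hΛ p hp {z | z ∉ F} _ B rfl {((0, 0), γ)} (by
      rintro u rfl; exact hγK)
    rw [image_singleton] at h3
    refine h3.trans (measure_mono ?_)
    rintro ω ⟨u, hu, v, h4, h5⟩
    exact ⟨u, hu, v, rtg_mono (fun x y h => expl_mono (subset_univ _) h) h4, h5⟩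
  have h2 : θ ≤ snLaw G lam (⋂ F : Finset (ℤ × ℤ),
      {ω | Rch ea eb Λ K ω univ {((0, 0), γ)} {z | z ∉ F}}) := by
    rw [Directed.measure_iInter (fun F => (measurable_Rch ea eb Λ K _ _ _).nullMeasurableSet)
      ?_ ⟨∅, measure_ne_top _ _⟩]
    · exact le_iInf h1
    · refine Antitone.directed_ge fun F F' hFF' ω hω => ?_
      obtain ⟨u, hu, v, h4, h5⟩ := hω
      exact ⟨u, hu, v, h4, fun h => h5 (hFF' h)⟩
  -- the starting walker
  set St : Set (Om V) := {ω | ∃ v ∈ ({v0} : Finset V), ∃ i < ω.1 v, traj n ω (v, i) ∈ ({γ} : Set (Tr V n))}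
    with hSt
  have hStm : MeasurableSet St := by
    have : St = ⋃ i : ℕ, ({ω : Om V | i < ω.1 v0} ∩ {ω : Om V | traj n ω (v0, i) = γ}) := by
      ext ω; simp [hSt]
    rw [this]
    refine MeasurableSet.iUnion fun i => MeasurableSet.inter ?_ ?_
    · have h1 : Measurable fun ω : Om V => ω.1 v0 := by fun_prop
      exact h1 (MeasurableSet.of_discrete (s := {n | i < n}))
    · exact measurable_traj n (v0, i) (MeasurableSet.of_discrete (s := {y | y = γ}))
  have hSt0 : 0 < snLaw G lam St := by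
    have h3 := exists_traj G lam hdeg n {v0} {γ} (c := G.degree v0 * (pl G n v0).real {γ})
      (by simp)
    refine lt_of_lt_of_le ?_ h3
    rw [ENNReal.ofReal_pos, sub_pos, Real.exp_lt_one_iff, neg_lt_zero]
    have h4 : 0 < (pl G n v0).real {γ} := by
      rw [measureReal_def]
      exact ENNReal.toReal_pos hγ (measure_ne_top _ _)
    have h5 : (0 : ℝ) < G.degree v0 := by exact_mod_cast hdeg v0
    have h6 : (0 : ℝ) < lam := by exact_mod_cast hlam
    positivity
  have hind : snLaw G lam (St ∩ ⋂ F : Finset (ℤ × ℤ),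
      {ω | Rch ea eb Λ K ω univ {((0, 0), γ)} {z | z ∉ F}}) = snLaw G lam St *
      snLaw G lam (⋂ F : Finset (ℤ × ℤ), {ω | Rch ea eb Λ K ω univ {((0, 0), γ)} {z | z ∉ F}}) := by
    refine indep_cut G lam hdeg (S := {v0}) (T := ⋃ e, Λ e) ?_ hStm
      (MeasurableSet.iInter fun F => measurable_Rch ea eb Λ K _ _ _) ?_ ?_
    · rw [Set.disjoint_singleton_left]
      simp only [mem_iUnion, not_exists]
      exact hv0
    · ext ω
      simp only [hSt, Finset.mem_singleton, mem_singleton_iff, exists_eq_left, mem_preimage,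
        mem_ofPred_eq]
      refine exists_congr fun i => ?_
      rw [cut_fst (mem_singleton v0),
        traj_congr (ω := cut {v0} ω) (ω' := ω) fun s y => cut_snd (mem_singleton v0) i s y]
    · rw [preimage_iInter]
      exact iInter_congr fun F => Rch_cut (fun e _ x hx => mem_iUnion.2 ⟨e, hx⟩) _ _
  have hpos : 0 < snLaw G lam {ω | InfClass ω n} := by
    have h3 : 0 < snLaw G lam (St ∩ ⋂ F : Finset (ℤ × ℤ),
        {ω | Rch ea eb Λ K ω univ {((0, 0), γ)} {z | z ∉ F}}) := by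
      rw [hind]
      exact ENNReal.mul_pos hSt0.ne' (lt_of_lt_of_le hθ0 h2).ne'
    refine lt_of_lt_of_le h3 (measure_mono ?_)
    rintro ω ⟨⟨v, hv, i, hi, h4⟩, h5⟩
    rw [Finset.mem_singleton] at hv
    subst hv
    rw [mem_singleton_iff] at h4
    refine infClass_of_rch (K := K) (w0 := (v, i)) hΛ hi fun F => ?_
    rw [h4]
    exact mem_iInter.1 h5 F
  rcases zero_one_inf G lam hdeg n with h3 | h3
  · exact absurd h3 hpos.ne'
  · have h4 := (prob_compl_eq_zero_iff (μ := snLaw G lam) (measurable_infClass (V := V) n)).2 h3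
    rw [ae_iff]
    exact h4

end

end MP7315a9
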