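import Pool.Agent.Lib.MP_7315a9_pr.BitsInd

/-!
# Exploration of a class along a coarse percolation cluster
-/

open MeasureTheory ProbabilityTheory Set Filter Relation

namespace MP7315a9

noncomputable section

variable {V Z E : Type*} {n : ℕ}

/-- Two trajectories meet. -/
def Meet (γ γ' : Tr V n) : Prop := ∃ s, γ s = γ' s

/-- The coarse edge `e` joins `z` and `z'`. -/
def Opp (a b : E → Z) (e : E) (z z' : Z) : Prop := (a e = z ∧ b e = z') ∨ (b e = z ∧ a e = z')

/-- One step of the exploration. -/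
def expl (a b : E → Z) (Λ : E → Set V) (K : Z → Set (Tr V n)) (ω : Om V) (B : Set E)
    (u v : Z × Tr V n) : Prop :=
  ∃ e ∈ B, Opp a b e u.1 v.1 ∧ v.2 ∈ K v.1 ∧ Meet u.2 v.2 ∧
    ∃ x ∈ Λ e, ∃ i < ω.1 x, traj n ω (x, i) = v.2

/-- The exploration from `R` reaches `T`. -/
def Rch (a b : E → Z) (Λ : E → Set V) (K : Z → Set (Tr V n)) (ω : Om V) (B : Set E)
    (R : Set (Z × Tr V n)) (T : Set Z) : Prop :=
  ∃ u ∈ R, ∃ v, ReflTransGen (expl a b Λ K ω B) u v ∧ v.1 ∈ T

/-- Open coarse edges. -/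
def opn (a b : E → Z) (η : E → Bool) (B : Set E) (x y : Z) : Prop :=
  ∃ e ∈ B, η e = true ∧ Opp a b e x y

/-- `D` is connected to `T` by open coarse edges in `B`. -/
def Cnn (a b : E → Z) (η : E → Bool) (B : Set E) (D : Set Z) (T : Set Z) : Prop :=
  ∃ u ∈ D, ∃ v, ReflTransGen (opn a b η B) u v ∧ v ∈ T

lemma traj_congr {ω ω' : Om V} {w : V × ℕ}
    (h : ∀ s x, ω.2 (w.1, w.2, s, x) = ω'.2 (w.1, w.2, s, x)) : traj n ω w = traj n ω' w := by
  funext s
  exact pos_congr h s

lemma expl_congr {a b : E → Z} {Λ : E → Set V} {K : Z → Set (Tr V n)} {ω ω' : Om V} {B : Set E}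
    {S : Set V} (hS : ∀ e ∈ B, ∀ x ∈ Λ e, x ∈ S) (h1 : ∀ x ∈ S, ω.1 x = ω'.1 x)
    (h2 : ∀ x ∈ S, ∀ i s y, ω.2 (x, i, s, y) = ω'.2 (x, i, s, y)) {u v : Z × Tr V n}
    (h : expl a b Λ K ω B u v) : expl a b Λ K ω' B u v := by
  obtain ⟨e, he, h3, h4, h5, x, hx, i, hi, h6⟩ := h
  refine ⟨e, he, h3, h4, h5, x, hx, i, ?_, ?_⟩
  · rw [← h1 x (hS e he x hx)]; exact hi
  · rw [← h6]
    exact (traj_congr fun s y => h2 x (hS e he x hx) i s y).symm

lemma cut_fst {S : Set V} {ω : Om V} {x : V} (hx : x ∈ S) : (cut S ω).1 x = ω.1 x := by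
  classical
  simp [cut, hx]

lemma cut_snd {S : Set V} {ω : Om V} {x : V} (hx : x ∈ S) (i s : ℕ) (y : V) :
    (cut S ω).2 (x, i, s, y) = ω.2 (x, i, s, y) := by
  classical
  simp [cut, hx]

lemma Rch_cut {a b : E → Z} {Λ : E → Set V} {K : Z → Set (Tr V n)} {B : Set E}
    {S : Set V} (hS : ∀ e ∈ B, ∀ x ∈ Λ e, x ∈ S) (R : Set (Z × Tr V n)) (T : Set Z) :
    cut S ⁻¹' {ω | Rch a b Λ K ω B R T} = {ω | Rch a b Λ K ω B R T} := by
  ext ω
  constructor
  · rintro ⟨u, hu, v, h1, h2⟩
    refine ⟨u, hu, v, ?_, h2⟩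
    exact rtg_mono (fun x y h => expl_congr hS (fun x hx => cut_fst hx)
      (fun x hx i s y => cut_snd hx i s y) h) h1
  · rintro ⟨u, hu, v, h1, h2⟩
    refine ⟨u, hu, v, ?_, h2⟩
    exact rtg_mono (fun x y h => expl_congr hS (fun x hx => (cut_fst hx).symm)
      (fun x hx i s y => (cut_snd hx i s y).symm) h) h1

lemma measurable_Rch [MeasurableSpace V] [DiscreteMeasurableSpace V] [Countable V] [Countable Z]
    [Countable E] (a b : E → Z) (Λ : E → Set V) (K : Z → Set (Tr V n)) (B : Set E)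
    (R : Set (Z × Tr V n)) (T : Set Z) : MeasurableSet {ω | Rch a b Λ K ω B R T} := by
  have h1 : ∀ u v : Z × Tr V n, MeasurableSet {ω : Om V | expl a b Λ K ω B u v} := by
    intro u v
    have : {ω : Om V | expl a b Λ K ω B u v} =
        ⋃ e : E, ⋃ x : V, ⋃ i : ℕ, ({_ω : Om V | e ∈ B ∧ Opp a b e u.1 v.1 ∧ v.2 ∈ K v.1 ∧
          Meet u.2 v.2 ∧ x ∈ Λ e} ∩ ({ω : Om V | i < ω.1 x} ∩ {ω : Om V | traj n ω (x, i) = v.2})) := by
      ext ω
      simp only [expl, mem_ofPred_eq, mem_iUnion, mem_inter_iff]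
      constructor
      · rintro ⟨e, he, h3, h4, h5, x, hx, i, hi, h6⟩
        exact ⟨e, x, i, ⟨he, h3, h4, h5, hx⟩, hi, h6⟩
      · rintro ⟨e, x, i, ⟨he, h3, h4, h5, hx⟩, hi, h6⟩
        exact ⟨e, he, h3, h4, h5, x, hx, i, hi, h6⟩
    rw [this]
    refine MeasurableSet.iUnion fun e => MeasurableSet.iUnion fun x => MeasurableSet.iUnion fun i =>
      (MeasurableSet.const _).inter (MeasurableSet.inter ?_ ?_)
    · have h1 : Measurable fun ω : Om V => ω.1 x := by fun_prop
      exact h1 (MeasurableSet.of_discrete (s := {n | i < n}))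
    · exact measurable_traj n (x, i) (MeasurableSet.of_discrete (s := {y | y = v.2}))
  have h2 : {ω | Rch a b Λ K ω B R T} = ⋃ u : Z × Tr V n, ⋃ v : Z × Tr V n,
      ({_ω : Om V | u ∈ R ∧ v.1 ∈ T} ∩ {ω | ReflTransGen (expl a b Λ K ω B) u v}) := by
    ext ω
    simp only [Rch, mem_ofPred_eq, mem_iUnion, mem_inter_iff]
    constructor
    · rintro ⟨u, hu, v, h, hv⟩; exact ⟨u, v, ⟨hu, hv⟩, h⟩
    · rintro ⟨u, v, ⟨hu, hv⟩, h⟩; exact ⟨u, hu, v, h, hv⟩
  rw [h2]
  exact MeasurableSet.iUnion fun u => MeasurableSet.iUnion fun v =>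
    (MeasurableSet.const _).inter (measurable_rtg h1 u v)

lemma measurable_Cnn [Countable Z] [Countable E] (a b : E → Z) (B : Set E) (D T : Set Z) :
    MeasurableSet {η | Cnn a b η B D T} := by
  have h1 : ∀ u v : Z, MeasurableSet {η : E → Bool | opn a b η B u v} := by
    intro u v
    have : {η : E → Bool | opn a b η B u v} =
        ⋃ e : E, ({_η : E → Bool | e ∈ B ∧ Opp a b e u v} ∩ (fun η => η e) ⁻¹' {true}) := by
      ext η
      simp only [opn, mem_ofPred_eq, mem_iUnion, mem_inter_iff, mem_preimage, mem_singleton_iff]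
      constructor
      · rintro ⟨e, he, h3, h4⟩; exact ⟨e, ⟨he, h4⟩, h3⟩
      · rintro ⟨e, ⟨he, h4⟩, h3⟩; exact ⟨e, he, h3, h4⟩
    rw [this]
    exact MeasurableSet.iUnion fun e => (MeasurableSet.const _).inter
      ((measurable_pi_apply _) (by trivial))
  have h2 : {η | Cnn a b η B D T} = ⋃ u : Z, ⋃ v : Z,
      ({_η : E → Bool | u ∈ D ∧ v ∈ T} ∩ {η | ReflTransGen (opn a b η B) u v}) := by
    ext η
    simp only [Cnn, mem_ofPred_eq, mem_iUnion, mem_inter_iff]
    constructor
    · rintro ⟨u, hu, v, h, hv⟩; exact ⟨u, v, ⟨hu, hv⟩, h⟩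
    · rintro ⟨u, v, ⟨hu, hv⟩, h⟩; exact ⟨u, hu, v, h, hv⟩
  rw [h2]
  exact MeasurableSet.iUnion fun u => MeasurableSet.iUnion fun v =>
    (MeasurableSet.const _).inter (measurable_rtg h1 u v)

lemma opn_mono {a b : E → Z} {η η' : E → Bool} {B B' : Set E} (hB : B ⊆ B')
    (hη : ∀ e ∈ B, η e = true → η' e = true) {x y : Z} (h : opn a b η B x y) :
    opn a b η' B' x y := by
  obtain ⟨e, he, h1, h2⟩ := h
  exact ⟨e, hB he, hη e he h1, h2⟩

lemma Cnn_mono {a b : E → Z} {η η' : E → Bool} {B B' : Set E} {D D' T T' : Set Z} (hB : B ⊆ B')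
    (hη : ∀ e ∈ B, η e = true → η' e = true) (hD : D ⊆ D') (hT : T ⊆ T')
    (h : Cnn a b η B D T) : Cnn a b η' B' D' T' := by
  obtain ⟨u, hu, v, h1, h2⟩ := h
  exact ⟨u, hD hu, v, rtg_mono (fun x y h => opn_mono hB hη h) h1, hT h2⟩

lemma expl_mono {a b : E → Z} {Λ : E → Set V} {K : Z → Set (Tr V n)} {ω : Om V} {B B' : Set E}
    (hB : B ⊆ B') {u v : Z × Tr V n} (h : expl a b Λ K ω B u v) : expl a b Λ K ω B' u v := by
  obtain ⟨e, he, h3⟩ := h
  exact ⟨e, hB he, h3⟩

/-- Comparison of the exploration with bond percolation. -/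
theorem explore [MeasurableSpace V] [DiscreteMeasurableSpace V] [Countable V] [Countable Z]
    [Countable E] (G : SimpleGraph V) [G.LocallyFinite] (lam : NNReal)
    (hdeg : ∀ v, 0 < G.degree v) (a b : E → Z) (Λ : E → Set V) (K : Z → Set (Tr V n))
    (hΛ : ∀ e e', e ≠ e' → Disjoint (Λ e) (Λ e')) (p : unitInterval)
    (hp : ∀ e z z', Opp a b e z z' → ∀ γ ∈ K z, ENNReal.ofReal p ≤
      snLaw G lam {ω | ∃ x ∈ Λ e, ∃ i < ω.1 x, traj n ω (x, i) ∈ {γ' | γ' ∈ K z' ∧ Meet γ γ'}})
    (T : Set Z) (m : ℕ) : ∀ (B : Finset E), B.card = m → ∀ R : Set (Z × Tr V n),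
      (∀ u ∈ R, u.2 ∈ K u.1) →
      bits (fun _ : E => p) {η | Cnn a b η B (Prod.fst '' R) T} ≤
        snLaw G lam {ω | Rch a b Λ K ω B R T} := by
  classical
  have := snLaw_prob G lam hdeg
  induction m with
  | zero =>
    intro B hB R _
    rw [Finset.card_eq_zero] at hB
    subst hB
    by_cases h1 : ∃ u ∈ R, u.1 ∈ T
    · obtain ⟨u, hu, hT⟩ := h1
      have h2 : {ω : Om V | Rch a b Λ K ω (∅ : Finset E) R T} = univ :=
        eq_univ_of_forall fun ω => ⟨u, hu, u, ReflTransGen.refl, hT⟩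
      rw [h2, measure_univ]
      exact prob_le_one
    · have h2 : {η : E → Bool | Cnn a b η (∅ : Finset E) (Prod.fst '' R) T} = ∅ := by
        rw [eq_empty_iff_forall_notMem]
        rintro η ⟨_, ⟨u, hu, rfl⟩, v, h3, hv⟩
        apply h1
        refine ⟨u, hu, ?_⟩
        rcases ReflTransGen.cases_head h3 with h4 | ⟨c, ⟨e, he, _⟩, _⟩
        · rw [h4]; exact hv
        · simp at he
      rw [h2, measure_empty]
      exact bot_le
  | succ m ih =>
    intro B hB R hR
    by_cases h1 : ∃ u ∈ R, u.1 ∈ T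
    · obtain ⟨u, hu, hT⟩ := h1
      have h2 : {ω : Om V | Rch a b Λ K ω B R T} = univ :=
        eq_univ_of_forall fun ω => ⟨u, hu, u, ReflTransGen.refl, hT⟩
      rw [h2, measure_univ]
      exact prob_le_one
    by_cases h2 : ∃ e ∈ B, ∃ u ∈ R, ∃ z', z' ∉ Prod.fst '' R ∧ Opp a b e u.1 z'
    swap
    · have h3 : {η : E → Bool | Cnn a b η B (Prod.fst '' R) T} = ∅ := by
        rw [eq_empty_iff_forall_notMem]
        rintro η ⟨z, hz, v, h3, hv⟩
        have h4 : v ∈ Prod.fst '' R := by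
          clear hv
          induction h3 with
          | refl => exact hz
          | @tail x y _ hxy ih =>
            obtain ⟨e, he, _, h5⟩ := hxy
            by_contra h6
            obtain ⟨u, hu, rfl⟩ := ih
            exact h2 ⟨e, he, u, hu, y, h6, h5⟩
        obtain ⟨u, hu, rfl⟩ := h4
        exact h1 ⟨u, hu, hv⟩
      rw [h3, measure_empty]
      exact bot_le
    obtain ⟨e, he, ⟨z, γ⟩, hu, z', hz', hopp⟩ := h2
    simp only at hopp
    set B' : Finset E := B.erase e with hB'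
    have hcard : B'.card = m := by rw [hB', Finset.card_erase_of_mem he, hB]; rfl
    have hBB' : (B' : Set E) ⊆ B := Finset.coe_subset.2 (Finset.erase_subset e B)
    -- the percolation side
    set D : Set Z := Prod.fst '' R with hD
    set C0 : Set (E → Bool) := {η | Cnn a b η B' D T} with hC0
    set C1 : Set (E → Bool) := {η | Cnn a b η B' (insert z' D) T} with hC1
    have hzD : z ∈ D := ⟨(z, γ), hu, rfl⟩
    have hsub : {η : E → Bool | Cnn a b η B D T} ⊆
        ((fun η => η e) ⁻¹' {true} ∩ C1) ∪ ((fun η => η e) ⁻¹' {false} ∩ C0) := by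
      rintro η ⟨x, hx, v, h3, hv⟩
      rcases hη : η e with _ | _
      · right
        refine ⟨hη, x, hx, v, ?_, hv⟩
        refine rtg_mono ?_ h3
        rintro x y ⟨e', he', h4, h5⟩
        refine ⟨e', ?_, h4, h5⟩
        refine Finset.mem_erase.2 ⟨?_, he'⟩
        rintro rfl
        rw [hη] at h4; exact absurd h4 (by decide)
      · left
        refine ⟨hη, ?_⟩
        have h4 : ∃ x' ∈ insert z' D, ReflTransGen (opn a b η B') x' v := by
          clear hv
          induction h3 with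
          | refl => exact ⟨x, mem_insert_of_mem _ hx, ReflTransGen.refl⟩
          | @tail c d _ hcd ih =>
            obtain ⟨x', hx', h5⟩ := ih
            obtain ⟨e', he', h6, h7⟩ := hcd
            by_cases hee : e' = e
            · subst hee
              have h8 : d = z ∨ d = z' := by
                rcases hopp with ⟨h8, h9⟩ | ⟨h8, h9⟩ <;> rcases h7 with ⟨h10, h11⟩ | ⟨h10, h11⟩
                · right; rw [← h11, h9]
                · left; rw [← h11, h8]
                · left; rw [← h11, h8]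
                · right; rw [← h11, h9]
              rcases h8 with rfl | rfl
              · exact ⟨d, mem_insert_of_mem _ hzD, ReflTransGen.refl⟩
              · exact ⟨d, mem_insert _ _, ReflTransGen.refl⟩
            · exact ⟨x', hx', h5.tail ⟨e', Finset.mem_erase.2 ⟨hee, he'⟩, h6, h7⟩⟩
        obtain ⟨x', hx', h5⟩ := h4
        exact ⟨x', hx', v, h5, hv⟩
    have hC01 : bits (fun _ : E => p) C0 ≤ bits (fun _ : E => p) C1 :=
      measure_mono fun η h => Cnn_mono subset_rfl (fun _ _ h => h) (subset_insert _ _) subset_rfl h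
    have hdep : ∀ D' : Set Z, ∀ η η' : E → Bool, (∀ k ∈ (B' : Set E), η k = η' k) →
        Cnn a b η B' D' T → Cnn a b η' B' D' T := by
      intro D' η η' h h3
      exact Cnn_mono subset_rfl (fun k hk h4 => by rw [← h k hk]; exact h4) subset_rfl subset_rfl h3
    have hdis : Disjoint ({e} : Set E) (B' : Set E) := by
      rw [Set.disjoint_singleton_left]
      simp [hB']
    have hmeas : ∀ c : Bool, MeasurableSet ((fun η : E → Bool => η e) ⁻¹' {c}) := fun c =>
      (measurable_pi_apply _) (by trivial)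
    have hbit : ∀ c : Bool, bits (fun _ : E => p) ((fun η => η e) ⁻¹' {c}) = bern p {c} := by
      intro c
      have h3 := Measure.infinitePi_map_eval (fun _ : E => bern p) e
      rw [← h3, Measure.map_apply (by fun_prop) (by trivial)]
      rfl
    have hper : bits (fun _ : E => p) {η | Cnn a b η B D T} ≤
        bern p {true} * bits (fun _ : E => p) C1 + bern p {false} * bits (fun _ : E => p) C0 := by
      refine (measure_mono hsub).trans ((measure_union_le _ _).trans ?_)
      rw [bits_indep (fun _ : E => p) hdis (hmeas true) (measurable_Cnn a b B' _ T)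
          (fun η η' h h3 => by
            have := h e rfl
            simp only [mem_preimage, mem_singleton_iff] at h3 ⊢
            rw [← this]; exact h3) (hdep _),
        bits_indep (fun _ : E => p) hdis (hmeas false) (measurable_Cnn a b B' _ T)
          (fun η η' h h3 => by
            have := h e rfl
            simp only [mem_preimage, mem_singleton_iff] at h3 ⊢
            rw [← this]; exact h3) (hdep _), hbit, hbit]
    -- the walkers
    obtain ⟨code, hcode⟩ := exists_injective_nat (Tr V n)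
    let Av : Om V → Set (Tr V n) := fun ω =>
      {γ' | γ' ∈ K z' ∧ Meet γ γ' ∧ ∃ x ∈ Λ e, ∃ i < ω.1 x, traj n ω (x, i) = γ'}
    let Fs : Tr V n → Set (Om V) := fun γ' => {ω | γ' ∈ Av ω ∧ ∀ γ'' ∈ Av ω, code γ' ≤ code γ''}
    let F : Set (Om V) :=
      {ω | ∃ x ∈ Λ e, ∃ i < ω.1 x, traj n ω (x, i) ∈ {γ' | γ' ∈ K z' ∧ Meet γ γ'}}
    have hFF : F = ⋃ γ', Fs γ' := by
      ext ω
      simp only [mem_iUnion]
      constructor
      · rintro ⟨x, hx, i, hi, h3, h4⟩
        have hne : (code '' Av ω).Nonempty := ⟨_, _, ⟨h3, h4, x, hx, i, hi, rfl⟩, rfl⟩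
        obtain ⟨γ', h5, h6⟩ := Nat.sInf_mem hne
        exact ⟨γ', h5, fun γ'' h7 => by rw [h6]; exact Nat.sInf_le ⟨γ'', h7, rfl⟩⟩
      · rintro ⟨γ', ⟨h3, h4, x, hx, i, hi, h5⟩, _⟩
        exact ⟨x, hx, i, hi, by rw [h5]; exact ⟨h3, h4⟩⟩
    have hAvm : ∀ γ', MeasurableSet {ω : Om V | γ' ∈ Av ω} := by
      intro γ'
      have h3 : {ω : Om V | γ' ∈ Av ω} = {_ω : Om V | γ' ∈ K z' ∧ Meet γ γ'} ∩
          ⋃ x ∈ Λ e, ⋃ i : ℕ, ({ω : Om V | i < ω.1 x} ∩ {ω : Om V | traj n ω (x, i) = γ'}) := by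
        ext ω
        simp only [Av, mem_ofPred_eq, mem_inter_iff, mem_iUnion, exists_prop, and_assoc]
      rw [h3]
      refine (MeasurableSet.const _).inter (MeasurableSet.biUnion (to_countable _) fun x _ =>
        MeasurableSet.iUnion fun i => MeasurableSet.inter ?_ ?_)
      · have h1 : Measurable fun ω : Om V => ω.1 x := by fun_prop
        exact h1 (MeasurableSet.of_discrete (s := {n | i < n}))
      · exact measurable_traj n (x, i) (MeasurableSet.of_discrete (s := {y | y = γ'}))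
    have hFsm : ∀ γ', MeasurableSet (Fs γ') := by
      intro γ'
      have h3 : Fs γ' = {ω : Om V | γ' ∈ Av ω} ∩
          ⋂ γ'', ({ω : Om V | γ'' ∈ Av ω}ᶜ ∪ {_ω : Om V | code γ' ≤ code γ''}) := by
        ext ω
        simp only [Fs, mem_ofPred_eq, mem_inter_iff, mem_iInter, mem_union, mem_compl_iff,
          ← imp_iff_not_or]
      rw [h3]
      exact (hAvm γ').inter (MeasurableSet.iInter fun γ'' =>
        (hAvm γ'').compl.union (MeasurableSet.const _))
    have hFm : MeasurableSet F := by rw [hFF]; exact MeasurableSet.iUnion hFsm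
    have hFdisj : Pairwise (Function.onFun Disjoint Fs) := by
      intro γ1 γ2 hne
      rw [Function.onFun, Set.disjoint_left]
      rintro ω ⟨h3, h4⟩ ⟨h5, h6⟩
      exact hne (hcode (le_antisymm (h4 _ h5) (h6 _ h3)))
    -- cut invariance
    have hAvcut : ∀ ω γ', γ' ∈ Av (cut (Λ e) ω) ↔ γ' ∈ Av ω := by
      intro ω γ'
      simp only [Av, mem_ofPred_eq]
      refine and_congr_right fun _ => and_congr_right fun _ => exists_congr fun x =>
        and_congr_right fun hx => exists_congr fun i => ?_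
      rw [cut_fst hx, traj_congr (ω := cut (Λ e) ω) (ω' := ω) fun s y => cut_snd hx i s y]
    have hFscut : ∀ γ', cut (Λ e) ⁻¹' (Fs γ') = Fs γ' := by
      intro γ'
      ext ω
      simp only [Fs, mem_preimage, mem_ofPred_eq, hAvcut]
    have hFcut : cut (Λ e) ⁻¹' Fᶜ = Fᶜ := by
      rw [hFF, compl_iUnion, preimage_iInter]
      exact iInter_congr fun γ' => by rw [preimage_compl, hFscut]
    set S : Set V := ⋃ e' ∈ B', Λ e' with hS
    have hSΛ : Disjoint (Λ e) S := by
      rw [hS, Set.disjoint_iUnion₂_right]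
      intro e' he'
      exact hΛ e e' fun h => by rw [← h] at he'; simp [hB'] at he'
    have hSB : ∀ e' ∈ (B' : Set E), ∀ x ∈ Λ e', x ∈ S := fun e' he' x hx =>
      mem_biUnion (show e' ∈ B' from he') hx
    have hR0 : snLaw G lam (Fᶜ ∩ {ω | Rch a b Λ K ω B' R T}) =
        snLaw G lam Fᶜ * snLaw G lam {ω | Rch a b Λ K ω B' R T} :=
      indep_cut G lam hdeg hSΛ hFm.compl (measurable_Rch a b Λ K B' R T) hFcut (Rch_cut hSB R T)
    have hR1 : ∀ γ', snLaw G lam (Fs γ' ∩ {ω | Rch a b Λ K ω B' (insert (z', γ') R) T}) =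
        snLaw G lam (Fs γ') * snLaw G lam {ω | Rch a b Λ K ω B' (insert (z', γ') R) T} := fun γ' =>
      indep_cut G lam hdeg hSΛ (hFsm γ') (measurable_Rch a b Λ K B' _ T) (hFscut γ')
        (Rch_cut hSB _ T)
    have hc0 : bits (fun _ : E => p) C0 ≤ snLaw G lam {ω | Rch a b Λ K ω B' R T} :=
      ih B' hcard R hR
    have hc1 : ∀ γ', snLaw G lam (Fs γ') * bits (fun _ : E => p) C1 ≤
        snLaw G lam (Fs γ') * snLaw G lam {ω | Rch a b Λ K ω B' (insert (z', γ') R) T} := by
      intro γ'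
      by_cases h3 : γ' ∈ K z'
      · refine mul_le_mul_right ?_ _
        have h4 := ih B' hcard (insert (z', γ') R) (by
          intro u hu
          rcases hu with rfl | hu
          · exact h3
          · exact hR u hu)
        rwa [image_insert_eq] at h4
      · have h4 : Fs γ' = ∅ := by
          rw [eq_empty_iff_forall_notMem]
          rintro ω ⟨h5, _⟩
          exact h3 h5.1
        rw [h4, measure_empty, zero_mul, zero_mul]
    have hsup : (Fᶜ ∩ {ω | Rch a b Λ K ω B' R T}) ∪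
        (⋃ γ', Fs γ' ∩ {ω | Rch a b Λ K ω B' (insert (z', γ') R) T}) ⊆
        {ω | Rch a b Λ K ω B R T} := by
      rintro ω (⟨_, u, hu, v, h3, hv⟩ | h)
      · exact ⟨u, hu, v, rtg_mono (fun x y h => expl_mono hBB' h) h3, hv⟩
      · rw [mem_iUnion] at h
        obtain ⟨γ', ⟨⟨h3, h4, h5⟩, _⟩, u, hu', v, h6, hv⟩ := h
        have h7 : ReflTransGen (expl a b Λ K ω B) u v :=
          rtg_mono (fun x y h => expl_mono hBB' h) h6
        rcases hu' with rfl | hu'
        · refine ⟨(z, γ), hu, v, ReflTransGen.head ?_ h7, hv⟩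
          exact ⟨e, he, hopp, h3, h4, h5⟩
        · exact ⟨u, hu', v, h7, hv⟩
    have hdisj2 : Disjoint (Fᶜ ∩ {ω | Rch a b Λ K ω B' R T})
        (⋃ γ', Fs γ' ∩ {ω | Rch a b Λ K ω B' (insert (z', γ') R) T}) := by
      rw [Set.disjoint_left]
      rintro ω ⟨h3, _⟩ h4
      rw [mem_iUnion] at h4
      obtain ⟨γ', h5, _⟩ := h4
      apply h3
      rw [hFF]
      exact mem_iUnion.2 ⟨γ', h5⟩
    have hlow : snLaw G lam Fᶜ * bits (fun _ : E => p) C0 +
        snLaw G lam F * bits (fun _ : E => p) C1 ≤ snLaw G lam {ω | Rch a b Λ K ω B R T} := by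
      refine le_trans ?_ (measure_mono hsup)
      rw [measure_union hdisj2 (MeasurableSet.iUnion fun γ' =>
        (hFsm γ').inter (measurable_Rch a b Λ K B' _ T)), hR0]
      refine add_le_add (mul_le_mul_right hc0 _) ?_
      rw [measure_iUnion (fun γ1 γ2 h => (hFdisj h).mono inter_subset_left inter_subset_left)
        (fun γ' => (hFsm γ').inter (measurable_Rch a b Λ K B' _ T))]
      rw [hFF, measure_iUnion hFdisj hFsm, ← ENNReal.tsum_mul_right]
      refine ENNReal.tsum_le_tsum fun γ' => ?_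
      rw [hR1 γ']
      exact hc1 γ'
    refine hper.trans (le_trans ?_ hlow)
    -- the final inequality
    have hpF : bern p {true} ≤ snLaw G lam F := by
      rw [bern_true]
      exact hp e z z' hopp γ (hR _ hu)
    obtain ⟨δ, hδ⟩ := exists_add_of_le hpF
    have h3 : bern p {true} + bern p {false} = 1 := by
      rw [bern_true, bern_false, ← ENNReal.ofReal_add p.2.1 (sub_nonneg.2 p.2.2)]
      simp
    have h4 : snLaw G lam F + snLaw G lam Fᶜ = 1 := prob_add_prob_compl hFm
    have h5 : bern p {false} = δ + snLaw G lam Fᶜ := by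
      have h6 : bern p {true} + bern p {false} = bern p {true} + (δ + snLaw G lam Fᶜ) := by
        rw [h3, ← add_assoc, ← hδ, h4]
      exact (ENNReal.add_right_inj (measure_ne_top _ _)).1 h6
    rw [h5, hδ]
    calc bern p {true} * bits (fun _ : E => p) C1 +
          (δ + snLaw G lam Fᶜ) * bits (fun _ : E => p) C0
        = snLaw G lam Fᶜ * bits (fun _ : E => p) C0 +
          (bern p {true} * bits (fun _ : E => p) C1 + δ * bits (fun _ : E => p) C0) := by ring
      _ ≤ snLaw G lam Fᶜ * bits (fun _ : E => p) C0 +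
          (bern p {true} * bits (fun _ : E => p) C1 + δ * bits (fun _ : E => p) C1) := by
        gcongr
      _ = _ := by ring

end

end MP7315a9
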