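import Pool.Agent.Lib.MP_7315a9_pr.Travel

/-!
# Harmonic maps to the plane: upper bounds for the return probabilities
-/

open Set Filter

namespace MP7315a9

noncomputable section

variable {V : Type*} {G : SimpleGraph V} [G.LocallyFinite] {F1 F2 : V → ℝ} {b ε : ℝ} {T0 : ℕ}

/-- The indicator function of a point. -/
def dl (y : V) : V → ℝ := fun z => open Classical in if z = y then 1 else 0

lemma dl_nonneg (y z : V) : 0 ≤ dl y z := by
  unfold dl; split_ifs <;> norm_num

lemma Pe_iter_ofReal (hdeg : ∀ v, 0 < G.degree v) {f : V → ℝ} (hf : ∀ x, 0 ≤ f x) (n : ℕ) :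
    (Pe G)^[n] (fun x => ENNReal.ofReal (f x)) = fun x => ENNReal.ofReal ((Pr G)^[n] f x) := by
  induction n with
  | zero => rfl
  | succ n ih =>
    rw [Function.iterate_succ_apply', ih, Function.iterate_succ_apply']
    funext x
    exact Pe_ofReal (Pr_iter_nonneg hdeg hf n) x

lemma dual_iter (hdeg : ∀ v, 0 < G.degree v) (n : ℕ) (f g : V → ENNReal) :
    ∑' x, (G.degree x : ENNReal) * f x * (Pe G)^[n] g x =
      ∑' x, (G.degree x : ENNReal) * (Pe G)^[n] f x * g x := by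
  induction n generalizing f g with
  | zero => rfl
  | succ n ih =>
    simp only [Function.iterate_succ_apply']
    rw [dual hdeg, ih, ← Function.iterate_succ_apply, Function.iterate_succ_apply']

lemma tanaka_sum (f D : V → ℝ) (T : ℕ) (hD : ∀ x, D x ≤ (Pr G)^[T] f x - f x) (k : ℕ) (x : V) :
    ∑ j ∈ Finset.range k, (Pr G)^[j * T] D x ≤ (Pr G)^[k * T] f x - f x := by
  induction k with
  | zero => simp
  | succ k ih =>
    rw [Finset.sum_range_succ]
    have h1 := Pr_iter_mono (G := G) hD (k * T) x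
    rw [Pr_iter_sub, ← Function.iterate_add_apply] at h1
    have e : (k + 1) * T = k * T + T := by ring
    rw [e]
    linarith

/-- The local time at a point, in the steps which are multiples of `2 * T0`. -/
lemma local_time (hF : PlaneMap G F1 F2 b ε T0) (k : ℕ) (hk : 0 < k) (x y : V) :
    ∑ j ∈ Finset.range k, (Pr G)^[j * (2 * T0)] (dl y) x ≤
      b ^ 2 * T0 / ε * √(k * (2 * T0)) := by
  have hb := hF.b0
  have hε := hF.e0
  have ht0 : (0 : ℝ) < T0 := by exact_mod_cast hF.t0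
  have hkR : (0 : ℝ) < k := by exact_mod_cast hk
  let f : V → ℝ := fun z => |F1 z - F1 y|
  -- submartingale
  have hsub : ∀ n z, f z ≤ (Pr G)^[n] f z := by
    intro n z
    have h1 : (Pr G)^[n] (fun z => F1 z - F1 y) z = F1 z - F1 y := by
      rw [Pr_iter_sub, Pr_iter_const hF.deg, (Pr_iter_F hF n).1]
    have h2 : (Pr G)^[n] (fun z => F1 z - F1 y) z ≤ (Pr G)^[n] f z :=
      Pr_iter_mono (fun z => le_abs_self _) n z
    have h3 : (Pr G)^[n] (fun z => (-1) * (F1 z - F1 y)) z ≤ (Pr G)^[n] f z :=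
      Pr_iter_mono (fun z => by
        have := neg_abs_le (F1 z - F1 y)
        show (-1) * (F1 z - F1 y) ≤ |F1 z - F1 y|
        linarith) n z
    rw [Pr_iter_mul, h1] at h3
    rw [h1] at h2
    exact abs_le'.2 ⟨h2, by linarith⟩
  have hgain : ε / (T0 * b) ≤ (Pr G)^[T0] f y := by
    have h1 := hF.ell y 1 0
    have h2 : (Pr G)^[T0] (fun z => (1 * (F1 z - F1 y) + 0 * (F2 z - F2 y)) ^ 2) y ≤
        (Pr G)^[T0] (fun z => (T0 * b) * f z) y := by
      refine Pr_iter_mono_on hF T0 y fun z hz1 _ => ?_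
      simp only [one_mul, zero_mul, add_zero, f]
      rw [← sq_abs (F1 z - F1 y), sq]
      exact mul_le_mul_of_nonneg_right hz1 (abs_nonneg _)
    rw [Pr_iter_mul] at h2
    rw [div_le_iff₀ (by positivity)]
    nlinarith
  have hD : ∀ z, ε / (T0 * b) * dl y z ≤ (Pr G)^[2 * T0] f z - f z := by
    intro z
    have e : 2 * T0 = T0 + T0 := by ring
    by_cases hz : z = y
    · subst hz
      have h1 : dl z z = 1 := by simp [dl]
      have h2 : f z = 0 := by simp [f]
      rw [h1, h2, mul_one, sub_zero, e, Function.iterate_add_apply]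
      exact hgain.trans (Pr_iter_mono (hsub T0) T0 z)
    · have h1 : dl y z = 0 := by simp [dl, hz]
      rw [h1, mul_zero]
      linarith [hsub (2 * T0) z]
  have h1 := tanaka_sum (G := G) f (fun z => ε / (T0 * b) * dl y z) (2 * T0) hD k x
  simp only [Pr_iter_mul] at h1
  rw [← Finset.mul_sum] at h1
  -- the upper bound
  set n : ℕ := k * (2 * T0) with hn
  have hn0 : (0 : ℝ) < n := by rw [hn]; push_cast; positivity
  have hnR : (n : ℝ) = k * (2 * T0) := by rw [hn]; push_cast; ring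
  set s : ℝ := b * √n with hs
  have hs0 : 0 < s := by positivity
  have h2 : (Pr G)^[n] f x - f x ≤ s := by
    have h3 : (Pr G)^[n] f x ≤
        (Pr G)^[n] (fun z => (f x + s / 2) + 1 / (2 * s) * N2 F1 F2 z (F1 x, F2 x)) x := by
      refine Pr_iter_mono (fun z => ?_) n x
      have h4 : f z ≤ |F1 z - F1 x| + f x := abs_sub_le _ _ _
      have h5 : |F1 z - F1 x| ≤ s / 2 + 1 / (2 * s) * N2 F1 F2 z (F1 x, F2 x) := by
        have h6 : (|F1 z - F1 x|) ^ 2 ≤ N2 F1 F2 z (F1 x, F2 x) := by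
          rw [sq_abs]; simp only [N2]; nlinarith [sq_nonneg (F2 z - F2 x)]
        have h7 : |F1 z - F1 x| ≤ s / 2 + 1 / (2 * s) * (|F1 z - F1 x|) ^ 2 := by
          have e : s / 2 + 1 / (2 * s) * (|F1 z - F1 x|) ^ 2 - |F1 z - F1 x| =
              (s - |F1 z - F1 x|) ^ 2 / (2 * s) := by field_simp; ring
          have : 0 ≤ (s - |F1 z - F1 x|) ^ 2 / (2 * s) := by positivity
          linarith
        have h8 : 1 / (2 * s) * (|F1 z - F1 x|) ^ 2 ≤ 1 / (2 * s) * N2 F1 F2 z (F1 x, F2 x) :=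
          mul_le_mul_of_nonneg_left h6 (by positivity)
        linarith
      linarith
    rw [Pr_iter_add, Pr_iter_const hF.deg, Pr_iter_mul] at h3
    have h4 := Pr_iter_N2 hF (F1 x, F2 x) n x
    have h5 : N2 F1 F2 x (F1 x, F2 x) = 0 := by simp [N2]
    rw [h5, zero_add] at h4
    have h6 : 1 / (2 * s) * (Pr G)^[n] (fun z => N2 F1 F2 z (F1 x, F2 x)) x ≤
        1 / (2 * s) * (n * b ^ 2) := mul_le_mul_of_nonneg_left h4 (by positivity)
    have h7 : 1 / (2 * s) * (n * b ^ 2) = s / 2 := by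
      have h8 : s ^ 2 = n * b ^ 2 := by
        rw [hs, mul_pow, Real.sq_sqrt hn0.le]; ring
      rw [← h8]; field_simp
    linarith
  have h3 := h1.trans h2
  have h4 : b ^ 2 * T0 / ε * √(k * (2 * T0)) = s / (ε / (T0 * b)) := by
    rw [hs, hnR]; field_simp
  rw [h4, le_div_iff₀ (by positivity), mul_comm]
  exact h3

lemma Pr_sq_le (hdeg : ∀ v, 0 < G.degree v) (f : V → ℝ) (x : V) :
    (Pr G f x) ^ 2 ≤ Pr G (fun y => f y ^ 2) x := by
  set c := Pr G f x with hc
  have h1 : 0 ≤ Pr G (fun y => (f y - c) ^ 2) x := by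
    have := Pr_mono (G := G) (f := fun _ => 0) (g := fun y => (f y - c) ^ 2)
      (fun y => sq_nonneg _) x
    rwa [Pr_const hdeg] at this
  have e : (fun y => (f y - c) ^ 2) = fun y => 1 * (f y ^ 2 + (-2 * c) * f y) + c ^ 2 * 1 := by
    funext y; ring
  have e2 : Pr G (fun y => f y ^ 2 + (-2 * c) * f y) x =
      Pr G (fun y => f y ^ 2) x + (-2 * c) * c := by
    have := Pr_lin (G := G) 1 (-2 * c) (fun y => f y ^ 2) f x
    rw [← hc] at this
    simpa using this
  rw [e, Pr_lin, e2, Pr_const hdeg] at h1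
  nlinarith

/-- The squared norm of the heat kernel. -/
def qn (G : SimpleGraph V) [G.LocallyFinite] (n : ℕ) (x : V) : ENNReal :=
  ∑' z, (G.degree z : ENNReal) * ENNReal.ofReal (((Pr G)^[n] (dl x) z) ^ 2)

lemma qn_anti (hdeg : ∀ v, 0 < G.degree v) (n : ℕ) (x : V) : qn G (n + 1) x ≤ qn G n x := by
  have h1 : ∀ z, 0 ≤ (Pr G)^[n] (dl x) z := fun z => Pr_iter_nonneg hdeg (dl_nonneg x) n z
  calc qn G (n + 1) x
      ≤ ∑' z, (G.degree z : ENNReal) * 1 *
          Pe G (fun z => ENNReal.ofReal (((Pr G)^[n] (dl x) z) ^ 2)) z := by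
        refine ENNReal.tsum_le_tsum fun z => ?_
        rw [mul_one]
        refine mul_le_mul_right ?_ _
        rw [Pe_ofReal (fun z => sq_nonneg _), Function.iterate_succ_apply']
        exact ENNReal.ofReal_le_ofReal (Pr_sq_le hdeg _ z)
    _ = ∑' z, (G.degree z : ENNReal) * Pe G (fun _ => 1) z *
          ENNReal.ofReal (((Pr G)^[n] (dl x) z) ^ 2) :=
        dual hdeg (fun _ => 1) _
    _ = qn G n x := by
        refine tsum_congr fun z => ?_
        rw [Pe_const hdeg, mul_one]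

lemma ofReal_dl (y : V) : (fun z => ENNReal.ofReal (dl y z)) =
    fun z => open Classical in if z = y then (1 : ENNReal) else 0 := by
  funext z
  unfold dl
  split_ifs <;> simp

lemma pair_eq (hdeg : ∀ v, 0 < G.degree v) (n : ℕ) (x y : V) :
    ∑' z, (G.degree z : ENNReal) * ENNReal.ofReal ((Pr G)^[n] (dl x) z) *
      ENNReal.ofReal ((Pr G)^[n] (dl y) z) =
      (G.degree x : ENNReal) * ENNReal.ofReal ((Pr G)^[n + n] (dl y) x) := by
  classical
  have h1 := Pe_iter_ofReal hdeg (dl_nonneg x) n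
  have h2 := Pe_iter_ofReal hdeg (dl_nonneg y) n
  have h3 := Pe_iter_ofReal hdeg (dl_nonneg y) (n + n)
  have h4 := dual_iter hdeg n (fun z => ENNReal.ofReal (dl x z))
    ((Pe G)^[n] fun z => ENNReal.ofReal (dl y z))
  rw [← Function.iterate_add_apply, h3, h2, h1] at h4
  rw [← h4, tsum_eq_single x]
  · simp [dl]
  · intro z hz
    simp [dl, hz]

lemma qn_eq (hdeg : ∀ v, 0 < G.degree v) (n : ℕ) (x : V) :
    qn G n x = (G.degree x : ENNReal) * ENNReal.ofReal ((Pr G)^[n + n] (dl x) x) := by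
  rw [← pair_eq hdeg n x x, qn]
  refine tsum_congr fun z => ?_
  rw [sq, ENNReal.ofReal_mul (Pr_iter_nonneg hdeg (dl_nonneg x) n z), mul_assoc]

/-- The return probabilities after an even number of steps are not increasing. -/
lemma diag_anti (hdeg : ∀ v, 0 < G.degree v) {n m : ℕ} (h : n ≤ m) (x : V) :
    (Pr G)^[m + m] (dl x) x ≤ (Pr G)^[n + n] (dl x) x := by
  have h1 : qn G m x ≤ qn G n x :=
    antitone_nat_of_succ_le (f := fun n => qn G n x) (fun n => qn_anti hdeg n x) h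
  rw [qn_eq hdeg, qn_eq hdeg] at h1
  have h2 : (G.degree x : ENNReal) ≠ 0 := by
    simpa using (hdeg x).ne'
  rw [ENNReal.mul_le_mul_iff_right h2 (by simp)] at h1
  rwa [ENNReal.ofReal_le_ofReal_iff (Pr_iter_nonneg hdeg (dl_nonneg x) _ x)] at h1

lemma off_diag (hdeg : ∀ v, 0 < G.degree v) (n : ℕ) (x y : V) :
    2 * (G.degree x * (Pr G)^[n + n] (dl y) x) ≤
      G.degree x * (Pr G)^[n + n] (dl x) x + G.degree y * (Pr G)^[n + n] (dl y) y := by
  have hx := fun z => Pr_iter_nonneg hdeg (dl_nonneg x) n z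
  have hy := fun z => Pr_iter_nonneg hdeg (dl_nonneg y) n z
  have h0 : ∀ x y : V, 0 ≤ (Pr G)^[n + n] (dl x) y :=
    fun x y => Pr_iter_nonneg hdeg (dl_nonneg x) (n + n) y
  have h1 : 2 * ((G.degree x : ENNReal) * ENNReal.ofReal ((Pr G)^[n + n] (dl y) x)) ≤
      (G.degree x : ENNReal) * ENNReal.ofReal ((Pr G)^[n + n] (dl x) x) +
        (G.degree y : ENNReal) * ENNReal.ofReal ((Pr G)^[n + n] (dl y) y) := by
    rw [← pair_eq hdeg n x y, ← qn_eq hdeg, ← qn_eq hdeg, qn, qn, ← ENNReal.tsum_add,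
      ← ENNReal.tsum_mul_left]
    refine ENNReal.tsum_le_tsum fun z => ?_
    rw [← mul_add, ← ENNReal.ofReal_add (sq_nonneg _) (sq_nonneg _)]
    calc 2 * ((G.degree z : ENNReal) * ENNReal.ofReal ((Pr G)^[n] (dl x) z) *
          ENNReal.ofReal ((Pr G)^[n] (dl y) z))
        = (G.degree z : ENNReal) * (2 * (ENNReal.ofReal ((Pr G)^[n] (dl x) z) *
          ENNReal.ofReal ((Pr G)^[n] (dl y) z))) := by ring
      _ ≤ _ := by
        refine mul_le_mul_right ?_ _
        have e : (2 : ENNReal) = ENNReal.ofReal 2 := by simp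
        rw [← ENNReal.ofReal_mul (hx z), e, ← ENNReal.ofReal_mul (by norm_num)]
        apply ENNReal.ofReal_le_ofReal
        nlinarith [sq_nonneg ((Pr G)^[n] (dl x) z - (Pr G)^[n] (dl y) z)]
  have e1 : ∀ x y : V, (G.degree x : ENNReal) * ENNReal.ofReal ((Pr G)^[n + n] (dl y) x) =
      ENNReal.ofReal (G.degree x * (Pr G)^[n + n] (dl y) x) := by
    intro x y
    rw [ENNReal.ofReal_mul (Nat.cast_nonneg _), ENNReal.ofReal_natCast]
  have e2 : (2 : ENNReal) = ENNReal.ofReal 2 := by simp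
  have h2 : ∀ x y : V, 0 ≤ G.degree x * (Pr G)^[n + n] (dl y) x := fun x y =>
    mul_nonneg (Nat.cast_nonneg _) (h0 y x)
  rw [e1, e1, e1, e2, ← ENNReal.ofReal_mul (by norm_num), ← ENNReal.ofReal_add (h2 _ _) (h2 _ _),
    ENNReal.ofReal_le_ofReal_iff (add_nonneg (h2 _ _) (h2 _ _))] at h1
  exact h1

/-- Uniform upper bound for the transition probabilities. -/
lemma heat (hF : PlaneMap G F1 F2 b ε T0) {Δ : ℕ} (hΔ : ∀ v, G.degree v ≤ Δ) : ∃ C > 0,
    ∀ k : ℕ, 0 < k → ∀ n, k * (2 * T0) ≤ n → ∀ x y,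
      (Pe G)^[n] (fun z => open Classical in if z = y then 1 else 0) x ≤
        ENNReal.ofReal (C / √k) := by
  have hb := hF.b0
  have hε := hF.e0
  have ht0 : (0 : ℝ) < T0 := by exact_mod_cast hF.t0
  refine ⟨(Δ + 1) * (b ^ 2 * T0 / ε * √(2 * T0)), by positivity, ?_⟩
  intro k hk n hn x y
  have hkR : (0 : ℝ) < k := by exact_mod_cast hk
  rw [← ofReal_dl, Pe_iter_ofReal hF.deg (dl_nonneg y)]
  apply ENNReal.ofReal_le_ofReal
  set B : ℝ := b ^ 2 * T0 / ε * √(2 * T0) / √k with hB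
  have hB0 : 0 ≤ B := by positivity
  have hsk : 0 < √(k : ℝ) := Real.sqrt_pos.2 hkR
  have hdiag : ∀ z, (Pr G)^[k * (2 * T0)] (dl z) z ≤ B := by
    intro z
    have h1 := local_time hF k hk z z
    have h2 : (k : ℝ) * (Pr G)^[k * (2 * T0)] (dl z) z ≤
        ∑ j ∈ Finset.range k, (Pr G)^[j * (2 * T0)] (dl z) z := by
      have h3 : ∀ j ∈ Finset.range k, (Pr G)^[k * (2 * T0)] (dl z) z ≤
          (Pr G)^[j * (2 * T0)] (dl z) z := by
        intro j hj
        have hj' : j * T0 ≤ k * T0 := Nat.mul_le_mul_right _ (Finset.mem_range.1 hj).le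
        have h4 := diag_anti hF.deg hj' z
        have e1 : ∀ i : ℕ, i * T0 + i * T0 = i * (2 * T0) := fun i => by ring
        rwa [e1, e1] at h4
      have := Finset.card_nsmul_le_sum _ _ _ h3
      rwa [Finset.card_range, nsmul_eq_mul] at this
    have h3 := h2.trans h1
    rw [Real.sqrt_mul hkR.le] at h3
    have h4 : b ^ 2 * T0 / ε * (√k * √(2 * T0)) = k * B := by
      have h5 : √(k : ℝ) * √(k : ℝ) = k := Real.mul_self_sqrt hkR.le
      rw [hB]
      field_simp
      nlinarith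
    rw [h4] at h3
    exact le_of_mul_le_mul_left h3 hkR
  have hoff : ∀ z, (Pr G)^[k * (2 * T0)] (dl y) z ≤ Δ * B := by
    intro z
    have h1 := off_diag hF.deg (k * T0) z y
    have e1 : k * T0 + k * T0 = k * (2 * T0) := by ring
    rw [e1] at h1
    have h2 : (1 : ℝ) ≤ G.degree z := by exact_mod_cast hF.deg z
    have h3 : (G.degree z : ℝ) ≤ Δ := by exact_mod_cast hΔ z
    have h4 : (G.degree y : ℝ) ≤ Δ := by exact_mod_cast hΔ y
    have h5 : G.degree z * (Pr G)^[k * (2 * T0)] (dl z) z ≤ Δ * B := by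
      have := hdiag z
      have h0 := Pr_iter_nonneg hF.deg (dl_nonneg z) (k * (2 * T0)) z
      exact mul_le_mul h3 this h0 (Nat.cast_nonneg _)
    have h6 : G.degree y * (Pr G)^[k * (2 * T0)] (dl y) y ≤ Δ * B := by
      have := hdiag y
      have h0 := Pr_iter_nonneg hF.deg (dl_nonneg y) (k * (2 * T0)) y
      exact mul_le_mul h4 this h0 (Nat.cast_nonneg _)
    have h0 := Pr_iter_nonneg hF.deg (dl_nonneg y) (k * (2 * T0)) z
    nlinarith
  obtain ⟨r, rfl⟩ : ∃ r, n = r + k * (2 * T0) := ⟨n - k * (2 * T0), by omega⟩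
  rw [Function.iterate_add_apply]
  have h1 := Pr_iter_mono (G := G) (g := fun _ => Δ * B) hoff r x
  rw [Pr_iter_const hF.deg] at h1
  refine h1.trans ?_
  have : (Δ + 1) * (b ^ 2 * T0 / ε * √(2 * T0)) / √k = (Δ + 1) * B := by
    rw [hB]; ring
  rw [this]
  nlinarith

end

end MP7315a9
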