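import Pool.Agent.Lib.MP_7315a9_pr.Explore

/-!
# Bond percolation on the square lattice at high density, by hierarchical renormalisation
-/

open MeasureTheory ProbabilityTheory Set Filter Relation

namespace MP7315a9

noncomputable section

/-- The edges of the square lattice: `(z, false)` goes right and `(z, true)` goes up. -/
abbrev E2 := (ℤ × ℤ) × Bool

/-- First endpoint. -/
def ea (e : E2) : ℤ × ℤ := e.1

/-- Second endpoint. -/
def eb (e : E2) : ℤ × ℤ := if e.2 then (e.1.1, e.1.2 + 1) else (e.1.1 + 1, e.1.2)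

/-- Connection by open edges. -/
def Con (η : E2 → Bool) (x y : ℤ × ℤ) : Prop := ReflTransGen (opn ea eb η univ) x y

lemma opn_symm {Z E : Type*} {a b : E → Z} {η : E → Bool} {B : Set E} {x y : Z}
    (h : opn a b η B x y) : opn a b η B y x := by
  obtain ⟨e, he, h1, h2⟩ := h
  refine ⟨e, he, h1, ?_⟩
  rcases h2 with ⟨h2, h3⟩ | ⟨h2, h3⟩
  · exact Or.inr ⟨h3, h2⟩
  · exact Or.inl ⟨h3, h2⟩

lemma Con.symm {η : E2 → Bool} {x y : ℤ × ℤ} (h : Con η x y) : Con η y x := by
  unfold Con at h ⊢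
  induction h with
  | refl => exact ReflTransGen.refl
  | tail _ h2 ih => exact ReflTransGen.head (opn_symm h2) ih

lemma Con.trans {η : E2 → Bool} {x y z : ℤ × ℤ} (h : Con η x y) (h' : Con η y z) : Con η x z :=
  ReflTransGen.trans h h'

/-- The nine subboxes. -/
abbrev Nine := Fin 3 × Fin 3

/-- The index of a subbox. -/
def sub (z : ℤ × ℤ) (u : Nine) : ℤ × ℤ := (3 * z.1 + (u.1 : ℕ), 3 * z.2 + (u.2 : ℕ))

/-- A box of level `n + 1` is good if at most one of its nine subboxes is not good. -/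
def good (η : E2 → Bool) : ℕ → ℤ × ℤ → Prop
  | 0, z => η (z, false) = true ∧ η (z, true) = true
  | n + 1, z => ∃ u0 : Nine, ∀ u, u ≠ u0 → good η n (sub z u)

/-- The main cluster of a good box. -/
def main (η : E2 → Bool) : ℕ → ℤ × ℤ → Set (ℤ × ℤ)
  | 0, z => {z}
  | n + 1, z => {x | ∃ u : Nine, good η n (sub z u) ∧ x ∈ main η n (sub z u)}

/-- Neighbours in the three by three grid. -/
def nbr (u v : Nine) : Prop :=
  (u.1 = v.1 ∧ ((u.2 : ℕ) + 1 = v.2 ∨ (v.2 : ℕ) + 1 = u.2)) ∨
    (u.2 = v.2 ∧ ((u.1 : ℕ) + 1 = v.1 ∨ (v.1 : ℕ) + 1 = u.1))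

instance (u v : Nine) : Decidable (nbr u v) := by unfold nbr; infer_instance

/-- One step of a search in the grid without `u0`. -/
def grow (u0 : Nine) (S : Finset Nine) : Finset Nine :=
  S ∪ Finset.univ.filter fun v => v ≠ u0 ∧ ∃ u ∈ S, nbr u v

set_option maxRecDepth 100000 in
lemma grow_all : ∀ u0 u : Nine, u ≠ u0 →
    ∀ v, v ≠ u0 → v ∈ grow u0 (grow u0 (grow u0 (grow u0 (grow u0 (grow u0 {u}))))) := by
  decide

lemma nbr_exists : ∀ u0 : Nine, ∃ v, v ≠ u0 ∧ nbr u0 v := by decide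

lemma grid_conn {r : Nine → Nine → Prop} {W : Nine → Prop} (hrefl : ∀ u, W u → r u u)
    (htrans : ∀ u v w, W v → r u v → r v w → r u w)
    (hadj : ∀ u v, W u → W v → nbr u v → r u v) (hsymm : ∀ u v, r u v → r v u)
    {u0 : Nine} (hW : ∀ u, u ≠ u0 → W u) (u v : Nine) (hu : W u) (hv : W v) : r u v := by
  have step : ∀ u, W u → ∀ S : Finset Nine, (∀ w ∈ S, W w ∧ r u w) →
      ∀ w ∈ grow u0 S, W w ∧ r u w := by
    intro u _ S hS w hw
    simp only [grow, Finset.mem_union, Finset.mem_filter, Finset.mem_univ, true_and] at hw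
    rcases hw with hw | ⟨hw, x, hx, hxw⟩
    · exact hS w hw
    · have h1 := hS x hx
      exact ⟨hW w hw, htrans _ _ _ h1.1 h1.2 (hadj x w h1.1 (hW w hw) hxw)⟩
  have main : ∀ u v, u ≠ u0 → v ≠ u0 → r u v := by
    intro u v hu hv
    have hWu := hW u hu
    refine (step u hWu _ (step u hWu _ (step u hWu _ (step u hWu _ (step u hWu _ (step u hWu {u}
      ?_))))) v (grow_all u0 u hu v hv)).2
    intro w hw
    rw [Finset.mem_singleton] at hw
    subst hw
    exact ⟨hWu, hrefl _ hWu⟩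
  obtain ⟨x, hx, hx'⟩ := nbr_exists u0
  by_cases h1 : u = u0 <;> by_cases h2 : v = u0
  · subst h1; subst h2; exact hrefl _ hu
  · subst h1
    exact htrans _ _ _ (hW x hx) (hadj _ _ hu (hW x hx) hx') (main x v hx h2)
  · subst h2
    exact htrans _ _ _ (hW x hx) (main u x h1 hx) (hsymm _ _ (hadj _ _ hv (hW x hx) hx'))
  · exact main u v h1 h2

lemma main_nonempty {η : E2 → Bool} (n : ℕ) (z : ℤ × ℤ) (h : good η n z) :
    (main η n z).Nonempty := by
  induction n generalizing z with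
  | zero => exact ⟨z, rfl⟩
  | succ n ih =>
    obtain ⟨u0, h⟩ := h
    obtain ⟨x, hx, _⟩ := nbr_exists u0
    obtain ⟨y, hy⟩ := ih _ (h x hx)
    exact ⟨y, x, h x hx, hy⟩

lemma sub_right (z : ℤ × ℤ) (j : Fin 3) :
    sub (eb (z, false)) (0, j) = eb (sub z (2, j), false) := by
  simp [sub, eb]; ring

lemma sub_up (z : ℤ × ℤ) (j : Fin 3) :
    sub (eb (z, true)) (j, 0) = eb (sub z (j, 2), true) := by
  simp [sub, eb]; ring

lemma nbr_sub {z : ℤ × ℤ} {u v : Nine} (h : nbr u v) :
    (∃ b, eb (sub z u, b) = sub z v) ∨ (∃ b, eb (sub z v, b) = sub z u) := by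
  rcases h with ⟨h1, h2 | h2⟩ | ⟨h1, h2 | h2⟩
  · left; refine ⟨true, ?_⟩
    simp only [eb, sub, if_true, h1, ← h2]; push_cast; rw [add_assoc]
  · right; refine ⟨true, ?_⟩
    simp only [eb, sub, if_true, h1, ← h2]; push_cast; rw [add_assoc]
  · left; refine ⟨false, ?_⟩
    simp only [eb, sub, Bool.false_eq_true, if_false, h1, ← h2]; push_cast; rw [add_assoc]
  · right; refine ⟨false, ?_⟩
    simp only [eb, sub, Bool.false_eq_true, if_false, h1, ← h2]; push_cast; rw [add_assoc]

lemma avoid : ∀ a b : Fin 3, ∃ j : Fin 3, j ≠ a ∧ j ≠ b := by decide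

/-- The main clusters are connected, and the main clusters of neighbouring good boxes are
connected to each other. -/
lemma main_conn {η : E2 → Bool} (n : ℕ) :
    (∀ z, good η n z → ∀ x ∈ main η n z, ∀ y ∈ main η n z, Con η x y) ∧
    (∀ z b, good η n z → good η n (eb (z, b)) → ∀ x ∈ main η n z,
      ∀ y ∈ main η n (eb (z, b)), Con η x y) := by
  induction n with
  | zero =>
    constructor
    · rintro z _ x rfl y rfl
      exact ReflTransGen.refl
    · rintro z b h1 _ x rfl y rfl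
      refine ReflTransGen.single ⟨(x, b), mem_univ _, ?_, Or.inl ⟨rfl, rfl⟩⟩
      rcases b with _ | _
      · exact h1.1
      · exact h1.2
  | succ n ih =>
    obtain ⟨ih1, ih2⟩ := ih
    have hC1 : ∀ z, good η (n + 1) z → ∀ u v : Nine, good η n (sub z u) → good η n (sub z v) →
        ∀ x ∈ main η n (sub z u), ∀ y ∈ main η n (sub z v), Con η x y := by
      intro z ⟨u0, h0⟩
      refine grid_conn (r := fun u v => ∀ x ∈ main η n (sub z u), ∀ y ∈ main η n (sub z v),
        Con η x y) (W := fun u => good η n (sub z u)) ?_ ?_ ?_ ?_ h0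
      · exact fun u hu => ih1 _ hu
      · intro u v w hv h1 h2 x hx y hy
        obtain ⟨c, hc⟩ := main_nonempty n _ hv
        exact (h1 x hx c hc).trans (h2 c hc y hy)
      · intro u v hu hv huv x hx y hy
        rcases nbr_sub (z := z) huv with ⟨b, hb⟩ | ⟨b, hb⟩
        · rw [← hb] at hv hy
          exact ih2 _ b hu hv x hx y hy
        · rw [← hb] at hu hx
          exact (ih2 _ b hv hu y hy x hx).symm
      · intro u v h x hx y hy
        exact (h y hy x hx).symm
    constructor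
    · rintro z hz x ⟨u, hu, hx⟩ y ⟨v, hv, hy⟩
      exact hC1 z hz u v hu hv x hx y hy
    · rintro z b hz hz' x ⟨u, hu, hx⟩ y ⟨v, hv, hy⟩
      obtain ⟨u0, h0⟩ := hz
      obtain ⟨v0, h0'⟩ := hz'
      rcases b with _ | _
      · obtain ⟨j, hj, hj'⟩ := avoid u0.2 v0.2
        have g1 := h0 (2, j) (fun h => hj (by rw [← h]))
        have g2 := h0' (0, j) (fun h => hj' (by rw [← h]))
        obtain ⟨c, hc⟩ := main_nonempty n _ g1
        obtain ⟨d, hd⟩ := main_nonempty n _ g2
        refine (hC1 z ⟨u0, h0⟩ u (2, j) hu g1 x hx c hc).trans (Con.trans ?_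
          (hC1 _ ⟨v0, h0'⟩ (0, j) v g2 hv d hd y hy))
        rw [sub_right] at g2 hd
        exact ih2 _ false g1 g2 c hc d hd
      · obtain ⟨j, hj, hj'⟩ := avoid u0.1 v0.1
        have g1 := h0 (j, 2) (fun h => hj (by rw [← h]))
        have g2 := h0' (j, 0) (fun h => hj' (by rw [← h]))
        obtain ⟨c, hc⟩ := main_nonempty n _ g1
        obtain ⟨d, hd⟩ := main_nonempty n _ g2
        refine (hC1 z ⟨u0, h0⟩ u (j, 2) hu g1 x hx c hc).trans (Con.trans ?_
          (hC1 _ ⟨v0, h0'⟩ (j, 0) v g2 hv d hd y hy))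
        rw [sub_up] at g2 hd
        exact ih2 _ true g1 g2 c hc d hd

/-- The box of level `n` with index `z`. -/
def box (n : ℕ) (z : ℤ × ℤ) : Set (ℤ × ℤ) := {y | y.1 / 3 ^ n = z.1 ∧ y.2 / 3 ^ n = z.2}

lemma box_sub {n : ℕ} {z : ℤ × ℤ} {u : Nine} {y : ℤ × ℤ} (h : y ∈ box n (sub z u)) :
    y ∈ box (n + 1) z := by
  obtain ⟨h1, h2⟩ := h
  simp only [sub] at h1 h2
  have hu1 : (u.1 : ℕ) < 3 := u.1.2
  have hu2 : (u.2 : ℕ) < 3 := u.2.2
  constructor
  · rw [pow_succ, ← Int.ediv_ediv_of_nonneg (by positivity), h1]; omega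
  · rw [pow_succ, ← Int.ediv_ediv_of_nonneg (by positivity), h2]; omega

lemma main_box {η : E2 → Bool} (n : ℕ) (z : ℤ × ℤ) : main η n z ⊆ box n z := by
  induction n generalizing z with
  | zero =>
    rintro x rfl
    simp [box]
  | succ n ih =>
    rintro x ⟨u, _, hx⟩
    exact box_sub (ih _ hx)

lemma good_dep (n : ℕ) (z : ℤ × ℤ) {η η' : E2 → Bool}
    (h : ∀ k ∈ {k : E2 | k.1 ∈ box n z}, η k = η' k) (hg : good η n z) : good η' n z := by
  induction n generalizing z with
  | zero =>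
    have h0 : z ∈ box 0 z := by simp [box]
    exact ⟨by rw [← h (z, false) h0]; exact hg.1, by rw [← h (z, true) h0]; exact hg.2⟩
  | succ n ih =>
    obtain ⟨u0, hg⟩ := hg
    exact ⟨u0, fun u hu => ih _ (fun k hk => h k (box_sub hk)) (hg u hu)⟩

lemma measurable_good (n : ℕ) (z : ℤ × ℤ) : MeasurableSet {η | good η n z} := by
  induction n generalizing z with
  | zero =>
    have : {η : E2 → Bool | good η 0 z} = (fun η => η (z, false)) ⁻¹' {true} ∩
        (fun η => η (z, true)) ⁻¹' {true} := rfl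
    rw [this]
    exact ((measurable_pi_apply _) (by trivial)).inter ((measurable_pi_apply _) (by trivial))
  | succ n ih =>
    have : {η : E2 → Bool | good η (n + 1) z} = ⋃ u0 : Nine, ⋂ u : Nine,
        ({_η : E2 → Bool | u = u0} ∪ {η | good η n (sub z u)}) := by
      ext η
      simp only [good, mem_ofPred_eq, mem_iUnion, mem_iInter, mem_union]
      exact exists_congr fun u0 => forall_congr' fun u => by
        rw [← or_iff_not_imp_left]
    rw [this]
    exact MeasurableSet.iUnion fun u0 => MeasurableSet.iInter fun u =>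
      (MeasurableSet.const _).union (ih _)

lemma measurable_bad (n : ℕ) (z : ℤ × ℤ) : MeasurableSet {η | ¬ good η n z} :=
  (measurable_good n z).compl

lemma ex_nine : ∀ u0 : Nine, ∃ u : Nine, u ≠ u0 ∧ u ≠ (0, 0) := by decide

lemma sub_inj {z : ℤ × ℤ} {u v : Nine} (h : sub z u = sub z v) : u = v := by
  simp only [sub, Prod.mk.injEq, add_right_inj, Nat.cast_inj] at h
  exact Prod.ext (Fin.ext h.1) (Fin.ext h.2)

lemma bad_prob {p : unitInterval} (hp : 2 * (1 - (p : ℝ)) ≤ 1 / 144) (n : ℕ) (z : ℤ × ℤ) :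
    bits (fun _ : E2 => p) {η | ¬ good η n z} ≤ ENNReal.ofReal (1 / 144 / 2 ^ n) := by
  induction n generalizing z with
  | zero =>
    have h1 : {η : E2 → Bool | ¬ good η 0 z} ⊆ (fun η => η (z, false)) ⁻¹' {false} ∪
        (fun η => η (z, true)) ⁻¹' {false} := by
      intro η h
      simp only [good, mem_ofPred_eq, not_and_or, Bool.not_eq_true] at h
      exact h
    have hbit : ∀ e : E2, bits (fun _ : E2 => p) ((fun η => η e) ⁻¹' {false}) =
        ENNReal.ofReal (1 - p) := by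
      intro e
      have h3 := Measure.infinitePi_map_eval (fun _ : E2 => bern p) e
      rw [← bern_false, ← h3, Measure.map_apply (by fun_prop) (by trivial)]
      rfl
    refine (measure_mono h1).trans ((measure_union_le _ _).trans ?_)
    rw [hbit, hbit, ← ENNReal.ofReal_add (sub_nonneg.2 p.2.2) (sub_nonneg.2 p.2.2)]
    apply ENNReal.ofReal_le_ofReal
    linarith
  | succ n ih =>
    have h1 : {η : E2 → Bool | ¬ good η (n + 1) z} ⊆
        ⋃ x ∈ (Finset.univ : Finset (Nine × Nine)).filter fun x => x.1 ≠ x.2,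
          ({η | ¬ good η n (sub z x.1)} ∩ {η | ¬ good η n (sub z x.2)}) := by
      intro η h
      simp only [good, mem_ofPred_eq, not_exists, not_forall] at h
      obtain ⟨u, _, hu⟩ := h (0, 0)
      obtain ⟨v, hv, hv'⟩ := h u
      refine mem_biUnion (x := (v, u)) ?_ ⟨hv', hu⟩
      simpa using hv
    refine (measure_mono h1).trans ((measure_biUnion_finset_le _ _).trans ?_)
    have h2 : ∀ x ∈ (Finset.univ : Finset (Nine × Nine)).filter fun x => x.1 ≠ x.2,
        bits (fun _ : E2 => p) ({η | ¬ good η n (sub z x.1)} ∩ {η | ¬ good η n (sub z x.2)}) ≤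
          ENNReal.ofReal ((1 / 144 / 2 ^ n) ^ 2) := by
      intro x hx
      rw [Finset.mem_filter] at hx
      rw [bits_indep (fun _ : E2 => p) (S := {k : E2 | k.1 ∈ box n (sub z x.1)})
        (T := {k : E2 | k.1 ∈ box n (sub z x.2)}) ?_ (measurable_bad n _) (measurable_bad n _)
        (fun η η' h hg hg' => hg (good_dep n _ (fun k hk => (h k hk).symm) hg'))
        (fun η η' h hg hg' => hg (good_dep n _ (fun k hk => (h k hk).symm) hg'))]
      · rw [sq, ENNReal.ofReal_mul (by positivity)]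
        exact mul_le_mul' (ih _) (ih _)
      · rw [Set.disjoint_left]
        rintro k ⟨h1, h2⟩ ⟨h3, h4⟩
        apply hx.2
        exact sub_inj (Prod.ext (h1.symm.trans h3) (h2.symm.trans h4))
    refine (Finset.sum_le_card_nsmul _ _ _ h2).trans ?_
    have h3 : ((Finset.univ : Finset (Nine × Nine)).filter fun x => x.1 ≠ x.2).card = 72 := by
      decide
    rw [h3, nsmul_eq_mul, ← ENNReal.ofReal_natCast, ← ENNReal.ofReal_mul (by positivity)]
    apply ENNReal.ofReal_le_ofReal
    have h4 : (1 : ℝ) ≤ 2 ^ n := one_le_pow₀ (by norm_num)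
    have h5 : (0 : ℝ) < 2 ^ n := by positivity
    have h6 : (1 / 144 / 2 ^ (n + 1) : ℝ) = 1 / 144 / 2 ^ n / 2 := by
      rw [pow_succ]; field_simp
    rw [h6]
    set y : ℝ := 1 / 144 / 2 ^ n with hy
    have hy0 : 0 < y := by positivity
    have hy1 : y ≤ 1 / 144 := div_le_self (by norm_num) h4
    push_cast
    nlinarith

/-- At high density the cluster of the origin is infinite with positive probability. -/
theorem perc_pos {p : unitInterval} (hp : 2 * (1 - (p : ℝ)) ≤ 1 / 144) :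
    0 < bits (fun _ : E2 => p) {η | {z | Con η (0, 0) z}.Infinite} := by
  have h1 : bits (fun _ : E2 => p) (⋃ n, {η | ¬ good η n (0, 0)}) < 1 := by
    refine (measure_iUnion_le _).trans_lt ?_
    refine (ENNReal.tsum_le_tsum fun n => bad_prob hp n (0, 0)).trans_lt ?_
    rw [← ENNReal.ofReal_tsum_of_nonneg (fun n => by positivity)
      (by simpa [div_eq_mul_inv] using (summable_geometric_two.mul_left (1 / 144 : ℝ)))]
    have h2 : ∑' n : ℕ, (1 / 144 / 2 ^ n : ℝ) = 1 / 72 := by
      have := tsum_geometric_two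
      calc ∑' n : ℕ, (1 / 144 / 2 ^ n : ℝ) = ∑' n : ℕ, 1 / 144 * (1 / 2) ^ n := by
            refine tsum_congr fun n => ?_
            rw [one_div_pow]; ring
        _ = 1 / 144 * 2 := by rw [tsum_mul_left, this]
        _ = 1 / 72 := by norm_num
    rw [h2]
    rw [ENNReal.ofReal_lt_one]
    norm_num
  have h2 : (⋃ n, {η : E2 → Bool | ¬ good η n (0, 0)})ᶜ ⊆ {η | {z | Con η (0, 0) z}.Infinite} := by
    intro η hη
    simp only [compl_iUnion, mem_iInter, mem_compl_iff, mem_ofPred_eq, not_not] at hη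
    have h3 : ∀ n, ∀ x ∈ main η n (0, 0), Con η (0, 0) x := by
      intro n
      induction n with
      | zero => rintro x rfl; exact ReflTransGen.refl
      | succ n ih =>
        intro x hx
        obtain ⟨y, hy⟩ := main_nonempty n _ (hη n)
        refine (ih y hy).trans ((main_conn (n + 1)).1 _ (hη (n + 1)) y ?_ x hx)
        have h4 : sub (0, 0) (0, 0) = (0, 0) := by simp [sub]
        exact ⟨(0, 0), by rw [h4]; exact hη n, by rw [h4]; exact hy⟩
    have h4 : ∀ n : ℕ, ∃ x : ℤ × ℤ, Con η (0, 0) x ∧ (3 ^ n ≤ x.1 ∨ 3 ^ n ≤ x.2) := by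
      intro n
      obtain ⟨u0, hu0⟩ := hη (n + 1)
      have h5 : ∃ u : Nine, u ≠ u0 ∧ u ≠ (0, 0) := ex_nine u0
      obtain ⟨u, hu, hu'⟩ := h5
      obtain ⟨x, hx⟩ := main_nonempty n _ (hu0 u hu)
      refine ⟨x, h3 (n + 1) x ⟨u, hu0 u hu, hx⟩, ?_⟩
      obtain ⟨h6, h7⟩ := main_box n _ hx
      simp only [sub, mul_zero, zero_add] at h6 h7
      have h8 : 1 ≤ (u.1 : ℕ) ∨ 1 ≤ (u.2 : ℕ) := by
        by_contra h9
        apply hu'
        exact Prod.ext (Fin.ext (by simp; omega)) (Fin.ext (by simp; omega))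
      have h9 : (0 : ℤ) < 3 ^ n := by positivity
      rcases h8 with h8 | h8
      · left
        have h10 : (1 : ℤ) ≤ x.1 / 3 ^ n := by rw [h6]; exact_mod_cast h8
        have := (Int.le_ediv_iff_mul_le h9).1 h10
        linarith
      · right
        have h10 : (1 : ℤ) ≤ x.2 / 3 ^ n := by rw [h7]; exact_mod_cast h8
        have := (Int.le_ediv_iff_mul_le h9).1 h10
        linarith
    intro hfin
    obtain ⟨M, hM⟩ : ∃ M : ℤ, ∀ z ∈ {z | Con η (0, 0) z}, z.1 ≤ M ∧ z.2 ≤ M := by
      obtain ⟨M1, h5⟩ := (hfin.image Prod.fst).bddAbove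
      obtain ⟨M2, h6⟩ := (hfin.image Prod.snd).bddAbove
      exact ⟨max M1 M2, fun z hz => ⟨(h5 (mem_image_of_mem _ hz)).trans (le_max_left _ _),
        (h6 (mem_image_of_mem _ hz)).trans (le_max_right _ _)⟩⟩
    obtain ⟨x, hx, hx'⟩ := h4 (M.toNat + 1)
    have h5 : (M.toNat + 1 : ℕ) < 3 ^ (M.toNat + 1) := Nat.lt_pow_self (by norm_num)
    have h6 : M < 3 ^ (M.toNat + 1) := by
      have h7 : ((M.toNat + 1 : ℕ) : ℤ) < 3 ^ (M.toNat + 1) := by exact_mod_cast h5
      have h8 := Int.self_le_toNat M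
      push_cast at h7
      linarith
    obtain ⟨h7, h8⟩ := hM x hx
    rcases hx' with h9 | h9 <;> linarith
  refine lt_of_lt_of_le ?_ (measure_mono h2)
  rw [prob_compl_eq_one_sub (MeasurableSet.iUnion fun n => measurable_bad n (0, 0))]
  exact tsub_pos_of_lt h1

end

end MP7315a9
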