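import Pool.Agent.Lib.MP_7315a9_pr.Pos

/-!
# Independence of the coordinates of the social network model
-/

open MeasureTheory ProbabilityTheory Set Filter

namespace MP7315a9

noncomputable section

variable {V : Type*} [MeasurableSpace V]

/-- The index set of the coordinates. -/
abbrev Crd (V : Type*) := V ⊕ (V × ℕ × ℕ × V)

/-- The sigma algebra of a coordinate. -/
@[instance_reducible]
def crd : Crd V → MeasurableSpace (Om V) :=
  Sum.elim (fun v => MeasurableSpace.comap (fun ω => ω.1 v) inferInstance)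
    (fun k => MeasurableSpace.comap (fun ω => ω.2 k) inferInstance)

lemma crd_le (j : Crd V) : crd j ≤ (inferInstance : MeasurableSpace (Om V)) := by
  rcases j with v | k
  · exact measurable_iff_comap_le.1 (by fun_prop : Measurable fun ω : Om V => ω.1 v)
  · exact measurable_iff_comap_le.1 (by fun_prop : Measurable fun ω : Om V => ω.2 k)

/-- The coordinates are independent. -/
lemma iIndep_crd [DiscreteMeasurableSpace V] (G : SimpleGraph V) [G.LocallyFinite] (lam : NNReal)
    (hdeg : ∀ v, 0 < G.degree v) : iIndep (crd (V := V)) (snLaw G lam) := by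
  classical
  have hp : ∀ x, IsProbabilityMeasure (stepLaw G x) := fun x => isProb_stepLaw G (hdeg x)
  rw [iIndep_iff]
  intro s f hf
  set μ1 : Measure (V → ℕ) := Measure.infinitePi fun v => poissonMeasure (lam * G.degree v)
    with hμ1
  set μ2 : Measure (V × ℕ × ℕ × V → V) := Measure.infinitePi fun k => stepLaw G k.2.2.2 with hμ2
  have hL : ∀ v, ∃ A : Set ℕ, Sum.inl v ∈ s → f (Sum.inl v) = Prod.fst ⁻¹' {N : V → ℕ | N v ∈ A} := by
    intro v
    by_cases hv : Sum.inl v ∈ s
    · obtain ⟨A, _, hA⟩ := hf _ hv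
      exact ⟨A, fun _ => hA.symm⟩
    · exact ⟨∅, fun h => absurd h hv⟩
  have hR : ∀ k, ∃ A : Set V, Sum.inr k ∈ s →
      f (Sum.inr k) = Prod.snd ⁻¹' {ξ : V × ℕ × ℕ × V → V | ξ k ∈ A} := by
    intro v
    by_cases hv : Sum.inr v ∈ s
    · obtain ⟨A, _, hA⟩ := hf _ hv
      exact ⟨A, fun _ => hA.symm⟩
    · exact ⟨∅, fun h => absurd h hv⟩
  choose A hA using hL
  choose B hB using hR
  have h1 : (⋂ i ∈ s, f i) = (Set.pi (s.toLeft : Set V) A) ×ˢ
      (Set.pi (s.toRight : Set (V × ℕ × ℕ × V)) B) := by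
    ext ω
    simp only [mem_iInter, Sum.forall, mem_prod, Set.mem_pi, Finset.mem_coe, Finset.mem_toLeft,
      Finset.mem_toRight]
    refine and_congr ?_ ?_
    · refine forall₂_congr fun v hv => ?_
      rw [hA v hv]; rfl
    · refine forall₂_congr fun v hv => ?_
      rw [hB v hv]; rfl
  have h2 : snLaw G lam = μ1.prod μ2 := rfl
  rw [h1, h2, Measure.prod_prod, hμ1, hμ2,
    Measure.infinitePi_pi _ fun _ _ => MeasurableSet.of_discrete,
    Measure.infinitePi_pi _ fun _ _ => MeasurableSet.of_discrete,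
    Finset.prod_sum_eq_prod_toLeft_mul_prod_toRight]
  congr 1
  · refine Finset.prod_congr rfl fun v hv => ?_
    rw [Finset.mem_toLeft] at hv
    rw [hA v hv, ← hμ1, ← hμ2]
    have h3 : (Prod.fst ⁻¹' {N : V → ℕ | N v ∈ A v} : Set (Om V)) =
        (Set.pi ((({v} : Finset V)) : Set V) fun v => A v) ×ˢ univ := by
      ext ω; simp
    rw [h3, Measure.prod_prod, hμ1, Measure.infinitePi_pi _ fun _ _ => MeasurableSet.of_discrete]
    simp
  · refine Finset.prod_congr rfl fun v hv => ?_
    rw [Finset.mem_toRight] at hv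
    rw [hB v hv, ← hμ1, ← hμ2]
    have h3 : (Prod.snd ⁻¹' {ξ : V × ℕ × ℕ × V → V | ξ v ∈ B v} : Set (Om V)) =
        univ ×ˢ (Set.pi ((({v} : Finset (V × ℕ × ℕ × V))) : Set (V × ℕ × ℕ × V)) fun v => B v) := by
      ext ω; simp
    rw [h3, Measure.prod_prod, hμ2, Measure.infinitePi_pi _ fun _ _ => MeasurableSet.of_discrete]
    simp

/-- The coordinates of the walkers which start in `S`. -/
def blk (S : Set V) : Set (Crd V) := {j | Sum.elim id (fun k => k.1) j ∈ S}

/-- Keep only the walkers which start in `S`. -/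
def cut (S : Set V) (ω : Om V) : Om V :=
  open Classical in
  (fun v => if v ∈ S then ω.1 v else 0, fun k => if k.1 ∈ S then ω.2 k else k.2.2.2)

lemma measurable_cut (S : Set V) : Measurable[⨆ j ∈ blk S, crd j] (cut S) := by
  classical
  have h1 : Measurable[⨆ j ∈ blk S, crd j] fun ω : Om V => (cut S ω).1 := by
    rw [@measurable_pi_iff]
    intro v
    by_cases h : v ∈ S
    · simp only [cut, h, if_true]
      have h2 : crd (Sum.inl v) ≤ ⨆ j ∈ blk S, crd (V := V) j :=
        le_iSup₂_of_le (Sum.inl v) h le_rfl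
      exact (measurable_iff_comap_le.2 (le_refl (crd (Sum.inl v)))).mono h2 le_rfl
    · simp only [cut, h, if_false]
      exact @measurable_const _ _ _ (_) _
  have h2 : Measurable[⨆ j ∈ blk S, crd j] fun ω : Om V => (cut S ω).2 := by
    rw [@measurable_pi_iff]
    intro k
    by_cases h : k.1 ∈ S
    · simp only [cut, h, if_true]
      have h2 : crd (Sum.inr k) ≤ ⨆ j ∈ blk S, crd (V := V) j :=
        le_iSup₂_of_le (Sum.inr k) h le_rfl
      exact (measurable_iff_comap_le.2 (le_refl (crd (Sum.inr k)))).mono h2 le_rfl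
    · simp only [cut, h, if_false]
      exact @measurable_const _ _ _ (_) _
  exact @Measurable.prodMk _ _ _ _ _ (_) _ _ h1 h2

/-- Independence of events which depend on the walkers started in disjoint sets. -/
lemma indep_cut [DiscreteMeasurableSpace V] (G : SimpleGraph V) [G.LocallyFinite] (lam : NNReal)
    (hdeg : ∀ v, 0 < G.degree v) {S T : Set V} (hST : Disjoint S T) {A B : Set (Om V)}
    (hA : MeasurableSet A) (hB : MeasurableSet B) (hA' : cut S ⁻¹' A = A) (hB' : cut T ⁻¹' B = B) :
    snLaw G lam (A ∩ B) = snLaw G lam A * snLaw G lam B := by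
  have h1 := indep_iSup_of_disjoint (m := crd (V := V)) crd_le (iIndep_crd G lam hdeg)
    (S := blk S) (T := blk T) (by
      rw [Set.disjoint_left] at hST ⊢
      intro j h1 h2
      exact hST h1 h2)
  rw [Indep_iff] at h1
  refine h1 A B ?_ ?_
  · rw [← hA']
    exact measurable_cut S hA
  · rw [← hB']
    exact measurable_cut T hB

end

end MP7315a9
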