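import Pool.Agent.Lib.MP_7315a9_pr.Upper

/-!
# Domination of the acquaintance graph by bond percolation
-/

open MeasureTheory ProbabilityTheory Set

namespace MP7315a9

noncomputable section

variable {V : Type*}

/-- The ball of radius `n` around `z`. -/
def ball (G : SimpleGraph V) [G.LocallyFinite] : ℕ → V → Finset V
  | 0, z => {z}
  | n + 1, z => open Classical in insert z ((G.neighborFinset z).biUnion fun y => ball G n y)

lemma mem_ball {G : SimpleGraph V} [G.LocallyFinite] {n : ℕ} {z y : V} :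
    y ∈ ball G n z ↔ ∃ p : G.Walk z y, p.length ≤ n := by
  classical
  induction n generalizing z with
  | zero =>
    simp only [ball, Finset.mem_singleton, Nat.le_zero]
    constructor
    · rintro rfl; exact ⟨SimpleGraph.Walk.nil, rfl⟩
    · rintro ⟨p, hp⟩; exact (SimpleGraph.Walk.eq_of_length_eq_zero hp).symm
  | succ n ih =>
    simp only [ball, Finset.mem_insert, Finset.mem_biUnion, SimpleGraph.mem_neighborFinset]
    constructor
    · rintro (rfl | ⟨x, hx, hy⟩)
      · exact ⟨SimpleGraph.Walk.nil, by simp⟩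
      · obtain ⟨p, hp⟩ := ih.1 hy
        exact ⟨SimpleGraph.Walk.cons hx p, by simpa using hp⟩
    · rintro ⟨p, hp⟩
      cases p with
      | nil => exact Or.inl rfl
      | cons h q =>
        right
        exact ⟨_, h, ih.2 ⟨q, by simpa using hp⟩⟩

lemma ball_symm {G : SimpleGraph V} [G.LocallyFinite] {n : ℕ} {z y : V}
    (h : y ∈ ball G n z) : z ∈ ball G n y := by
  obtain ⟨p, hp⟩ := mem_ball.1 h
  exact mem_ball.2 ⟨p.reverse, by simpa using hp⟩

lemma ball_mono {G : SimpleGraph V} [G.LocallyFinite] {n m : ℕ} (hnm : n ≤ m) {z y : V}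
    (h : y ∈ ball G n z) : y ∈ ball G m z := by
  obtain ⟨p, hp⟩ := mem_ball.1 h
  exact mem_ball.2 ⟨p, hp.trans hnm⟩

lemma ball_step {G : SimpleGraph V} [G.LocallyFinite] {n : ℕ} {z y x : V}
    (h : y ∈ ball G n z) (hx : x = y ∨ G.Adj y x) : x ∈ ball G (n + 1) z := by
  rcases hx with rfl | hx
  · exact ball_mono (Nat.le_succ n) h
  · obtain ⟨p, hp⟩ := mem_ball.1 h
    exact mem_ball.2 ⟨p.concat hx, by simpa using hp⟩

lemma card_ball {G : SimpleGraph V} [G.LocallyFinite] {Δ : ℕ} (hΔ : ∀ v, G.degree v ≤ Δ)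
    (n : ℕ) (z : V) : (ball G n z).card ≤ (Δ + 1) ^ n := by
  classical
  induction n generalizing z with
  | zero => simp [ball]
  | succ n ih =>
    have h1 : (ball G (n + 1) z).card ≤ (∑ y ∈ G.neighborFinset z, (ball G n y).card) + 1 := by
      simp only [ball]
      exact (Finset.card_insert_le _ _).trans (Nat.succ_le_succ Finset.card_biUnion_le)
    have h2 : ∑ y ∈ G.neighborFinset z, (ball G n y).card ≤ Δ * (Δ + 1) ^ n := by
      refine (Finset.sum_le_card_nsmul _ _ _ fun y _ => ih y).trans ?_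
      rw [SimpleGraph.card_neighborFinset_eq_degree, smul_eq_mul]
      exact Nat.mul_le_mul_right _ (hΔ z)
    have h3 : 1 ≤ (Δ + 1) ^ n := Nat.one_le_pow _ _ (Nat.succ_pos _)
    calc (ball G (n + 1) z).card ≤ Δ * (Δ + 1) ^ n + 1 := h1.trans (Nat.succ_le_succ h2)
      _ ≤ Δ * (Δ + 1) ^ n + (Δ + 1) ^ n := by omega
      _ = (Δ + 1) ^ (n + 1) := by ring

/-- The vertices at distance at most `t` from an endpoint of the edge `e`. -/
def near (G : SimpleGraph V) [G.LocallyFinite] (t : ℕ) (e : Sym2 V) : Finset V :=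
  open Classical in e.toFinset.biUnion fun u => ball G t u

/-- The edges with an endpoint at distance at most `t` from `z`. -/
def edg (G : SimpleGraph V) [G.LocallyFinite] (t : ℕ) (z : V) : Finset (Sym2 V) :=
  open Classical in (ball G t z).biUnion fun u => (G.neighborFinset u).image fun v => s(u, v)

lemma mem_edg {G : SimpleGraph V} [G.LocallyFinite] {t : ℕ} {e : Sym2 V} (he : e ∈ G.edgeSet)
    {z : V} (h : z ∈ near G t e) : e ∈ edg G t z := by
  classical
  simp only [near, Finset.mem_biUnion, Sym2.mem_toFinset] at h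
  obtain ⟨u, hu, hz⟩ := h
  obtain ⟨v, rfl⟩ := hu
  simp only [edg, Finset.mem_biUnion, Finset.mem_image, SimpleGraph.mem_neighborFinset]
  exact ⟨u, ball_symm hz, v, he, rfl⟩

lemma card_near {G : SimpleGraph V} [G.LocallyFinite] {Δ : ℕ} (hΔ : ∀ v, G.degree v ≤ Δ)
    (t : ℕ) (e : Sym2 V) : (near G t e).card ≤ 2 * (Δ + 1) ^ t := by
  classical
  unfold near
  refine Finset.card_biUnion_le.trans ?_
  refine (Finset.sum_le_card_nsmul _ _ _ fun y _ => card_ball hΔ t y).trans ?_
  rw [smul_eq_mul]
  refine Nat.mul_le_mul_right _ ?_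
  rw [Sym2.card_toFinset]
  split_ifs <;> simp

lemma card_edg {G : SimpleGraph V} [G.LocallyFinite] {Δ : ℕ} (hΔ : ∀ v, G.degree v ≤ Δ)
    (t : ℕ) (z : V) : (edg G t z).card ≤ Δ * (Δ + 1) ^ t := by
  classical
  unfold edg
  refine Finset.card_biUnion_le.trans ?_
  have h1 : ∀ u ∈ ball G t z, ((G.neighborFinset u).image fun v => s(u, v)).card ≤ Δ := fun u _ =>
    Finset.card_image_le.trans (by rw [SimpleGraph.card_neighborFinset_eq_degree]; exact hΔ u)
  refine (Finset.sum_le_card_nsmul _ _ _ h1).trans ?_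
  rw [smul_eq_mul, mul_comm]
  exact Nat.mul_le_mul_left _ (card_ball hΔ t z)

/-- The edges close to an occupied vertex. -/
def cov (G : SimpleGraph V) [G.LocallyFinite] (t : ℕ) (σ : V → Bool) (e : G.edgeSet) : Bool :=
  open Classical in decide (∃ z ∈ near G t e, σ z = true)

lemma cov_mono {G : SimpleGraph V} [G.LocallyFinite] {t : ℕ} {σ σ' : V → Bool} (h : σ ≤ σ') :
    cov G t σ ≤ cov G t σ' := by
  intro e
  by_cases h1 : cov G t σ e = true
  · have : cov G t σ' e = true := by
      simp only [cov, decide_eq_true_eq] at h1 ⊢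
      obtain ⟨z, hz, h2⟩ := h1
      have h3 := h z
      rw [h2] at h3
      exact ⟨z, hz, top_le_iff.1 h3⟩
    rw [this]; exact le_top
  · simp at h1
    rw [h1]; exact bot_le

lemma measurable_cov (G : SimpleGraph V) [G.LocallyFinite] (t : ℕ) : Measurable (cov G t) :=
  measurable_pi_of (fun e : G.edgeSet => near G t e) fun b b' i h => by
    simp only [cov, decide_eq_decide]
    exact exists_congr fun k => and_congr_right fun hk => by rw [h k hk]

lemma reach_cov {G : SimpleGraph V} [G.LocallyFinite] {t : ℕ} {σ : V → Bool} {z : V}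
    (hz : σ z = true) {n : ℕ} (hn : n ≤ t) {y : V} (hy : y ∈ ball G n z) :
    (openGraph G (cov G t σ)).Reachable z y := by
  have key : ∀ (m : ℕ) (x y : V) (p : G.Walk x y), x ∈ ball G m z → p.length + m ≤ t →
      (openGraph G (cov G t σ)).Reachable x y := by
    intro m x y p
    induction p generalizing m with
    | nil => intro _ _; exact SimpleGraph.Reachable.refl _
    | @cons u v w h q ih =>
      intro hx hl
      have hl' : q.length + (m + 1) ≤ t := by
        have : (SimpleGraph.Walk.cons h q).length = q.length + 1 := rfl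
        omega
      refine SimpleGraph.Reachable.trans ?_ (ih (m + 1) (ball_step hx (Or.inr h)) hl')
      refine SimpleGraph.Adj.reachable ⟨h, ?_⟩
      simp only [cov, decide_eq_true_eq]
      refine ⟨z, ?_, hz⟩
      simp only [near, Finset.mem_biUnion, Sym2.mem_toFinset]
      exact ⟨u, by simp, ball_symm (ball_mono (by omega) hx)⟩
  obtain ⟨p, hp⟩ := mem_ball.1 hy
  exact key 0 z y p (by simp [ball]) (by omega)

/-- An infinite class yields an infinite cluster of covered edges. -/
lemma hasInf_of_infClass {G : SimpleGraph V} [G.LocallyFinite] {ω : Om V}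
    (hω : ∀ k : V × ℕ × ℕ × V, ω.2 k = k.2.2.2 ∨ G.Adj k.2.2.2 (ω.2 k)) {t : ℕ}
    (h : InfClass ω t) : HasInf (openGraph G (cov G t fun v => decide (0 < ω.1 v))) := by
  classical
  have hpos : ∀ (w : V × ℕ) (s : ℕ), pos ω w s ∈ ball G s w.1 := by
    intro w s
    induction s with
    | zero => simp [pos, ball]
    | succ s ih => exact ball_step ih (hω (w.1, w.2, s, pos ω w s))
  obtain ⟨w, _, hw⟩ := h
  set C : Set (V × ℕ) := {w' | (acq ω t).Reachable w w'} with hC
  have h1 : ∀ w' ∈ C, w' = w ∨ w'.2 < ω.1 w'.1 := by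
    intro w' hw'
    have h2 : (acq ω t).Reachable w w' := hw'
    rw [SimpleGraph.reachable_iff_reflTransGen] at h2
    cases h2 with
    | refl => exact Or.inl rfl
    | tail _ h3 => exact Or.inr h3.2.2.1
  have h2 : (Prod.fst '' C).Infinite := by
    intro hfin
    apply hw
    have : C ⊆ {w} ∪ ⋃ x ∈ Prod.fst '' C, (fun i => (x, i)) '' (Set.Iio (ω.1 x)) := by
      intro w' hw'
      rcases h1 w' hw' with h3 | h3
      · exact Or.inl h3
      · right
        exact mem_biUnion (mem_image_of_mem _ hw') ⟨w'.2, h3, rfl⟩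
    refine Finite.subset (Finite.union (finite_singleton w) ?_) this
    exact hfin.biUnion fun x _ => (finite_Iio _).image _
  refine ⟨w.1, h2.mono ?_⟩
  rintro _ ⟨w', hw', rfl⟩
  have h3 : (acq ω t).Reachable w w' := hw'
  rw [SimpleGraph.reachable_iff_reflTransGen] at h3
  show (openGraph G _).Reachable w.1 w'.1
  clear hw'
  induction h3 with
  | refl => exact SimpleGraph.Reachable.refl _
  | @tail a b _ hab ih =>
    refine ih.trans ?_
    obtain ⟨_, ha, hb, s, hs, hab⟩ := hab
    have h4 := reach_cov (G := G) (t := t) (σ := fun v => decide (0 < ω.1 v)) (z := a.1)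
      (by simp; omega) hs (hpos a s)
    have h5 := reach_cov (G := G) (t := t) (σ := fun v => decide (0 < ω.1 v)) (z := b.1)
      (by simp; omega) hs (hpos b s)
    rw [hab] at h4
    exact h4.trans h5.symm

/-- Comparison of the covered edges with bond percolation. -/
lemma cov_subcritical [Countable V] {G : SimpleGraph V} [G.LocallyFinite] {Δ : ℕ}
    (hΔ : ∀ v, G.degree v ≤ Δ) {t : ℕ} {ρ : unitInterval}
    (h1 : 1 - (1 - (ρ : ℝ)) ^ (2 * (Δ + 1) ^ t) < pc G) {σ : V → unitInterval}
    (h2 : ∀ v, (σ v : ℝ) ≤ (ρ : ℝ) ^ (Δ * (Δ + 1) ^ t)) :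
    bits σ {s | HasInf (openGraph G (cov G t s))} = 0 := by
  classical
  let S : V → Finset (V × Sym2 V) := fun z => (edg G t z).image (Prod.mk z)
  have hS : ∀ i j k, k ∈ S i → k ∈ S j → i = j := by
    intro i j k hi hj
    simp only [S, Finset.mem_image] at hi hj
    obtain ⟨_, _, rfl⟩ := hi
    obtain ⟨_, _, h⟩ := hj
    rw [Prod.mk.injEq] at h
    exact h.1.symm
  let A : (V × Sym2 V → Bool) → V → Bool := fun b i => decide (∀ k ∈ S i, b k = true)
  let T : G.edgeSet → Finset (V × Sym2 V) := fun e => (near G t e).image fun z => (z, (e : Sym2 V))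
  have hT : ∀ i j k, k ∈ T i → k ∈ T j → i = j := by
    intro i j k hi hj
    simp only [T, Finset.mem_image] at hi hj
    obtain ⟨_, _, rfl⟩ := hi
    obtain ⟨_, _, h⟩ := hj
    rw [Prod.mk.injEq] at h
    exact Subtype.ext h.2.symm
  let C : (V × Sym2 V → Bool) → G.edgeSet → Bool := fun b e => decide (∃ k ∈ T e, b k = true)
  have e1 : (bits fun _ : V × Sym2 V => ρ).map A = bits fun z => ∏ k ∈ S z, ρ :=
    bits_and _ S hS fun b i => by simp [A]
  have e2 : (bits fun _ : V × Sym2 V => ρ).map C =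
      bits fun e => unitInterval.symm (∏ k ∈ T e, unitInterval.symm ρ) :=
    bits_or _ T hT fun b i => by simp [C]
  have mA : Measurable A := measurable_pi_of S fun b b' i h => by
    simp only [A, decide_eq_decide]
    exact forall₂_congr fun k hk => by rw [h k hk]
  have mC : Measurable C := measurable_pi_of T fun b b' i h => by
    simp only [C, decide_eq_decide]
    exact exists_congr fun k => and_congr_right fun hk => by rw [h k hk]
  have hρ0 : (0 : ℝ) ≤ ρ := ρ.2.1
  have hρ1 : (ρ : ℝ) ≤ 1 := ρ.2.2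
  -- no infinite cluster for `C`
  have h3 : ∀ᵐ b ∂(bits fun _ : V × Sym2 V => ρ), ¬ HasInf (openGraph G (C b)) := by
    refine ae_of_ae_map mC.aemeasurable (p := fun η => ¬ HasInf (openGraph G η)) ?_
    rw [e2]
    have hp : (1 - (1 - (ρ : ℝ)) ^ (2 * (Δ + 1) ^ t)) ∈ Icc (0 : ℝ) 1 := by
      have h4 : (0 : ℝ) ≤ 1 - ρ := by linarith
      have h5 : (1 - (ρ : ℝ)) ^ (2 * (Δ + 1) ^ t) ≤ 1 := pow_le_one₀ h4 (by linarith)
      have h6 : 0 ≤ (1 - (ρ : ℝ)) ^ (2 * (Δ + 1) ^ t) := by positivity
      constructor <;> linarith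
    refine subcritical (p := ⟨_, hp⟩) h1 fun e => ?_
    rw [← Subtype.coe_le_coe, unitInterval.coe_symm_eq, Finset.prod_const, coe_pow',
      unitInterval.coe_symm_eq]
    simp only
    refine sub_le_sub_left ?_ 1
    refine pow_le_pow_of_le_one (by linarith) (by linarith) ?_
    exact Finset.card_image_le.trans (card_near hΔ t e)
  -- comparison
  have h4 : ∀ b, cov G t (A b) ≤ C b := by
    intro b e
    by_cases h5 : cov G t (A b) e = true
    · have : C b e = true := by
        simp only [cov, decide_eq_true_eq] at h5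
        obtain ⟨z, hz, h6⟩ := h5
        simp only [A, decide_eq_true_eq] at h6
        simp only [C, decide_eq_true_eq]
        refine ⟨(z, (e : Sym2 V)), Finset.mem_image_of_mem _ hz, h6 _ ?_⟩
        exact Finset.mem_image_of_mem _ (mem_edg e.2 hz)
      rw [this]; exact le_top
    · simp at h5
      rw [h5]; exact bot_le
  have hm : MeasurableSet {s | HasInf (openGraph G (cov G t s))} :=
    measurable_cov G t (measurable_inf_open G)
  have h5 : bits (fun z => ∏ k ∈ S z, ρ) {s | HasInf (openGraph G (cov G t s))} = 0 := by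
    rw [← e1, Measure.map_apply mA hm]
    have h6 : A ⁻¹' {s | HasInf (openGraph G (cov G t s))} ⊆
        {b | ¬ ¬ HasInf (openGraph G (C b))} := by
      intro b hb
      simp only [not_not]
      exact HasInf.mono (openGraph_mono (h4 b)) hb
    exact measure_mono_null h6 h3
  refine le_antisymm ((bits_mono (fun z => ?_) hm ?_).trans h5.le) bot_le
  · rw [← Subtype.coe_le_coe, Finset.prod_const, coe_pow']
    refine (h2 z).trans (pow_le_pow_of_le_one hρ0 hρ1 ?_)
    exact Finset.card_image_le.trans (card_edg hΔ t z)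
  · intro b b' hb h
    exact HasInf.mono (openGraph_mono (cov_mono hb)) h

variable [MeasurableSpace V] [DiscreteMeasurableSpace V]

lemma ae_step [Countable V] (G : SimpleGraph V) [G.LocallyFinite] (lam : NNReal)
    (hdeg : ∀ v, 0 < G.degree v) :
    ∀ᵐ ω ∂(snLaw G lam), ∀ k : V × ℕ × ℕ × V, ω.2 k = k.2.2.2 ∨ G.Adj k.2.2.2 (ω.2 k) := by
  have hp : ∀ x, IsProbabilityMeasure (stepLaw G x) := fun x => isProb_stepLaw G (hdeg x)
  rw [ae_all_iff]
  intro k
  have h1 : ∀ᵐ y ∂(stepLaw G k.2.2.2), y = k.2.2.2 ∨ G.Adj k.2.2.2 y := by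
    rw [ae_iff, stepLaw_apply]
    rw [ENNReal.tsum_eq_zero]
    intro y
    by_cases hy : y = k.2.2.2
    · simp [hy]
    · by_cases hy' : G.Adj k.2.2.2 y
      · simp [hy']
      · simp [stepProb, hy, hy']
  have h2 : (snLaw G lam).map (fun ω => ω.2 k) = stepLaw G k.2.2.2 := by
    have h3 : (snLaw G lam).map (fun ω => ω.2 k) = ((snLaw G lam).map Prod.snd).map (fun x => x k) := by
      rw [Measure.map_map (by fun_prop) (by fun_prop)]; rfl
    rw [h3, snLaw, Measure.map_snd_prod]
    simp only [measure_univ, one_smul]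
    exact Measure.infinitePi_map_eval (fun k : V × ℕ × ℕ × V => stepLaw G k.2.2.2) k
  rw [← h2] at h1
  exact ae_of_ae_map (by fun_prop) h1

/-- **No infinite class.** -/
theorem lower [Countable V] {G : SimpleGraph V} [G.LocallyFinite] {Δ : ℕ}
    (hΔ : ∀ v, G.degree v ≤ Δ) (hdeg : ∀ v, 0 < G.degree v) {lam : NNReal} {t : ℕ}
    {ρ : unitInterval} (h1 : 1 - (1 - (ρ : ℝ)) ^ (2 * (Δ + 1) ^ t) < pc G)
    (h2 : 1 - Real.exp (-(lam * Δ)) ≤ (ρ : ℝ) ^ (Δ * (Δ + 1) ^ t)) :
    ∀ᵐ ω ∂(snLaw G lam), ¬ InfClass ω t := by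
  classical
  have hp : ∀ x, IsProbabilityMeasure (stepLaw G x) := fun x => isProb_stepLaw G (hdeg x)
  let σ : V → unitInterval := fun v => ⟨1 - Real.exp (-(lam * G.degree v)), by
    constructor
    · rw [sub_nonneg, Real.exp_le_one_iff]
      have : (0 : ℝ) ≤ lam * G.degree v := by positivity
      linarith
    · have := Real.exp_pos (-(lam * G.degree v : ℝ))
      linarith⟩
  have hdec : Measurable fun (N : V → ℕ) v => decide (0 < N v) :=
    measurable_pi_lambda _ fun v =>
      (Measurable.of_discrete (f := fun n : ℕ => decide (0 < n))).comp (measurable_pi_apply v)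
  have hdec' : Measurable fun (ω : Om V) v => decide (0 < ω.1 v) := hdec.comp measurable_fst
  have e1 : (snLaw G lam).map (fun ω v => decide (0 < ω.1 v)) = bits σ := by
    have h3 : (snLaw G lam).map (fun ω v => decide (0 < ω.1 v)) =
        ((snLaw G lam).map Prod.fst).map (fun (N : V → ℕ) v => decide (0 < N v)) := by
      rw [Measure.map_map hdec (by fun_prop)]; rfl
    rw [h3, snLaw, Measure.map_fst_prod]
    simp only [measure_univ, one_smul]
    rw [Measure.infinitePi_map_pi (f := fun (_ : V) (n : ℕ) => decide (0 < n)) _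
      (fun _ => Measurable.of_discrete)]
    unfold bits
    congr 1
    funext v
    have : IsProbabilityMeasure ((poissonMeasure (lam * G.degree v)).map fun n => decide (0 < n)) :=
      Measure.isProbabilityMeasure_map (by fun_prop)
    apply eq_bern_of_false
    rw [Measure.map_apply Measurable.of_discrete (by trivial)]
    have h4 : (fun n : ℕ => decide (0 < n)) ⁻¹' {false} = {0} := by
      ext n; simp
    rw [h4, poissonMeasure_singleton]
    simp [σ]
  have h3 : ∀ᵐ ω ∂(snLaw G lam),
      ¬ HasInf (openGraph G (cov G t fun v => decide (0 < ω.1 v))) := by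
    refine ae_of_ae_map (f := fun (ω : Om V) v => decide (0 < ω.1 v))
      (p := fun s => ¬ HasInf (openGraph G (cov G t s))) hdec'.aemeasurable ?_
    rw [e1, ae_iff]
    simp only [not_not]
    refine cov_subcritical hΔ h1 fun v => le_trans ?_ h2
    show 1 - Real.exp (-(lam * G.degree v)) ≤ 1 - Real.exp (-(lam * Δ))
    refine sub_le_sub_left (Real.exp_le_exp.2 (neg_le_neg ?_)) 1
    exact mul_le_mul_of_nonneg_left (by exact_mod_cast hΔ v) lam.2
  filter_upwards [h3, ae_step G lam hdeg] with ω h4 h5 h6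
  exact h4 (hasInf_of_infClass h5 h6)

end

end MP7315a9
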