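import Pool.Agent.Lib.MP_7315a9_pr.Second

/-!
# Harmonic maps to the plane: exit estimates
-/

open Set Filter

namespace MP7315a9

noncomputable section

variable {V : Type*} (G : SimpleGraph V) [G.LocallyFinite]

/-- A harmonic map `(F1, F2)` from `G` to the plane with increments at most `b` along the edges
and with uniformly elliptic increments in `T0` steps of the lazy simple random walk. -/
structure PlaneMap (F1 F2 : V → ℝ) (b ε : ℝ) (T0 : ℕ) : Prop where
  /-- there are no isolated vertices -/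
  deg : ∀ v, 0 < G.degree v
  /-- bounded increments of the first coordinate -/
  bd1 : ∀ x y, G.Adj x y → |F1 y - F1 x| ≤ b
  /-- bounded increments of the second coordinate -/
  bd2 : ∀ x y, G.Adj x y → |F2 y - F2 x| ≤ b
  /-- the first coordinate is harmonic -/
  harm1 : ∀ x, ∑ y ∈ G.neighborFinset x, (F1 y - F1 x) = 0
  /-- the second coordinate is harmonic -/
  harm2 : ∀ x, ∑ y ∈ G.neighborFinset x, (F2 y - F2 x) = 0
  /-- the increments in `T0` steps are elliptic -/
  ell : ∀ x u1 u2, ε * (u1 ^ 2 + u2 ^ 2) ≤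
    (Pr G)^[T0] (fun y => (u1 * (F1 y - F1 x) + u2 * (F2 y - F2 x)) ^ 2) x
  /-- positivity -/
  b0 : 0 < b
  /-- positivity -/
  e0 : 0 < ε
  /-- positivity -/
  t0 : 0 < T0

variable {G}

lemma Pr_lin (a c : ℝ) (f g : V → ℝ) (x : V) :
    Pr G (fun y => a * f y + c * g y) x = a * Pr G f x + c * Pr G g x := by
  simp only [Pr, mul_add, Finset.sum_add_distrib, Finset.mul_sum]
  have h1 : ∀ y, 1 / (2 * (G.degree x : ℝ)) * (a * f y) = a * (1 / (2 * G.degree x) * f y) :=
    fun y => by ring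
  have h2 : ∀ y, 1 / (2 * (G.degree x : ℝ)) * (c * g y) = c * (1 / (2 * G.degree x) * g y) :=
    fun y => by ring
  simp only [h1, h2]
  ring

lemma Pr_mono {f g : V → ℝ} (h : ∀ x, f x ≤ g x) (x : V) : Pr G f x ≤ Pr G g x := by
  unfold Pr
  refine add_le_add (mul_le_mul_of_nonneg_left (h x) (by norm_num))
    (Finset.sum_le_sum fun y _ => mul_le_mul_of_nonneg_left (h y) (by positivity))

lemma Pr_const (hdeg : ∀ v, 0 < G.degree v) (c : ℝ) (x : V) : Pr G (fun _ => c) x = c := by
  unfold Pr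
  rw [Finset.sum_const, nsmul_eq_mul, SimpleGraph.card_neighborFinset_eq_degree]
  have h : (0 : ℝ) < G.degree x := by exact_mod_cast hdeg x
  field_simp
  ring

lemma Pr_iter_lin (a c : ℝ) (f g : V → ℝ) (n : ℕ) :
    (Pr G)^[n] (fun y => a * f y + c * g y) =
      fun y => a * (Pr G)^[n] f y + c * (Pr G)^[n] g y := by
  induction n with
  | zero => rfl
  | succ n ih =>
    rw [Function.iterate_succ_apply', ih, Function.iterate_succ_apply',
      Function.iterate_succ_apply']
    funext x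
    exact Pr_lin a c _ _ x

lemma Pr_iter_add (f g : V → ℝ) (n : ℕ) (x : V) :
    (Pr G)^[n] (fun y => f y + g y) x = (Pr G)^[n] f x + (Pr G)^[n] g x := by
  have := congrFun (Pr_iter_lin (G := G) 1 1 f g n) x
  simpa using this

lemma Pr_iter_sub (f g : V → ℝ) (n : ℕ) (x : V) :
    (Pr G)^[n] (fun y => f y - g y) x = (Pr G)^[n] f x - (Pr G)^[n] g x := by
  have := congrFun (Pr_iter_lin (G := G) 1 (-1) f g n) x
  simpa [sub_eq_add_neg] using this

lemma Pr_iter_mul (a : ℝ) (f : V → ℝ) (n : ℕ) (x : V) :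
    (Pr G)^[n] (fun y => a * f y) x = a * (Pr G)^[n] f x := by
  have := congrFun (Pr_iter_lin (G := G) a 0 f f n) x
  simpa using this

lemma Pr_iter_const (hdeg : ∀ v, 0 < G.degree v) (c : ℝ) (n : ℕ) :
    (Pr G)^[n] (fun _ => c) = fun _ => c := by
  induction n with
  | zero => rfl
  | succ n ih =>
    rw [Function.iterate_succ_apply', ih]
    funext x
    exact Pr_const hdeg c x

lemma Pr_iter_mono {f g : V → ℝ} (h : ∀ x, f x ≤ g x) (n : ℕ) (x : V) :
    (Pr G)^[n] f x ≤ (Pr G)^[n] g x := by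
  induction n generalizing x with
  | zero => exact h x
  | succ n ih =>
    rw [Function.iterate_succ_apply', Function.iterate_succ_apply']
    exact Pr_mono ih x

lemma Pr_iter_nonneg (hdeg : ∀ v, 0 < G.degree v) {f : V → ℝ} (h : ∀ x, 0 ≤ f x) (n : ℕ) (x : V) :
    0 ≤ (Pr G)^[n] f x := by
  have := Pr_iter_mono (G := G) h n x
  rwa [Pr_iter_const hdeg] at this

variable {F1 F2 : V → ℝ} {b ε : ℝ} {T0 : ℕ}

/-- Comparison of iterates only needs a comparison nearby. -/
lemma Pr_iter_mono_on (hF : PlaneMap G F1 F2 b ε T0) {f g : V → ℝ} (n : ℕ) (x : V)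
    (h : ∀ y, |F1 y - F1 x| ≤ n * b → |F2 y - F2 x| ≤ n * b → f y ≤ g y) :
    (Pr G)^[n] f x ≤ (Pr G)^[n] g x := by
  induction n generalizing x with
  | zero =>
    have := h x (by simp) (by simp)
    simpa using this
  | succ n ih =>
    rw [Function.iterate_succ_apply', Function.iterate_succ_apply']
    have hb := hF.b0
    have key : ∀ y, y = x ∨ G.Adj x y → (Pr G)^[n] f y ≤ (Pr G)^[n] g y := by
      intro y hy
      have h1 : |F1 y - F1 x| ≤ b ∧ |F2 y - F2 x| ≤ b := by
        rcases hy with rfl | hy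
        · simp [hb.le]
        · exact ⟨hF.bd1 x y hy, hF.bd2 x y hy⟩
      refine ih y fun z hz1 hz2 => h z ?_ ?_
      · have := abs_sub_le (F1 z) (F1 y) (F1 x)
        push_cast
        linarith [h1.1]
      · have := abs_sub_le (F2 z) (F2 y) (F2 x)
        push_cast
        linarith [h1.2]
    unfold Pr
    refine add_le_add (mul_le_mul_of_nonneg_left (key x (Or.inl rfl)) (by norm_num))
      (Finset.sum_le_sum fun y hy => mul_le_mul_of_nonneg_left
        (key y (Or.inr ((G.mem_neighborFinset x y).1 hy))) (by positivity))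

/-- Squared distance of `F x` to `c`. -/
def N2 (F1 F2 : V → ℝ) (x : V) (c : ℝ × ℝ) : ℝ := (F1 x - c.1) ^ 2 + (F2 x - c.2) ^ 2

lemma N2_nonneg (x : V) (c : ℝ × ℝ) : 0 ≤ N2 F1 F2 x c := by unfold N2; positivity

lemma Pr_F (hF : PlaneMap G F1 F2 b ε T0) (x : V) : Pr G F1 x = F1 x ∧ Pr G F2 x = F2 x := by
  have h : (0 : ℝ) < G.degree x := by exact_mod_cast hF.deg x
  have key : ∀ F : V → ℝ, ∑ y ∈ G.neighborFinset x, (F y - F x) = 0 → Pr G F x = F x := by
    intro F hF
    rw [Finset.sum_sub_distrib, Finset.sum_const, nsmul_eq_mul,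
      SimpleGraph.card_neighborFinset_eq_degree, sub_eq_zero] at hF
    unfold Pr
    rw [← Finset.mul_sum, hF]
    field_simp
    ring
  exact ⟨key F1 (hF.harm1 x), key F2 (hF.harm2 x)⟩

lemma Pr_iter_F (hF : PlaneMap G F1 F2 b ε T0) (n : ℕ) :
    (Pr G)^[n] F1 = F1 ∧ (Pr G)^[n] F2 = F2 := by
  induction n with
  | zero => exact ⟨rfl, rfl⟩
  | succ n ih =>
    rw [Function.iterate_succ_apply', Function.iterate_succ_apply', ih.1, ih.2]
    exact ⟨funext fun x => (Pr_F hF x).1, funext fun x => (Pr_F hF x).2⟩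

lemma Pr_sq (hF : PlaneMap G F1 F2 b ε T0) {F : V → ℝ} (hh : ∀ x, Pr G F x = F x)
    (hb : ∀ x y, G.Adj x y → |F y - F x| ≤ b) (a : ℝ) (x : V) :
    Pr G (fun y => (F y - a) ^ 2) x ≤ (F x - a) ^ 2 + b ^ 2 / 2 := by
  have h : (0 : ℝ) < G.degree x := by exact_mod_cast hF.deg x
  have h1 : ∀ y, (F y - a) ^ 2 = (F x - a) ^ 2 + 2 * (F x - a) * (F y - F x) + (F y - F x) ^ 2 :=
    fun y => by ring
  have h2 : Pr G (fun y => (F y - F x)) x = 0 := by
    have := Pr_lin (G := G) 1 (-1) F (fun _ => F x) x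
    rw [Pr_const hF.deg, hh x] at this
    have e : (fun y => F y - F x) = fun y => 1 * F y + (-1) * F x := by funext y; ring
    rw [e, this]; ring
  have h3 : Pr G (fun y => (F y - F x) ^ 2) x ≤ b ^ 2 / 2 := by
    unfold Pr
    have h4 : ∑ y ∈ G.neighborFinset x, 1 / (2 * (G.degree x : ℝ)) * (F y - F x) ^ 2 ≤
        ∑ y ∈ G.neighborFinset x, 1 / (2 * (G.degree x : ℝ)) * b ^ 2 := by
      refine Finset.sum_le_sum fun y hy => mul_le_mul_of_nonneg_left ?_ (by positivity)
      have := hb x y ((G.mem_neighborFinset x y).1 hy)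
      rw [← sq_abs (F y - F x)]
      exact pow_le_pow_left₀ (abs_nonneg _) this 2
    rw [Finset.sum_const, nsmul_eq_mul, SimpleGraph.card_neighborFinset_eq_degree] at h4
    have h5 : (G.degree x : ℝ) * (1 / (2 * G.degree x) * b ^ 2) = b ^ 2 / 2 := by field_simp
    rw [h5] at h4
    simp only [sub_self, ne_eq, OfNat.ofNat_ne_zero, not_false_eq_true, zero_pow, mul_zero,
      zero_add]
    exact h4
  have e1 : (fun y => (F y - a) ^ 2) = fun y => 1 * ((F x - a) ^ 2 + 2 * (F x - a) * (F y - F x)) +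
      1 * (F y - F x) ^ 2 := by
    funext y; rw [h1 y]; ring
  have e2 : Pr G (fun y => (F x - a) ^ 2 + 2 * (F x - a) * (F y - F x)) x = (F x - a) ^ 2 := by
    have := Pr_lin (G := G) 1 (2 * (F x - a)) (fun _ => (F x - a) ^ 2) (fun y => F y - F x) x
    rw [Pr_const hF.deg, h2] at this
    simpa using this
  rw [e1, Pr_lin, e2]
  linarith

lemma Pr_N2 (hF : PlaneMap G F1 F2 b ε T0) (c : ℝ × ℝ) (x : V) :
    Pr G (fun y => N2 F1 F2 y c) x ≤ N2 F1 F2 x c + b ^ 2 := by
  have h1 := Pr_sq hF (fun x => (Pr_F hF x).1) hF.bd1 c.1 x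
  have h2 := Pr_sq hF (fun x => (Pr_F hF x).2) hF.bd2 c.2 x
  have h3 := Pr_lin (G := G) 1 1 (fun y => (F1 y - c.1) ^ 2) (fun y => (F2 y - c.2) ^ 2) x
  have e : (fun y => N2 F1 F2 y c) = fun y => 1 * (F1 y - c.1) ^ 2 + 1 * (F2 y - c.2) ^ 2 := by
    funext y; simp [N2]
  rw [e, h3, N2]
  linarith

lemma Pr_iter_N2 (hF : PlaneMap G F1 F2 b ε T0) (c : ℝ × ℝ) (n : ℕ) (x : V) :
    (Pr G)^[n] (fun y => N2 F1 F2 y c) x ≤ N2 F1 F2 x c + n * b ^ 2 := by
  induction n generalizing x with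
  | zero => simp
  | succ n ih =>
    rw [Function.iterate_succ_apply]
    refine (Pr_iter_mono (Pr_N2 hF c) n x).trans ?_
    rw [Pr_iter_add, Pr_iter_const hF.deg]
    have := ih x
    push_cast
    linarith

/-- The probability to stay in `A`. -/
def st (G : SimpleGraph V) [G.LocallyFinite] (A : Set V) : ℕ → V → ℝ
  | 0 => A.indicator 1
  | n + 1 => A.indicator (Pr G (st G A n))

lemma st_nonneg (hdeg : ∀ v, 0 < G.degree v) (A : Set V) (n : ℕ) (x : V) : 0 ≤ st G A n x := by
  induction n generalizing x with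
  | zero => exact indicator_nonneg (fun _ _ => zero_le_one) x
  | succ n ih =>
    refine indicator_nonneg (fun y _ => ?_) x
    have := Pr_mono (G := G) ih y
    rwa [Pr_const hdeg] at this

/-- The stay estimate. -/
lemma stay (hF : PlaneMap G F1 F2 b ε T0) {c : ℝ × ℝ} {r : ℝ} (hr : 0 < r) {A : Set V}
    (hA : ∀ x, N2 F1 F2 x c < r ^ 2 → x ∈ A) (n : ℕ) (x : V) :
    1 - (N2 F1 F2 x c + n * b ^ 2) / r ^ 2 ≤ st G A n x := by
  induction n generalizing x with
  | zero =>
    by_cases h : x ∈ A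
    · simp only [st, indicator_of_mem h, Pi.one_apply]
      have := N2_nonneg (F1 := F1) (F2 := F2) x c
      have h1 : 0 ≤ (N2 F1 F2 x c + (0 : ℕ) * b ^ 2) / r ^ 2 := by positivity
      linarith
    · simp only [st, indicator_of_notMem h]
      have h1 : r ^ 2 ≤ N2 F1 F2 x c := not_lt.1 fun h2 => h (hA x h2)
      have h2 : 1 ≤ (N2 F1 F2 x c + (0 : ℕ) * b ^ 2) / r ^ 2 := by
        rw [one_le_div (by positivity)]; simpa using h1
      linarith
  | succ n ih =>
    by_cases h : x ∈ A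
    · simp only [st, indicator_of_mem h]
      refine le_trans ?_ (Pr_mono ih x)
      have e : (fun y => 1 - (N2 F1 F2 y c + n * b ^ 2) / r ^ 2) =
          fun y => 1 * (1 - n * b ^ 2 / r ^ 2) + (-(1 / r ^ 2)) * N2 F1 F2 y c := by
        funext y; field_simp; ring
      rw [e, Pr_lin, Pr_const hF.deg]
      have h1 := Pr_N2 hF c x
      have h2 : 0 < 1 / r ^ 2 := by positivity
      have h3 : 1 / r ^ 2 * Pr G (fun y => N2 F1 F2 y c) x ≤ 1 / r ^ 2 * (N2 F1 F2 x c + b ^ 2) :=
        mul_le_mul_of_nonneg_left h1 h2.le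
      have h4 : (N2 F1 F2 x c + ((n + 1 : ℕ) : ℝ) * b ^ 2) / r ^ 2 =
          1 / r ^ 2 * (N2 F1 F2 x c + b ^ 2) + n * b ^ 2 / r ^ 2 := by
        push_cast; field_simp; ring
      rw [h4]
      linarith
    · simp only [st, indicator_of_notMem h]
      have h1 : r ^ 2 ≤ N2 F1 F2 x c := not_lt.1 fun h2 => h (hA x h2)
      have h2 : 1 ≤ (N2 F1 F2 x c + ((n + 1 : ℕ) : ℝ) * b ^ 2) / r ^ 2 := by
        rw [one_le_div (by positivity)]
        have : 0 ≤ ((n + 1 : ℕ) : ℝ) * b ^ 2 := by positivity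
        linarith
      linarith

/-- Being in `A` at time `n` is at least as likely as staying in `A`. -/
lemma st_le_iter (hdeg : ∀ v, 0 < G.degree v) (A : Set V) (n : ℕ) (x : V) :
    st G A n x ≤ (Pr G)^[n] (A.indicator 1) x := by
  induction n generalizing x with
  | zero => exact le_rfl
  | succ n ih =>
    rw [Function.iterate_succ_apply']
    by_cases h : x ∈ A
    · simp only [st, indicator_of_mem h]
      exact Pr_mono ih x
    · simp only [st, indicator_of_notMem h]
      have h1 : ∀ y, 0 ≤ A.indicator (1 : V → ℝ) y := fun y =>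
        indicator_nonneg (fun _ _ => zero_le_one) y
      have h2 := Pr_iter_nonneg hdeg h1 (n + 1) x
      rwa [Function.iterate_succ_apply'] at h2

end

end MP7315a9
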