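import Pool.Agent.Lib.MP_7315a9_pr.Perc

/-!
# The social network model

`Ω V` carries the numbers `N v` of walkers started at `v` and, for every walker `(v, i)`, every time
`s` and every vertex `x`, the vertex `ξ (v, i, s, x)` to which the walker moves at time `s + 1` if
it is at `x` at time `s`. Under `P G lam` all these variables are independent, `N v` is Poisson with
mean `lam * deg v` and `ξ (v, i, s, x)` has the law of one step of the lazy simple random walk
from `x`.
-/

open MeasureTheory ProbabilityTheory Set

namespace MP7315a9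

noncomputable section

variable {V : Type*}

/-- Transition probabilities of the lazy simple random walk. -/
def stepProb (G : SimpleGraph V) [G.LocallyFinite] (x y : V) : ℝ :=
  open Classical in
  if y = x then 1 / 2 else if G.Adj x y then 1 / (2 * G.degree x) else 0

/-- The law of one step of the lazy simple random walk from `x`. -/
def stepLaw (G : SimpleGraph V) [G.LocallyFinite] [MeasurableSpace V] (x : V) : Measure V :=
  Measure.sum fun y => ENNReal.ofReal (stepProb G x y) • Measure.dirac y

/-- The sample space: numbers of walkers, and moves. -/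
abbrev Om (V : Type*) := (V → ℕ) × (V × ℕ × ℕ × V → V)

/-- The law of the social network model with intensity `lam`. -/
def snLaw (G : SimpleGraph V) [G.LocallyFinite] [MeasurableSpace V] (lam : NNReal) :
    Measure (Om V) :=
  (Measure.infinitePi fun v => poissonMeasure (lam * G.degree v)).prod
    (Measure.infinitePi fun k : V × ℕ × ℕ × V => stepLaw G k.2.2.2)

/-- The position at time `s` of the walker `w = (v, i)`, the `i`-th walker started at `v`. -/
def pos (ω : Om V) (w : V × ℕ) : ℕ → V
  | 0 => w.1
  | s + 1 => ω.2 (w.1, w.2, s, pos ω w s)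

/-- The acquaintance graph at time `t`: its vertices are the walkers `(v, i)`, `i < N v` (the pairs
`(v, i)` with `i ≥ N v` are isolated), and two walkers are adjacent if they are at the same vertex
at some time `s ≤ t`. -/
def acq (ω : Om V) (t : ℕ) : SimpleGraph (V × ℕ) where
  Adj w w' := w ≠ w' ∧ w.2 < ω.1 w.1 ∧ w'.2 < ω.1 w'.1 ∧ ∃ s ≤ t, pos ω w s = pos ω w' s
  symm := ⟨fun _ _ ⟨h, h1, h2, s, hs, h3⟩ => ⟨h.symm, h2, h1, s, hs, h3.symm⟩⟩
  loopless := ⟨fun _ h => h.1 rfl⟩

/-- There is an infinite class of walkers at time `t`. -/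
def InfClass (ω : Om V) (t : ℕ) : Prop :=
  ∃ w : V × ℕ, w.2 < ω.1 w.1 ∧ {w' | (acq ω t).Reachable w w'}.Infinite

lemma stepProb_nonneg (G : SimpleGraph V) [G.LocallyFinite] (x y : V) : 0 ≤ stepProb G x y := by
  unfold stepProb
  split_ifs <;> positivity

variable [MeasurableSpace V] [DiscreteMeasurableSpace V]

lemma stepLaw_apply (G : SimpleGraph V) [G.LocallyFinite] (x : V) (A : Set V) :
    stepLaw G x A = ∑' y, ENNReal.ofReal (stepProb G x y) * A.indicator 1 y := by
  unfold stepLaw
  rw [Measure.sum_apply _ (MeasurableSet.of_discrete)]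
  simp

omit [MeasurableSpace V] [DiscreteMeasurableSpace V] in
lemma tsum_stepProb (G : SimpleGraph V) [G.LocallyFinite] (x : V) (f : V → ENNReal) :
    ∑' y, ENNReal.ofReal (stepProb G x y) * f y =
      ENNReal.ofReal (1 / 2) * f x +
        ∑ y ∈ G.neighborFinset x, ENNReal.ofReal (1 / (2 * G.degree x)) * f y := by
  classical
  rw [tsum_eq_sum (s := insert x (G.neighborFinset x))]
  · rw [Finset.sum_insert (by simp)]
    congr 1
    · simp [stepProb]
    · refine Finset.sum_congr rfl fun y hy => ?_
      rw [SimpleGraph.mem_neighborFinset] at hy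
      simp [stepProb, hy, hy.ne']
  · intro y hy
    simp only [Finset.mem_insert, SimpleGraph.mem_neighborFinset, not_or] at hy
    simp [stepProb, hy.1, hy.2]

lemma isProb_stepLaw (G : SimpleGraph V) [G.LocallyFinite] {x : V} (h : 0 < G.degree x) :
    IsProbabilityMeasure (stepLaw G x) := by
  constructor
  rw [stepLaw_apply, tsum_stepProb]
  simp only [indicator_univ, Pi.one_apply, mul_one, Finset.sum_const, nsmul_eq_mul,
    SimpleGraph.card_neighborFinset_eq_degree]
  rw [← ENNReal.ofReal_natCast, ← ENNReal.ofReal_mul (by positivity),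
    ← ENNReal.ofReal_add (by positivity) (by positivity)]
  rw [ENNReal.ofReal_eq_one]
  have : (0 : ℝ) < G.degree x := by exact_mod_cast h
  field_simp
  norm_num

end

end MP7315a9
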