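import Pool.Agent.Lib.MP_7315a9_pr.ZeroOne

/-!
# Trajectories and their law
-/

open MeasureTheory ProbabilityTheory Set Filter

namespace MP7315a9

noncomputable section

variable {V : Type*}

/-- Trajectories of length `n`. -/
abbrev Tr (V : Type*) (n : ℕ) := Fin (n + 1) → V

/-- The trajectory of a walker until time `n`. -/
def traj (n : ℕ) (ω : Om V) (w : V × ℕ) : Tr V n := fun s => pos ω w s

/-- The path from `x` which follows the moves `η`. -/
def pp (η : ℕ × V → V) (x : V) : ℕ → V
  | 0 => x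
  | s + 1 => η (s, pp η x s)

/-- The weight of a trajectory. -/
def wt (G : SimpleGraph V) [G.LocallyFinite] {n : ℕ} (γ : Tr V n) : ENNReal :=
  ∏ s : Fin n, ENNReal.ofReal (stepProb G (γ s.castSucc) (γ s.succ))

lemma pos_eq_pp (ω : Om V) (w : V × ℕ) (s : ℕ) :
    pos ω w s = pp (fun sy => ω.2 (w.1, w.2, sy.1, sy.2)) w.1 s := by
  induction s with
  | zero => rfl
  | succ s ih => simp only [pos, pp, ih]

lemma pp_eq_iff {n : ℕ} (η : ℕ × V → V) (x : V) (γ : Tr V n) :
    (fun s : Fin (n + 1) => pp η x s) = γ ↔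
      γ 0 = x ∧ ∀ s : Fin n, η (s, γ s.castSucc) = γ s.succ := by
  constructor
  · rintro rfl
    exact ⟨rfl, fun s => rfl⟩
  · rintro ⟨h0, h⟩
    funext s
    obtain ⟨s, hs⟩ := s
    induction s with
    | zero => exact h0.symm
    | succ s ih =>
      have h1 := ih (by omega)
      have h2 := h ⟨s, by omega⟩
      simp only [pp]
      simp only at h1
      rw [h1]
      exact h2

variable [MeasurableSpace V]

/-- The law of the moves of one walker. -/
def mvLaw (G : SimpleGraph V) [G.LocallyFinite] : Measure (ℕ × V → V) :=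
  Measure.infinitePi fun sy : ℕ × V => stepLaw G sy.2

/-- The law of the trajectory started at `x`. -/
def pl (G : SimpleGraph V) [G.LocallyFinite] (n : ℕ) (x : V) : Measure (Tr V n) :=
  (mvLaw G).map fun η s => pp η x s

variable [DiscreteMeasurableSpace V]

lemma stepLaw_singleton (G : SimpleGraph V) [G.LocallyFinite] (x y : V) :
    stepLaw G x {y} = ENNReal.ofReal (stepProb G x y) := by
  rw [stepLaw_apply, tsum_eq_single y]
  · simp
  · intro z hz; simp [hz]

lemma measurable_pp [Countable V] (x : V) (s : ℕ) : Measurable fun η : ℕ × V → V => pp η x s := by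
  induction s with
  | zero => exact measurable_const
  | succ s ih =>
    refine measurable_to_countable' fun y => ?_
    have h1 : (fun η : ℕ × V → V => pp η x (s + 1)) ⁻¹' {y} =
        ⋃ z : V, ({η : ℕ × V → V | pp η x s = z} ∩ {η : ℕ × V → V | η (s, z) = y}) := by
      ext ω; simp [pp]
    rw [h1]
    refine MeasurableSet.iUnion fun z => MeasurableSet.inter ?_ ?_
    · exact ih (MeasurableSet.of_discrete (s := {z}))
    · have h2 : Measurable fun η : ℕ × V → V => η (s, z) := by fun_prop
      exact h2 (MeasurableSet.of_discrete (s := {y}))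

lemma measurable_ppn [Countable V] (n : ℕ) (x : V) :
    Measurable fun (η : ℕ × V → V) (s : Fin (n + 1)) => pp η x s :=
  measurable_pi_lambda _ fun s => measurable_pp x s

lemma measurable_traj [Countable V] (n : ℕ) (w : V × ℕ) :
    Measurable fun ω : Om V => traj n ω w :=
  measurable_pi_lambda _ fun s => measurable_pos w s

lemma pl_singleton [Countable V] (G : SimpleGraph V) [G.LocallyFinite]
    (hdeg : ∀ v, 0 < G.degree v) (n : ℕ) (x : V) (γ : Tr V n) :
    pl G n x {γ} = open Classical in if γ 0 = x then wt G γ else 0 := by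
  classical
  have hp : ∀ x, IsProbabilityMeasure (stepLaw G x) := fun x => isProb_stepLaw G (hdeg x)
  rw [pl, Measure.map_apply (measurable_ppn n x) (measurableSet_singleton γ)]
  by_cases h0 : γ 0 = x
  · simp only [h0, if_true]
    let F : Finset (ℕ × V) := Finset.univ.map ⟨fun s : Fin n => ((s : ℕ), γ s.castSucc),
      fun a b hab => by
        simp only [Prod.mk.injEq] at hab
        exact Fin.ext hab.1⟩
    let t : ℕ × V → Set V := fun k => if h : k.1 < n then {γ ⟨k.1 + 1, by omega⟩} else univ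
    have h1 : (fun (η : ℕ × V → V) (s : Fin (n + 1)) => pp η x s) ⁻¹' {γ} =
        Set.pi (F : Set (ℕ × V)) t := by
      ext η
      simp only [mem_preimage, mem_singleton_iff, pp_eq_iff, h0, true_and, Set.mem_pi,
        Finset.mem_coe]
      constructor
      · intro h k hk
        simp only [F, Finset.mem_map, Finset.mem_univ, true_and, Function.Embedding.coeFn_mk] at hk
        obtain ⟨s, rfl⟩ := hk
        have : (s : ℕ) < n := s.2
        simp only [t, this, dif_pos, mem_singleton_iff]
        exact h s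
      · intro h s
        have h2 := h ((s : ℕ), γ s.castSucc) (Finset.mem_map.2 ⟨s, Finset.mem_univ _, rfl⟩)
        have : (s : ℕ) < n := s.2
        simp only [t, this, dif_pos, mem_singleton_iff] at h2
        exact h2
    rw [h1, mvLaw, Measure.infinitePi_pi _ fun _ _ => MeasurableSet.of_discrete, Finset.prod_map]
    refine Finset.prod_congr rfl fun s _ => ?_
    have : (s : ℕ) < n := s.2
    simp only [Function.Embedding.coeFn_mk, t, this, dif_pos, stepLaw_singleton]
    rfl
  · simp only [h0, if_false]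
    have h1 : (fun (η : ℕ × V → V) (s : Fin (n + 1)) => pp η x s) ⁻¹' {γ} = ∅ := by
      ext η
      simp only [mem_preimage, mem_singleton_iff, pp_eq_iff, h0, false_and, mem_empty_iff_false]
    rw [h1, measure_empty]

lemma pl_apply [Countable V] (G : SimpleGraph V) [G.LocallyFinite]
    (hdeg : ∀ v, 0 < G.degree v) (n : ℕ) (x : V) (S : Set (Tr V n)) :
    pl G n x S = ∑' γ : Tr V n, S.indicator (fun γ => open Classical in
      if γ 0 = x then wt G γ else 0) γ := by
  classical
  rw [← Measure.tsum_indicator_apply_singleton (pl G n x) S MeasurableSet.of_discrete]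
  refine tsum_congr fun γ => ?_
  by_cases h : γ ∈ S
  · rw [indicator_of_mem h, indicator_of_mem h, pl_singleton G hdeg]
  · rw [indicator_of_notMem h, indicator_of_notMem h]

lemma isProb_mvLaw (G : SimpleGraph V) [G.LocallyFinite] (hdeg : ∀ v, 0 < G.degree v) :
    IsProbabilityMeasure (mvLaw G) := by
  have hp : ∀ x, IsProbabilityMeasure (stepLaw G x) := fun x => isProb_stepLaw G (hdeg x)
  unfold mvLaw; infer_instance

lemma isProb_pl [Countable V] (G : SimpleGraph V) [G.LocallyFinite] (hdeg : ∀ v, 0 < G.degree v)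
    (n : ℕ) (x : V) : IsProbabilityMeasure (pl G n x) := by
  have := isProb_mvLaw G hdeg
  exact Measure.isProbabilityMeasure_map (measurable_ppn n x).aemeasurable

/-- The moves of the different walkers are independent. -/
lemma grp (G : SimpleGraph V) [G.LocallyFinite] (hdeg : ∀ v, 0 < G.degree v) :
    (Measure.infinitePi fun k : V × ℕ × ℕ × V => stepLaw G k.2.2.2).map
      (fun ξ (w : V × ℕ) (sy : ℕ × V) => ξ (w.1, w.2, sy.1, sy.2)) =
    Measure.infinitePi fun _ : V × ℕ => mvLaw G := by
  have hp : ∀ x, IsProbabilityMeasure (stepLaw G x) := fun x => isProb_stepLaw G (hdeg x)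
  let g : (Σ _ : V × ℕ, ℕ × V) → V × ℕ × ℕ × V := fun x => (x.1.1, x.1.2, x.2.1, x.2.2)
  have hg : Function.Injective g := by
    rintro ⟨⟨a1, a2⟩, a3, a4⟩ ⟨⟨b1, b2⟩, b3, b4⟩ h
    simp only [g, Prod.mk.injEq] at h
    obtain ⟨rfl, rfl, rfl, rfl⟩ := h
    rfl
  have h1 := Measure.map_infinitePi_infinitePi_of_inj
    (P := fun k : V × ℕ × ℕ × V => stepLaw G k.2.2.2) hg
  have h2 := Measure.infinitePi_map_piCurry (X := fun (_ : V × ℕ) (_ : ℕ × V) => V)
    (μ := fun _ sy => stepLaw G sy.2)
  have hm1 : Measurable fun (b : V × ℕ × ℕ × V → V) (k : Σ _ : V × ℕ, ℕ × V) => b (g k) := by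
    fun_prop
  have hm2 : Measurable (MeasurableEquiv.piCurry fun (_ : V × ℕ) (_ : ℕ × V) => V) :=
    MeasurableEquiv.measurable _
  calc (Measure.infinitePi fun k : V × ℕ × ℕ × V => stepLaw G k.2.2.2).map
        (fun ξ (w : V × ℕ) (sy : ℕ × V) => ξ (w.1, w.2, sy.1, sy.2))
      = ((Measure.infinitePi fun k : V × ℕ × ℕ × V => stepLaw G k.2.2.2).map
          (fun b (k : Σ _ : V × ℕ, ℕ × V) => b (g k))).map
          (MeasurableEquiv.piCurry fun (_ : V × ℕ) (_ : ℕ × V) => V) := by
        rw [Measure.map_map hm2 hm1]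
        rfl
    _ = _ := by
        rw [h1]
        exact h2

/-- Void probabilities of trajectories. -/
lemma void_traj [Countable V] (G : SimpleGraph V) [G.LocallyFinite] (lam : NNReal)
    (hdeg : ∀ v, 0 < G.degree v) (n : ℕ) (F : Finset V) (S : Set (Tr V n)) :
    snLaw G lam {ω | ∀ v ∈ F, ∀ i < ω.1 v, traj n ω (v, i) ∉ S} =
      ∏ v ∈ F, ENNReal.ofReal (Real.exp (-(lam * G.degree v * (pl G n v).real S))) := by
  classical
  have hp : ∀ x, IsProbabilityMeasure (stepLaw G x) := fun x => isProb_stepLaw G (hdeg x)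
  have hpm := isProb_mvLaw G hdeg
  have hpl := isProb_pl G hdeg n
  set E : Set (Om V) := {ω | ∀ v ∈ F, ∀ i < ω.1 v, traj n ω (v, i) ∉ S} with hE
  have hEm : MeasurableSet E := by
    have : E = ⋂ v ∈ F, ⋂ i : ℕ, ({ω : Om V | ¬ i < ω.1 v} ∪
        {ω : Om V | traj n ω (v, i) ∉ S}) := by
      ext ω
      simp only [hE, mem_ofPred_eq, mem_iInter, mem_union, ← imp_iff_not_or]
    rw [this]
    refine Finset.measurableSet_biInter _ fun v _ => MeasurableSet.iInter fun i => ?_
    refine MeasurableSet.union ?_ ?_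
    · have h1 : Measurable fun ω : Om V => ω.1 v := by fun_prop
      exact h1 (MeasurableSet.of_discrete (s := {n | ¬ i < n}))
    · exact measurable_traj n (v, i) (MeasurableSet.of_discrete (s := {y | y ∉ S}))
  let q : V → NNReal := fun v => (pl G n v Sᶜ).toNNReal
  have hq : ∀ v, (q v : ENNReal) = pl G n v Sᶜ :=
    fun v => ENNReal.coe_toNNReal (measure_ne_top _ _)
  have h1 : ∀ N : V → ℕ, (Measure.infinitePi fun k : V × ℕ × ℕ × V => stepLaw G k.2.2.2)
      (Prod.mk N ⁻¹' E) = ∏ v ∈ F, (q v : ENNReal) ^ N v := by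
    intro N
    let K : Finset (V × ℕ) := (F.sigma fun v => Finset.range (N v)).map
      ⟨fun x => (x.1, x.2), fun a b hab => by
        rcases a with ⟨a1, a2⟩; rcases b with ⟨b1, b2⟩
        simp only [Prod.mk.injEq] at hab
        obtain ⟨rfl, rfl⟩ := hab; rfl⟩
    let f : (V × ℕ × ℕ × V → V) → V × ℕ → ℕ × V → V :=
      fun ξ w sy => ξ (w.1, w.2, sy.1, sy.2)
    have hf : Measurable f := by fun_prop
    let C : V × ℕ → Set (ℕ × V → V) := fun w => {η | (fun s : Fin (n + 1) => pp η w.1 s) ∉ S}
    have hC : ∀ w, MeasurableSet (C w) := fun w =>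
      measurable_ppn n w.1 (MeasurableSet.of_discrete (s := {y | y ∉ S}))
    have e1 : Prod.mk N ⁻¹' E = f ⁻¹' (Set.pi (K : Set (V × ℕ)) C) := by
      ext ξ
      simp only [hE, K, mem_preimage, mem_ofPred_eq, Set.mem_pi, Finset.mem_coe, Finset.mem_map,
        Finset.mem_sigma, Finset.mem_range, Function.Embedding.coeFn_mk]
      constructor
      · rintro h k ⟨⟨v, i⟩, ⟨hv, hi⟩, rfl⟩
        have h2 := h v hv i hi
        have h3 : traj n (N, ξ) (v, i) = fun s : Fin (n + 1) => pp (f ξ (v, i)) v s := by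
          funext s; exact pos_eq_pp _ _ _
        rw [h3] at h2
        exact h2
      · intro h v hv i hi
        have h2 := h (v, i) ⟨⟨v, i⟩, ⟨hv, hi⟩, rfl⟩
        have h3 : traj n (N, ξ) (v, i) = fun s : Fin (n + 1) => pp (f ξ (v, i)) v s := by
          funext s; exact pos_eq_pp _ _ _
        rw [h3]
        exact h2
    rw [e1, ← Measure.map_apply hf (MeasurableSet.pi (Finset.countable_toSet _) fun w _ => hC w),
      grp G hdeg, Measure.infinitePi_pi _ fun w _ => hC w, Finset.prod_map, Finset.prod_sigma]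
    refine Finset.prod_congr rfl fun v _ => ?_
    have h4 : ∀ i : ℕ, mvLaw G (C (v, i)) = q v := by
      intro i
      rw [hq, pl, Measure.map_apply (measurable_ppn n v) MeasurableSet.of_discrete]
      rfl
    simp [h4]
  rw [snLaw, Measure.prod_apply hEm]
  simp only [h1]
  have h2 : iIndepFun (fun (v : V) (N : V → ℕ) => (q v : ENNReal) ^ N v)
      (Measure.infinitePi fun v => poissonMeasure (lam * G.degree v)) :=
    iIndepFun_infinitePi (P := fun v => poissonMeasure (lam * G.degree v))
      (X := fun (v : V) (n : ℕ) => (q v : ENNReal) ^ n) fun v => Measurable.of_discrete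
  rw [lintegral_prod_eq_prod_lintegral_of_indepFun F _ h2 (fun v => by fun_prop)]
  refine Finset.prod_congr rfl fun v _ => ?_
  have h3 := Measure.infinitePi_map_eval (fun v => poissonMeasure (lam * G.degree v)) v
  have h4 : ∫⁻ N : V → ℕ, (q v : ENNReal) ^ N v
      ∂(Measure.infinitePi fun v => poissonMeasure (lam * G.degree v)) =
      ∫⁻ n, (q v : ENNReal) ^ n ∂(poissonMeasure (lam * G.degree v)) := by
    rw [← h3, lintegral_map (by fun_prop) (by fun_prop)]
  rw [h4, poisson_pow]
  congr 3
  have h5 : (q v : ℝ) = 1 - (pl G n v).real S := by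
    have : (q v : ℝ) = (pl G n v).real Sᶜ := rfl
    rw [this, measureReal_compl MeasurableSet.of_discrete]
    simp
  rw [h5]
  push_cast
  ring

/-- A walker started in `F` with trajectory in `S` exists with probability at least
`1 - exp (- lam * c)`. -/
lemma exists_traj [Countable V] (G : SimpleGraph V) [G.LocallyFinite] (lam : NNReal)
    (hdeg : ∀ v, 0 < G.degree v) (n : ℕ) (F : Finset V) (S : Set (Tr V n)) {c : ℝ}
    (hc : c ≤ ∑ v ∈ F, G.degree v * (pl G n v).real S) :
    ENNReal.ofReal (1 - Real.exp (-(lam * c))) ≤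
      snLaw G lam {ω | ∃ v ∈ F, ∃ i < ω.1 v, traj n ω (v, i) ∈ S} := by
  classical
  have := snLaw_prob G lam hdeg
  have h1 : {ω : Om V | ∃ v ∈ F, ∃ i < ω.1 v, traj n ω (v, i) ∈ S} =
      {ω : Om V | ∀ v ∈ F, ∀ i < ω.1 v, traj n ω (v, i) ∉ S}ᶜ := by
    ext ω; simp
  have hEm : MeasurableSet {ω : Om V | ∀ v ∈ F, ∀ i < ω.1 v, traj n ω (v, i) ∉ S} := by
    have : {ω : Om V | ∀ v ∈ F, ∀ i < ω.1 v, traj n ω (v, i) ∉ S} =
        ⋂ v ∈ F, ⋂ i : ℕ, ({ω : Om V | ¬ i < ω.1 v} ∪ {ω : Om V | traj n ω (v, i) ∉ S}) := by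
      ext ω
      simp only [mem_ofPred_eq, mem_iInter, mem_union, ← imp_iff_not_or]
    rw [this]
    refine Finset.measurableSet_biInter _ fun v _ => MeasurableSet.iInter fun i => ?_
    refine MeasurableSet.union ?_ ?_
    · have h1 : Measurable fun ω : Om V => ω.1 v := by fun_prop
      exact h1 (MeasurableSet.of_discrete (s := {n | ¬ i < n}))
    · exact measurable_traj n (v, i) (MeasurableSet.of_discrete (s := {y | y ∉ S}))
  rw [h1, prob_compl_eq_one_sub hEm, void_traj G lam hdeg, ← ENNReal.ofReal_prod_of_nonneg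
    fun _ _ => (Real.exp_pos _).le, ← Real.exp_sum, ← ENNReal.ofReal_one,
    ← ENNReal.ofReal_sub _ (Real.exp_pos _).le]
  refine ENNReal.ofReal_le_ofReal (sub_le_sub_left (Real.exp_le_exp.2 ?_) 1)
  rw [Finset.sum_neg_distrib, neg_le_neg_iff]
  have h2 : ∑ v ∈ F, (lam : ℝ) * G.degree v * (pl G n v).real S =
      lam * ∑ v ∈ F, G.degree v * (pl G n v).real S := by
    rw [Finset.mul_sum]
    exact Finset.sum_congr rfl fun v _ => by ring
  rw [h2]
  exact mul_le_mul_of_nonneg_left hc lam.2

end

end MP7315a9
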