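import Pool.Agent.Lib.MP_7315a9_pr.Bern

/-!
# Bernoulli bond percolation and its critical parameter
-/

open MeasureTheory ProbabilityTheory Set Filter

namespace MP7315a9

noncomputable section

variable {V : Type*}

/-- The graph of the open edges of a bond configuration. -/
def openGraph (G : SimpleGraph V) (ω : G.edgeSet → Bool) : SimpleGraph V where
  Adj u v := ∃ h : G.Adj u v, ω ⟨s(u, v), h⟩ = true
  symm := ⟨fun u v ⟨h, h'⟩ => ⟨h.symm, by
    have : (⟨s(v, u), h.symm⟩ : G.edgeSet) = ⟨s(u, v), h⟩ := Subtype.ext Sym2.eq_swap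
    rw [this]; exact h'⟩⟩
  loopless := ⟨fun u ⟨h, _⟩ => G.loopless.irrefl u h⟩

/-- The graph has an infinite connected component. -/
def HasInf (H : SimpleGraph V) : Prop := ∃ v, {u | H.Reachable v u}.Infinite

/-- The critical parameter of Bernoulli bond percolation on `G`. -/
def pc (G : SimpleGraph V) : ℝ :=
  sInf {p : ℝ | ∃ h : p ∈ Icc (0 : ℝ) 1,
    bits (fun _ : G.edgeSet => (⟨p, h⟩ : unitInterval)) {ω | HasInf (openGraph G ω)} ≠ 0}

lemma openGraph_mono {G : SimpleGraph V} {ω ω' : G.edgeSet → Bool} (h : ω ≤ ω') :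
    openGraph G ω ≤ openGraph G ω' := by
  intro u v ⟨h1, h2⟩
  refine ⟨h1, ?_⟩
  have := h ⟨s(u, v), h1⟩
  rw [h2] at this
  exact top_le_iff.1 this

lemma HasInf.mono {H H' : SimpleGraph V} (h : H ≤ H') (hH : HasInf H) : HasInf H' := by
  obtain ⟨v, hv⟩ := hH
  exact ⟨v, hv.mono fun u (hu : H.Reachable v u) => hu.mono h⟩

/-- Vertices reachable in `n` steps. -/
def reachN (H : SimpleGraph V) (v : V) : ℕ → V → Prop
  | 0, u => u = v
  | n + 1, u => ∃ w, reachN H v n w ∧ H.Adj w u

lemma reachable_iff {H : SimpleGraph V} {v u : V} : H.Reachable v u ↔ ∃ n, reachN H v n u := by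
  constructor
  · intro h
    rw [SimpleGraph.reachable_iff_reflTransGen] at h
    induction h with
    | refl => exact ⟨0, rfl⟩
    | tail _ h2 ih =>
      obtain ⟨n, hn⟩ := ih
      exact ⟨n + 1, _, hn, h2⟩
  · rintro ⟨n, hn⟩
    induction n generalizing u with
    | zero => rw [show u = v from hn]
    | succ n ih =>
      obtain ⟨w, h1, h2⟩ := hn
      exact (ih h1).trans h2.reachable

lemma measurable_reachable {Ω : Type*} [MeasurableSpace Ω] [Countable V]
    {H : Ω → SimpleGraph V} (hH : ∀ u v, MeasurableSet {ω | (H ω).Adj u v}) (v u : V) :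
    MeasurableSet {ω | (H ω).Reachable v u} := by
  have h1 : ∀ n u, MeasurableSet {ω | reachN (H ω) v n u} := by
    intro n
    induction n with
    | zero =>
      intro u
      by_cases h : u = v
      · simp [reachN, h]
      · simp [reachN, h]
    | succ n ih =>
      intro u
      have : {ω | reachN (H ω) v (n + 1) u} =
          ⋃ w, ({ω | reachN (H ω) v n w} ∩ {ω | (H ω).Adj w u}) := by
        ext ω; simp [reachN]
      rw [this]
      exact MeasurableSet.iUnion fun w => (ih w).inter (hH w u)
  have : {ω | (H ω).Reachable v u} = ⋃ n, {ω | reachN (H ω) v n u} := by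
    ext ω; simp [reachable_iff]
  rw [this]
  exact MeasurableSet.iUnion fun n => h1 n u

lemma measurable_hasInf {Ω : Type*} [MeasurableSpace Ω] [Countable V]
    {H : Ω → SimpleGraph V} (hH : ∀ u v, MeasurableSet {ω | (H ω).Adj u v}) :
    MeasurableSet {ω | HasInf (H ω)} := by
  have : {ω | HasInf (H ω)} =
      ⋃ v, ⋂ F : Finset V, ⋃ u : {u // u ∉ F}, {ω | (H ω).Reachable v u} := by
    ext ω
    simp only [HasInf, mem_ofPred_eq, mem_iUnion, mem_iInter]
    refine exists_congr fun v => ?_
    constructor
    · intro h F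
      obtain ⟨u, hu, hF⟩ := h.exists_notMem_finset F
      exact ⟨⟨u, hF⟩, hu⟩
    · intro h hfin
      obtain ⟨u, hu⟩ := h hfin.toFinset
      exact u.2 (hfin.mem_toFinset.2 hu)
  rw [this]
  exact MeasurableSet.iUnion fun v => MeasurableSet.iInter fun F =>
    MeasurableSet.iUnion fun u => measurable_reachable hH _ _

lemma measurable_adj_open (G : SimpleGraph V) (u v : V) :
    MeasurableSet {ω : G.edgeSet → Bool | (openGraph G ω).Adj u v} := by
  by_cases h : G.Adj u v
  · have : {ω : G.edgeSet → Bool | (openGraph G ω).Adj u v} =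
        (fun ω => ω ⟨s(u, v), h⟩) ⁻¹' {true} := by
      ext ω; simp [openGraph, h]
    rw [this]
    exact (measurable_pi_apply _) (by trivial)
  · have : {ω : G.edgeSet → Bool | (openGraph G ω).Adj u v} = ∅ := by
      ext ω; simp [openGraph, h]
    rw [this]; exact MeasurableSet.empty

lemma measurable_inf_open [Countable V] (G : SimpleGraph V) :
    MeasurableSet {ω : G.edgeSet → Bool | HasInf (openGraph G ω)} :=
  measurable_hasInf (measurable_adj_open G)

/-- Removing finitely many edges does not destroy the infinite components. -/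
lemma hasInf_of_finite {H H' : SimpleGraph V} {T : Set V} (hT : T.Finite)
    (h : ∀ u v, H.Adj u v → H'.Adj u v ∨ v ∈ T) (hH : HasInf H) : HasInf H' := by
  obtain ⟨v, hv⟩ := hH
  by_contra hcon
  have hfin : ∀ x, {u | H'.Reachable x u}.Finite := by
    intro x
    by_contra hx
    exact hcon ⟨x, hx⟩
  apply hv
  refine ((hT.insert v).biUnion fun x _ => hfin x).subset ?_
  intro u hu
  have hu' : H.Reachable v u := hu
  rw [SimpleGraph.reachable_iff_reflTransGen] at hu'
  induction hu' with
  | refl => exact mem_biUnion (mem_insert v T) (SimpleGraph.Reachable.refl v)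
  | @tail a b h1 h2 ih =>
    rw [mem_iUnion₂] at ih
    obtain ⟨x, hx, hxa⟩ := ih (SimpleGraph.reachable_iff_reflTransGen _ _ |>.2 h1)
    rcases h _ _ h2 with h3 | h3
    · exact mem_biUnion hx (SimpleGraph.Reachable.trans hxa h3.reachable)
    · exact mem_biUnion (mem_insert_of_mem v h3) (SimpleGraph.Reachable.refl b)

/-- The 0-1 law for the existence of an infinite cluster. -/
lemma zero_one [Countable V] (G : SimpleGraph V) (r : G.edgeSet → unitInterval) :
    bits r {ω | HasInf (openGraph G ω)} = 0 ∨ bits r {ω | HasInf (openGraph G ω)} = 1 := by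
  classical
  set A : Set (G.edgeSet → Bool) := {ω | HasInf (openGraph G ω)} with hA
  have hAm : MeasurableSet A := measurable_inf_open G
  let s : G.edgeSet → MeasurableSpace (G.edgeSet → Bool) :=
    fun e => MeasurableSpace.comap (fun ω => ω e) inferInstance
  have hind : iIndep s (bits r) := by
    have := iIndepFun_infinitePi (P := fun k => bern (r k)) (X := fun _ (b : Bool) => b)
      (fun _ => measurable_id)
    exact this
  refine measure_zero_or_one_of_measurableSet_limsup (p := Set.Finite) (f := cofinite)
    (ns := fun F : Finset G.edgeSet => (F : Set G.edgeSet)) (s := s)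
    (fun e => measurable_iff_comap_le.1 (measurable_pi_apply e)) hind ?_ ?_ ?_ ?_ ?_
  · intro t ht
    exact ht.compl_mem_cofinite
  · exact Monotone.directed_le fun F F' h => Finset.coe_subset.2 h
  · intro F; exact F.finite_toSet
  · intro e; exact ⟨{e}, by simp⟩
  · rw [hasBasis_cofinite.limsup_eq_iInf_iSup]
    simp only [MeasurableSpace.measurableSet_iInf]
    intro t ht
    let f : (G.edgeSet → Bool) → (G.edgeSet → Bool) := fun ω e => if e ∈ t then false else ω e
    have hf : @Measurable _ _ (⨆ a ∈ tᶜ, s a) MeasurableSpace.pi f := by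
      rw [@measurable_pi_iff]
      intro e
      by_cases he : e ∈ t
      · simp only [f, he, if_true]
        exact @measurable_const _ _ _ (_) _
      · simp only [f, he, if_false]
        have h1 : s e ≤ ⨆ a ∈ tᶜ, s a := le_iSup₂_of_le e he le_rfl
        exact (measurable_iff_comap_le.2 (le_refl (s e))).mono h1 le_rfl
    have hfA : f ⁻¹' A = A := by
      ext ω
      constructor
      · intro h
        refine HasInf.mono (openGraph_mono ?_) (h : HasInf (openGraph G (f ω)))
        intro e
        by_cases he : e ∈ t <;> simp [f, he]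
      · intro h
        refine hasInf_of_finite (T := ⋃ e ∈ t, {v | v ∈ (e : Sym2 V)}) ?_ ?_
          (h : HasInf (openGraph G ω))
        · refine ht.biUnion fun e _ => ?_
          have : {v | v ∈ (e : Sym2 V)} = ((e : Sym2 V).toFinset : Set V) := by
            ext v; simp
          rw [this]; exact Finset.finite_toSet _
        · rintro u v ⟨h1, h2⟩
          by_cases he : (⟨s(u, v), h1⟩ : G.edgeSet) ∈ t
          · right
            exact mem_biUnion he (by simp)
          · left
            exact ⟨h1, by simpa [f, he] using h2⟩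
    rw [← hfA]
    exact hf hAm

lemma bits_one {K : Type*} : bits (fun _ : K => (⟨1, ⟨zero_le_one, le_rfl⟩⟩ : unitInterval)) =
    Measure.dirac fun _ => true := by
  have : bern (⟨1, ⟨zero_le_one, le_rfl⟩⟩ : unitInterval) = Measure.dirac true := by
    simp [bern]
  unfold bits
  simp only [this]
  exact Measure.infinitePi_dirac fun _ : K => true

/-- Above the critical parameter there is an infinite cluster almost surely. -/
lemma supercritical [Countable V] {G : SimpleGraph V} (hG : HasInf G)
    {r : G.edgeSet → unitInterval} {p : unitInterval} (hp : pc G < p) (hr : ∀ e, p ≤ r e) :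
    ∀ᵐ ω ∂(bits r), HasInf (openGraph G ω) := by
  have hne : {p : ℝ | ∃ h : p ∈ Icc (0 : ℝ) 1,
      bits (fun _ : G.edgeSet => (⟨p, h⟩ : unitInterval))
        {ω | HasInf (openGraph G ω)} ≠ 0}.Nonempty := by
    refine ⟨1, ⟨zero_le_one, le_rfl⟩, ?_⟩
    rw [bits_one]
    rw [Measure.dirac_apply' _ (measurable_inf_open G)]
    have : (fun _ => true) ∈ {ω : G.edgeSet → Bool | HasInf (openGraph G ω)} := by
      refine HasInf.mono ?_ hG
      intro u v h
      exact ⟨h, rfl⟩
    simp [indicator_of_mem this]
  obtain ⟨p', ⟨h1, h2⟩, h3⟩ := exists_lt_of_csInf_lt hne hp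
  have h4 : bits (fun _ : G.edgeSet => (⟨p', h1⟩ : unitInterval)) {ω | HasInf (openGraph G ω)} ≤
      bits r {ω | HasInf (openGraph G ω)} := by
    refine bits_mono (fun e => le_trans ?_ (hr e)) (measurable_inf_open G) ?_
    · exact Subtype.coe_le_coe.1 h3.le
    · intro b b' hb h; exact HasInf.mono (openGraph_mono hb) h
  have h5 : bits r {ω | HasInf (openGraph G ω)} = 1 := by
    rcases zero_one G r with h | h
    · exact absurd (le_antisymm (h4.trans h.le) bot_le) h2
    · exact h
  rw [ae_iff]
  have := prob_compl_eq_zero_iff (μ := bits r) (measurable_inf_open G)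
  exact this.2 h5

/-- Below the critical parameter there is no infinite cluster almost surely. -/
lemma subcritical [Countable V] {G : SimpleGraph V} {r : G.edgeSet → unitInterval}
    {p : unitInterval} (hp : (p : ℝ) < pc G) (hr : ∀ e, r e ≤ p) :
    ∀ᵐ ω ∂(bits r), ¬ HasInf (openGraph G ω) := by
  have h1 : bits (fun _ : G.edgeSet => p) {ω | HasInf (openGraph G ω)} = 0 := by
    by_contra h
    have : pc G ≤ p := csInf_le ⟨0, fun x hx => hx.1.1⟩ ⟨p.2, h⟩
    exact absurd hp (not_lt.2 this)
  have h2 : bits r {ω | HasInf (openGraph G ω)} ≤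
      bits (fun _ : G.edgeSet => p) {ω | HasInf (openGraph G ω)} :=
    bits_mono hr (measurable_inf_open G) fun b b' hb h => HasInf.mono (openGraph_mono hb) h
  rw [ae_iff]
  simp only [not_not]
  exact le_antisymm (h2.trans h1.le) bot_le

end

end MP7315a9
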