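import Pool.Agent.Lib.MP_7315a9_pr.PlaneMain

/-!
# Periodic graphs have harmonic maps to the plane
-/

open MeasureTheory ProbabilityTheory Set Filter

namespace MP7315a9

noncomputable section

section general

variable {V : Type*} {G : SimpleGraph V} [G.LocallyFinite]

/-- Positivity of the transition probabilities along walks. -/
lemma pr_walk_pos (hdeg : ∀ v, 0 < G.degree v) {x y : V} (p : G.Walk x y) :
    ∀ n, p.length ≤ n → 0 < (Pr G)^[n] (dl y) x := by
  have hhalf : ∀ (n : ℕ) (z w : V), 1 / 2 * (Pr G)^[n] (dl w) z ≤ (Pr G)^[n + 1] (dl w) z := by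
    intro n z w
    rw [Function.iterate_succ_apply', Pr]
    have : 0 ≤ ∑ y ∈ G.neighborFinset z, 1 / (2 * (G.degree z : ℝ)) * (Pr G)^[n] (dl w) y :=
      Finset.sum_nonneg fun y _ => mul_nonneg (by positivity)
        (Pr_iter_nonneg hdeg (dl_nonneg w) n y)
    linarith
  induction p with
  | @nil u =>
    intro n _
    induction n with
    | zero => simp [dl]
    | succ n ih =>
      have := hhalf n u u
      linarith [ih (Nat.zero_le _)]
  | @cons u v w h p ih =>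
    intro n hn
    rw [SimpleGraph.Walk.length_cons] at hn
    obtain ⟨m, rfl⟩ : ∃ m, n = m + 1 := ⟨n - 1, by omega⟩
    have h1 := ih m (by omega)
    rw [Function.iterate_succ_apply', Pr]
    have h2 : 0 ≤ (Pr G)^[m] (dl w) u := Pr_iter_nonneg hdeg (dl_nonneg w) m u
    have h3 : 1 / (2 * (G.degree u : ℝ)) * (Pr G)^[m] (dl w) v ≤
        ∑ y ∈ G.neighborFinset u, 1 / (2 * (G.degree u : ℝ)) * (Pr G)^[m] (dl w) y :=
      Finset.single_le_sum (f := fun y => 1 / (2 * (G.degree u : ℝ)) * (Pr G)^[m] (dl w) y)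
        (fun y _ => mul_nonneg (by positivity) (Pr_iter_nonneg hdeg (dl_nonneg w) m y))
        ((G.mem_neighborFinset u v).2 h)
    have h4 : (0 : ℝ) < G.degree u := by exact_mod_cast hdeg u
    have h5 : 0 < 1 / (2 * (G.degree u : ℝ)) * (Pr G)^[m] (dl w) v := by positivity
    linarith

end general

variable {Γ : Type*} [Group Γ] {I : Type*} {G : SimpleGraph (Γ × I)} [G.LocallyFinite]

/-- Translation. -/
def sh (g : Γ) (x : Γ × I) : Γ × I := (g * x.1, x.2)

/-- The graph is invariant under the translations. -/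
def Inv (G : SimpleGraph (Γ × I)) : Prop := ∀ (g : Γ) (x y : Γ × I), G.Adj (sh g x) (sh g y) ↔ G.Adj x y

lemma sh_sh (g h : Γ) (x : Γ × I) : sh g (sh h x) = sh (g * h) x := by
  simp [sh, mul_assoc]

lemma sh_one (x : Γ × I) : sh 1 x = x := by simp [sh]

lemma sh_inj (g : Γ) : Function.Injective (sh g : Γ × I → Γ × I) := by
  intro x y h
  have := congrArg (sh g⁻¹) h
  simpa [sh_sh, sh_one] using this

lemma nb_sh (hG : Inv G) (g : Γ) (x : Γ × I) :
    G.neighborFinset (sh g x) = (G.neighborFinset x).map ⟨sh g, sh_inj g⟩ := by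
  ext y
  simp only [SimpleGraph.mem_neighborFinset, Finset.mem_map, Function.Embedding.coeFn_mk]
  constructor
  · intro h
    refine ⟨sh g⁻¹ y, ?_, by simp [sh_sh, sh_one]⟩
    rw [← hG g]
    simpa [sh_sh, sh_one] using h
  · rintro ⟨z, hz, rfl⟩
    exact (hG g x z).2 hz

lemma deg_sh (hG : Inv G) (g : Γ) (x : Γ × I) : G.degree (sh g x) = G.degree x := by
  rw [← SimpleGraph.card_neighborFinset_eq_degree, nb_sh hG, Finset.card_map,
    SimpleGraph.card_neighborFinset_eq_degree]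

lemma Pr_sh (hG : Inv G) (g : Γ) (f : Γ × I → ℝ) (x : Γ × I) :
    Pr G f (sh g x) = Pr G (fun y => f (sh g y)) x := by
  rw [Pr, Pr, nb_sh hG, deg_sh hG, Finset.sum_map]
  rfl

lemma Pr_iter_sh (hG : Inv G) (g : Γ) (f : Γ × I → ℝ) (n : ℕ) (x : Γ × I) :
    (Pr G)^[n] f (sh g x) = (Pr G)^[n] (fun y => f (sh g y)) x := by
  induction n generalizing x with
  | zero => rfl
  | succ n ih =>
    rw [Function.iterate_succ_apply', Function.iterate_succ_apply', Pr_sh hG]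
    congr 1
    funext y
    exact ih y

variable [Fintype I]

/-- The mass transport principle. -/
lemma transport (hG : Inv G) (f : Γ × I → Γ × I → ℝ)
    (hf : ∀ g x y, f (sh g x) (sh g y) = f x y) :
    ∑ i, ∑ y ∈ G.neighborFinset (1, i), f (1, i) y =
      ∑ i, ∑ y ∈ G.neighborFinset (1, i), f y (1, i) := by
  classical
  rw [Finset.sum_sigma', Finset.sum_sigma']
  have key : ∀ (i j : I) (γ : Γ), G.Adj (1, i) (γ, j) → G.Adj (1, j) (γ⁻¹, i) := by
    intro i j γ h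
    have h1 := (hG γ⁻¹ (1, i) (γ, j)).2 h
    simp only [sh, mul_one, inv_mul_cancel] at h1
    exact h1.symm
  refine Finset.sum_nbij' (fun p => ⟨p.2.2, (p.2.1⁻¹, p.1)⟩) (fun p => ⟨p.2.2, (p.2.1⁻¹, p.1)⟩)
    ?_ ?_ ?_ ?_ ?_
  · rintro ⟨i, ⟨γ, j⟩⟩ h
    simp only [Finset.mem_sigma, Finset.mem_univ, true_and, SimpleGraph.mem_neighborFinset] at h ⊢
    exact key i j γ h
  · rintro ⟨i, ⟨γ, j⟩⟩ h
    simp only [Finset.mem_sigma, Finset.mem_univ, true_and, SimpleGraph.mem_neighborFinset] at h ⊢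
    exact key i j γ h
  · rintro ⟨i, ⟨γ, j⟩⟩ _
    simp
  · rintro ⟨i, ⟨γ, j⟩⟩ _
    simp
  · rintro ⟨i, ⟨γ, j⟩⟩ _
    have := hf γ⁻¹ (1, i) (γ, j)
    simp only [sh, mul_one, inv_mul_cancel] at this
    exact this.symm

/-- Green's identity. -/
lemma green (hG : Inv G) (ψ : I → ℝ) (u : Γ × I → ℝ)
    (hu : ∀ g x y, u (sh g y) - u (sh g x) = u y - u x) :
    ∑ i, ψ i * ∑ y ∈ G.neighborFinset (1, i), (u y - u (1, i)) =
      -(1 / 2) * ∑ i, ∑ y ∈ G.neighborFinset (1, i), (ψ y.2 - ψ i) * (u y - u (1, i)) := by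
  have h1 := transport hG (fun x y => ψ x.2 * (u y - u x)) (fun g x y => by
    show ψ x.2 * (u (sh g y) - u (sh g x)) = _
    rw [hu])
  simp only at h1
  have h2 : ∑ i, ψ i * ∑ y ∈ G.neighborFinset (1, i), (u y - u (1, i)) =
      ∑ i, ∑ y ∈ G.neighborFinset (1, i), ψ i * (u y - u (1, i)) := by
    simp only [Finset.mul_sum]
  have h3 : ∑ i, ∑ y ∈ G.neighborFinset (1, i), (ψ y.2 - ψ i) * (u y - u (1, i)) =
      -(∑ i, ∑ y ∈ G.neighborFinset (1, i), ψ y.2 * (u (1, i) - u y)) -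
        ∑ i, ∑ y ∈ G.neighborFinset (1, i), ψ i * (u y - u (1, i)) := by
    rw [← Finset.sum_neg_distrib, ← Finset.sum_sub_distrib]
    refine Finset.sum_congr rfl fun i _ => ?_
    rw [← Finset.sum_neg_distrib, ← Finset.sum_sub_distrib]
    refine Finset.sum_congr rfl fun y _ => ?_
    ring
  rw [h3, ← h1, h2]
  ring

/-- The corrector. -/
lemma corrector (hG : Inv G) (u : Γ × I → ℝ)
    (hu : ∀ g x y, u (sh g y) - u (sh g x) = u y - u x) :
    ∃ φ : I → ℝ, ∀ i, ∑ y ∈ G.neighborFinset (1, i), ((u y + φ y.2) - (u (1, i) + φ i)) = 0 := by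
  classical
  let L : (I → ℝ) →ₗ[ℝ] (I → ℝ) :=
    { toFun := fun φ i => ∑ y ∈ G.neighborFinset (1, i), (φ y.2 - φ i)
      map_add' := fun φ ψ => by
        funext i
        simp only [Pi.add_apply, ← Finset.sum_add_distrib]
        exact Finset.sum_congr rfl fun y _ => by ring
      map_smul' := fun c φ => by
        funext i
        simp only [Pi.smul_apply, smul_eq_mul, RingHom.id_apply, Finset.mul_sum]
        exact Finset.sum_congr rfl fun y _ => by ring }
  let ρ : I → ℝ := fun i => -∑ y ∈ G.neighborFinset (1, i), (u y - u (1, i))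
  have hρ : ρ ∈ LinearMap.range L := by
    by_contra hcon
    obtain ⟨F, hF1, hF2⟩ := Submodule.exists_le_ker_of_notMem hcon
    let ψ : I → ℝ := fun i => F (Pi.single i 1)
    have hFψ : ∀ φ : I → ℝ, F φ = ∑ i, ψ i * φ i := by
      intro φ
      have h1 : φ = ∑ i, φ i • (Pi.single i (1 : ℝ) : I → ℝ) := by
        funext j
        simp [Finset.sum_apply, Pi.single_apply]
      conv_lhs => rw [h1]
      rw [map_sum]
      refine Finset.sum_congr rfl fun i _ => ?_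
      rw [map_smul, smul_eq_mul, mul_comm]
    have h1 : F (L ψ) = 0 := LinearMap.mem_ker.1 (hF2 (LinearMap.mem_range_self L ψ))
    rw [hFψ] at h1
    have h2 := green hG ψ (fun x => ψ x.2) (fun g x y => by simp [sh])
    have h3 : ∑ i, ∑ y ∈ G.neighborFinset (1, i), (ψ y.2 - ψ i) * (ψ y.2 - ψ i) = 0 := by
      have h4 : ∑ i, ψ i * ∑ y ∈ G.neighborFinset (1, i), (ψ y.2 - ψ i) = 0 := h1
      simp only at h2
      rw [h4] at h2
      linarith
    have h4 : ∀ i, ∀ y ∈ G.neighborFinset (1, i), ψ y.2 - ψ i = 0 := by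
      intro i y hy
      have h5 := (Finset.sum_eq_zero_iff_of_nonneg (fun i _ => Finset.sum_nonneg fun y _ =>
        mul_self_nonneg _)).1 h3 i (Finset.mem_univ i)
      have h6 := (Finset.sum_eq_zero_iff_of_nonneg (fun y _ => mul_self_nonneg _)).1 h5 y hy
      exact mul_self_eq_zero.1 h6
    apply hF1
    rw [hFψ]
    have h5 := green hG ψ u hu
    have h6 : ∑ i, ∑ y ∈ G.neighborFinset (1, i), (ψ y.2 - ψ i) * (u y - u (1, i)) = 0 := by
      refine Finset.sum_eq_zero fun i _ => Finset.sum_eq_zero fun y hy => ?_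
      rw [h4 i y hy, zero_mul]
    rw [h6, mul_zero] at h5
    show ∑ i, ψ i * -∑ y ∈ G.neighborFinset (1, i), (u y - u (1, i)) = 0
    simp only [mul_neg, Finset.sum_neg_distrib]
    rw [h5, neg_zero]
  obtain ⟨φ, hφ⟩ := hρ
  refine ⟨φ, fun i => ?_⟩
  have h1 := congrFun hφ i
  have h2 : ∑ y ∈ G.neighborFinset (1, i), (φ y.2 - φ i) =
      -∑ y ∈ G.neighborFinset (1, i), (u y - u (1, i)) := h1
  have h3 : ∑ y ∈ G.neighborFinset (1, i), ((u y + φ y.2) - (u (1, i) + φ i)) =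
      ∑ y ∈ G.neighborFinset (1, i), (u y - u (1, i)) +
        ∑ y ∈ G.neighborFinset (1, i), (φ y.2 - φ i) := by
    rw [← Finset.sum_add_distrib]
    exact Finset.sum_congr rfl fun y _ => by ring
  rw [h3, h2]
  ring

omit [Fintype I] in
lemma harm_all [Finite I] (hG : Inv G) (F : Γ × I → ℝ)
    (hF : ∀ g x y, F (sh g y) - F (sh g x) = F y - F x)
    (h : ∀ i, ∑ y ∈ G.neighborFinset (1, i), (F y - F (1, i)) = 0) (x : Γ × I) :
    ∑ y ∈ G.neighborFinset x, (F y - F x) = 0 := by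
  obtain ⟨g, i⟩ := x
  have e : (g, i) = sh g (1, i) := by simp [sh]
  rw [e, nb_sh hG, Finset.sum_map]
  simp only [Function.Embedding.coeFn_mk, hF]
  exact h i

/-- **Periodic graphs.** -/
theorem periodic_map (hG : Inv G) (hconn : G.Connected) (π : Γ →* Multiplicative (ℤ × ℤ))
    (hπ : Function.Surjective π) :
    ∃ (F1 F2 : Γ × I → ℝ) (b ε : ℝ) (T0 : ℕ), PlaneMap G F1 F2 b ε T0 := by
  classical
  obtain ⟨g1, hg1⟩ := hπ (Multiplicative.ofAdd (1, 0))
  obtain ⟨g2, hg2⟩ := hπ (Multiplicative.ofAdd (0, 1))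
  obtain ⟨x0⟩ := hconn.nonempty
  have hI : Nonempty I := ⟨x0.2⟩
  have hnt : Nontrivial (Γ × I) := by
    refine ⟨(1, x0.2), (g1, x0.2), fun h => ?_⟩
    have h1 : (1 : Γ) = g1 := congrArg Prod.fst h
    rw [← h1, map_one] at hg1
    have h2 : (0 : ℤ × ℤ) = (1, 0) := hg1
    have h3 : (0 : ℤ) = 1 := congrArg Prod.fst h2
    omega
  have hdeg : ∀ v, 0 < G.degree v := fun v => hconn.preconnected.degree_pos_of_nontrivial v
  let u1 : Γ × I → ℝ := fun x => ((Multiplicative.toAdd (π x.1)).1 : ℝ)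
  let u2 : Γ × I → ℝ := fun x => ((Multiplicative.toAdd (π x.1)).2 : ℝ)
  have hu1 : ∀ g x y, u1 (sh g y) - u1 (sh g x) = u1 y - u1 x := by
    intro g x y; simp [u1, sh]
  have hu2 : ∀ g x y, u2 (sh g y) - u2 (sh g x) = u2 y - u2 x := by
    intro g x y; simp [u2, sh]
  obtain ⟨φ1, hφ1⟩ := corrector hG u1 hu1
  obtain ⟨φ2, hφ2⟩ := corrector hG u2 hu2
  let F1 : Γ × I → ℝ := fun x => u1 x + φ1 x.2
  let F2 : Γ × I → ℝ := fun x => u2 x + φ2 x.2
  have hF1 : ∀ g x y, F1 (sh g y) - F1 (sh g x) = F1 y - F1 x := by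
    intro g x y; simp [F1, u1, sh]; ring
  have hF2 : ∀ g x y, F2 (sh g y) - F2 (sh g x) = F2 y - F2 x := by
    intro g x y; simp [F2, u2, sh]; ring
  -- bounded increments
  have hbd : ∀ F : Γ × I → ℝ, (∀ g x y, F (sh g y) - F (sh g x) = F y - F x) →
      ∀ x y, G.Adj x y → |F y - F x| ≤ ∑ i, ∑ y ∈ G.neighborFinset (1, i), |F y - F (1, i)| := by
    intro F hF x y hxy
    have h1 := hF x.1⁻¹ x y
    have e1 : sh x.1⁻¹ x = (1, x.2) := by simp [sh]
    rw [e1] at h1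
    rw [← h1]
    have h2 : sh x.1⁻¹ y ∈ G.neighborFinset (1, x.2) := by
      rw [SimpleGraph.mem_neighborFinset, ← e1]
      exact (hG _ x y).2 hxy
    calc |F (sh x.1⁻¹ y) - F (1, x.2)|
        ≤ ∑ y ∈ G.neighborFinset (1, x.2), |F y - F (1, x.2)| :=
          Finset.single_le_sum (f := fun y => |F y - F (1, x.2)|) (fun y _ => abs_nonneg _) h2
      _ ≤ _ := Finset.single_le_sum
          (f := fun i => ∑ y ∈ G.neighborFinset (1, i), |F y - F (1, i)|)
          (fun i _ => Finset.sum_nonneg fun y _ => abs_nonneg _) (Finset.mem_univ x.2)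
  set b1 : ℝ := ∑ i, ∑ y ∈ G.neighborFinset (1, i), |F1 y - F1 (1, i)| with hb1
  set b2 : ℝ := ∑ i, ∑ y ∈ G.neighborFinset (1, i), |F2 y - F2 (1, i)| with hb2
  have hb1' : 0 ≤ b1 := Finset.sum_nonneg fun i _ => Finset.sum_nonneg fun y _ => abs_nonneg _
  have hb2' : 0 ≤ b2 := Finset.sum_nonneg fun i _ => Finset.sum_nonneg fun y _ => abs_nonneg _
  -- the time
  have hw1 : ∀ i : I, ∃ n : ℕ, ∀ m ≥ n, 0 < (Pr G)^[m] (dl (g1, i)) (1, i) := by
    intro i
    obtain ⟨p⟩ := hconn.preconnected (1, i) (g1, i)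
    exact ⟨p.length, pr_walk_pos hdeg p⟩
  have hw2 : ∀ i : I, ∃ n : ℕ, ∀ m ≥ n, 0 < (Pr G)^[m] (dl (g2, i)) (1, i) := by
    intro i
    obtain ⟨p⟩ := hconn.preconnected (1, i) (g2, i)
    exact ⟨p.length, pr_walk_pos hdeg p⟩
  choose n1 hn1 using hw1
  choose n2 hn2 using hw2
  set T0 : ℕ := 1 + ∑ i, (n1 i + n2 i) with hT0
  have hT : ∀ i, n1 i ≤ T0 ∧ n2 i ≤ T0 := by
    intro i
    have := Finset.single_le_sum (f := fun i => n1 i + n2 i) (fun i _ => Nat.zero_le _)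
      (Finset.mem_univ i)
    omega
  -- the ellipticity constant
  obtain ⟨ε, hε, hε1⟩ : ∃ ε > 0, ∀ i : I, ε ≤ (Pr G)^[T0] (dl (g1, i)) (1, i) ∧
      ε ≤ (Pr G)^[T0] (dl (g2, i)) (1, i) := by
    obtain ⟨i0, hi0⟩ := Finite.exists_min fun i : I =>
      min ((Pr G)^[T0] (dl (g1, i)) (1, i)) ((Pr G)^[T0] (dl (g2, i)) (1, i))
    refine ⟨min ((Pr G)^[T0] (dl (g1, i0)) (1, i0)) ((Pr G)^[T0] (dl (g2, i0)) (1, i0)),
      lt_min (hn1 i0 T0 (hT i0).1) (hn2 i0 T0 (hT i0).2), fun i => ?_⟩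
    exact ⟨(hi0 i).trans (min_le_left _ _), (hi0 i).trans (min_le_right _ _)⟩
  have hne : g1 ≠ g2 := by
    intro h
    rw [h, hg2] at hg1
    have h2 : ((0, 1) : ℤ × ℤ) = (1, 0) := hg1
    have h3 : (0 : ℤ) = 1 := congrArg Prod.fst h2
    omega
  refine ⟨F1, F2, b1 + b2 + 1, ε, T0, ⟨hdeg, ?_, ?_, ?_, ?_, ?_, by positivity, hε, by omega⟩⟩
  · intro x y hxy
    have := hbd F1 hF1 x y hxy
    linarith
  · intro x y hxy
    have := hbd F2 hF2 x y hxy
    linarith
  · exact harm_all hG F1 hF1 fun i => hφ1 i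
  · exact harm_all hG F2 hF2 fun i => hφ2 i
  · intro x v1 v2
    have e : x = sh x.1 (1, x.2) := by simp [sh]
    have h1 : (Pr G)^[T0] (fun y => (v1 * (F1 y - F1 x) + v2 * (F2 y - F2 x)) ^ 2) x =
        (Pr G)^[T0] (fun y => (v1 * (F1 y - F1 (1, x.2)) + v2 * (F2 y - F2 (1, x.2))) ^ 2)
          (1, x.2) := by
      have h2 := Pr_iter_sh hG x.1 (fun y => (v1 * (F1 y - F1 x) + v2 * (F2 y - F2 x)) ^ 2) T0
        (1, x.2)
      rw [← e] at h2
      rw [h2]
      refine congrArg (fun f => (Pr G)^[T0] f (1, x.2)) (funext fun y => ?_)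
      have h3 := hF1 x.1 (1, x.2) y
      have h4 := hF2 x.1 (1, x.2) y
      rw [← e] at h3 h4
      rw [h3, h4]
    rw [h1]
    have h2 : ∀ y, v1 ^ 2 * dl (g1, x.2) y + v2 ^ 2 * dl (g2, x.2) y ≤
        (v1 * (F1 y - F1 (1, x.2)) + v2 * (F2 y - F2 (1, x.2))) ^ 2 := by
      intro y
      by_cases hy1 : y = (g1, x.2)
      · have hy2 : y ≠ (g2, x.2) := by
          rw [hy1]
          intro h
          exact hne (congrArg Prod.fst h)
        have e1 : F1 y - F1 (1, x.2) = 1 := by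
          rw [hy1]; simp [F1, u1, hg1]
        have e2 : F2 y - F2 (1, x.2) = 0 := by
          rw [hy1]; simp [F2, u2, hg1]
        rw [e1, e2]
        simp [dl, hy1, hne]
      · by_cases hy2 : y = (g2, x.2)
        · have e1 : F1 y - F1 (1, x.2) = 0 := by
            rw [hy2]; simp [F1, u1, hg2]
          have e2 : F2 y - F2 (1, x.2) = 1 := by
            rw [hy2]; simp [F2, u2, hg2]
          rw [e1, e2]
          simp [dl, hy2, Ne.symm hne]
        · simp only [dl, hy1, hy2, if_false, mul_zero, add_zero]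
          positivity
    have h3 := Pr_iter_mono (G := G) h2 T0 (1, x.2)
    rw [Pr_iter_add, Pr_iter_mul, Pr_iter_mul] at h3
    obtain ⟨h4, h5⟩ := hε1 x.2
    have h6 : v1 ^ 2 * ε ≤ v1 ^ 2 * (Pr G)^[T0] (dl (g1, x.2)) (1, x.2) :=
      mul_le_mul_of_nonneg_left h4 (sq_nonneg _)
    have h7 : v2 ^ 2 * ε ≤ v2 ^ 2 * (Pr G)^[T0] (dl (g2, x.2)) (1, x.2) :=
      mul_le_mul_of_nonneg_left h5 (sq_nonneg _)
    linarith

end

end MP7315a9
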