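import Pool.Agent.Lib.MP_7315a9_pr.HeatK

/-!
# Infinite classes for every intensity on graphs with a harmonic map to the plane
-/

open MeasureTheory ProbabilityTheory Set Filter

namespace MP7315a9

noncomputable section

variable {V : Type*} {G : SimpleGraph V} [G.LocallyFinite] {F1 F2 : V → ℝ} {b ε : ℝ} {T0 : ℕ}

/-- The product functional: start in `Λ`, be in `Q` at the times in `W`, be at `a` at time `s`. -/
def hh (Λ Q : Set V) (W : Finset ℕ) (s : ℕ) (a : V) (j : ℕ) (x : V) : ENNReal :=
  open Classical in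
  (if j = 0 then Λ.indicator 1 x else 1) * (if j ∈ W then Q.indicator 1 x else 1) *
    (if j = s then (if x = a then 1 else 0) else 1)

lemma indE_le (A : Set V) (x : V) : A.indicator (1 : V → ENNReal) x ≤ 1 :=
  indicator_le_self' (fun _ _ => zero_le_one) x

lemma hh_le_one (Λ Q : Set V) (W : Finset ℕ) (s : ℕ) (a : V) (j : ℕ) (x : V) :
    hh Λ Q W s a j x ≤ 1 := by
  classical
  unfold hh
  refine mul_le_one' (mul_le_one' ?_ ?_) ?_
  · split_ifs
    · exact indE_le _ _
    · exact le_rfl
  · split_ifs
    · exact indE_le _ _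
    · exact le_rfl
  · split_ifs <;> simp

lemma prod_hh_le {n : ℕ} (Λ Q : Set V) (W : Finset ℕ) {N : ℕ} (hW : ∀ j ∈ W, j < n + 1)
    (hc : N ≤ W.card) {K : Set (Tr V n)} (hK : ∀ γ : Tr V n, N ≤
      (open Classical in (Finset.univ.filter fun j => γ j ∈ Q).card) → γ ∈ K)
    (γ γ' : Tr V n) (s : Fin (n + 1)) :
    ∏ j : Fin (n + 1), hh Λ Q W s (γ s) j (γ' j) ≤
      (open Classical in if γ' 0 ∈ Λ ∧ γ' ∈ K then 1 else 0) * co γ s γ' := by
  classical
  by_cases h : ∀ j : Fin (n + 1), hh Λ Q W s (γ s) j (γ' j) ≠ 0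
  · have h0 : γ' 0 ∈ Λ := by
      by_contra hcon
      apply h 0
      simp [hh, hcon]
    have h1 : γ' s = γ s := by
      by_contra hcon
      apply h s
      simp [hh, hcon]
    have h2 : γ' ∈ K := by
      refine hK γ' (hc.trans ?_)
      have h3 : W ⊆ (Finset.univ.filter fun j => γ' j ∈ Q).image (fun j : Fin (n + 1) => (j : ℕ)) := by
        intro j hj
        rw [Finset.mem_image]
        refine ⟨⟨j, hW j hj⟩, ?_, rfl⟩
        rw [Finset.mem_filter]
        refine ⟨Finset.mem_univ _, ?_⟩
        by_contra hcon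
        apply h ⟨j, hW j hj⟩
        simp [hh, hcon, hj]
      exact (Finset.card_le_card h3).trans Finset.card_image_le
    have h4 : co γ s γ' = 1 := by simp [co, h1]
    rw [if_pos ⟨h0, h2⟩, h4, mul_one]
    exact Finset.prod_le_one' fun j _ => hh_le_one _ _ _ _ _ _ _
  · push Not at h
    obtain ⟨j, hj⟩ := h
    rw [Finset.prod_eq_zero (Finset.mem_univ j) hj]
    exact zero_le

lemma ofReal_ind (A : Set V) (x : V) :
    ENNReal.ofReal (A.indicator (1 : V → ℝ) x) = A.indicator (1 : V → ENNReal) x := by
  by_cases h : x ∈ A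
  · simp [h]
  · simp [h]

/-- The forward value of staying in `Q`. -/
lemma U_st (hdeg : ∀ v, 0 < G.degree v) (Q : Set V) (k : ℕ) (h : ℕ → V → ENNReal)
    (hh : ∀ j ≤ k, ∀ x, h j x = Q.indicator 1 x) (x : V) :
    U G k h x = ENNReal.ofReal (st G Q k x) := by
  induction k generalizing h x with
  | zero =>
    rw [U, hh 0 le_rfl, st, ofReal_ind]
  | succ k ih =>
    have h1 : (U G k fun j => h (j + 1)) = fun x => ENNReal.ofReal (st G Q k x) := by
      funext y
      exact ih (fun j => h (j + 1)) (fun j hj y => hh (j + 1) (by omega) y) y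
    rw [U, h1, hh 0 (by omega), Pe_ofReal (st_nonneg hdeg Q k)]
    by_cases hx : x ∈ Q
    · simp [st, hx]
    · simp [st, hx]

/-- The mass of the walkers which start in `Λ`, are at `a` at time `s`, and spend much time in
`Q`. -/
lemma mass_ge (hdeg : ∀ v, 0 < G.degree v) {Λ Q B : Set V} {m : ℕ} (hm : 0 < m) {c1 : ℝ}
    (hc1 : 0 < c1) {a : V}
    (hΛQ : ∀ x ∈ Q, c1 ≤ (Pr G)^[m] (Λ.indicator 1) x)
    (hΛa : ∀ k, m ≤ k → k ≤ 8 * m → c1 ≤ (Pr G)^[k] (Λ.indicator 1) a)
    (hst : ∀ x ∈ B, ∀ k ≤ 5 * m, (1 / 2 : ℝ) ≤ st G Q k x)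
    (hB : ∀ k, m ≤ k → k ≤ 8 * m → c1 ≤ (Pr G)^[k] (B.indicator 1) a)
    {K : Set (Tr V (12 * m))} (hK : ∀ γ : Tr V (12 * m), 4 * m ≤
      (open Classical in (Finset.univ.filter fun j => γ j ∈ Q).card) → γ ∈ K)
    (γ : Tr V (12 * m)) (s : Fin (12 * m + 1)) (hs : m ≤ (s : ℕ)) (hγ : γ s = a) :
    ENNReal.ofReal (c1 ^ 2 / 2) * (G.degree (γ s) : ENNReal) ≤
      ∑' γ' : Tr V (12 * m), mw G γ' * ((open Classical in if γ' 0 ∈ Λ ∧ γ' ∈ K then 1 else 0) *
        co γ s γ') := by
  classical
  have hsn : (s : ℕ) ≤ 12 * m := Nat.lt_succ_iff.1 s.2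
  -- a window
  obtain ⟨W, hW, hWc, hmain⟩ : ∃ W : Finset ℕ, (∀ j ∈ W, j < 12 * m + 1) ∧ 4 * m ≤ W.card ∧
      ENNReal.ofReal (c1 ^ 2 / 2) ≤ Bk G (hh Λ Q W s a) s a *
        U G (12 * m - s) (fun j => hh Λ Q W s a (j + s)) a := by
    rcases le_or_gt (6 * m) (s : ℕ) with h6 | h6
    · -- late meeting
      set W : Finset ℕ := Finset.Icc m (5 * m) with hWdef
      set h := hh Λ Q W s a with hh'
      have hs0 : (s : ℕ) ≠ 0 := by omega
      have h_one : ∀ j, 1 ≤ j → j < m → ∀ x, h j x = 1 := by
        intro j h1 h2 x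
        have e1 : j ≠ 0 := by omega
        have e2 : ¬ (j ∈ W) := by rw [hWdef, Finset.mem_Icc]; omega
        have e3 : j ≠ (s : ℕ) := by omega
        simp only [hh', hh, e1, e2, e3, if_false, mul_one]
      have h_win : ∀ j, m ≤ j → j ≤ 5 * m → ∀ x, h j x = Q.indicator 1 x := by
        intro j h1 h2 x
        have e1 : j ≠ 0 := by omega
        have e2 : j ∈ W := by rw [hWdef, Finset.mem_Icc]; omega
        have e3 : j ≠ (s : ℕ) := by omega
        simp only [hh', hh, e1, e2, e3, if_false, if_true, mul_one, one_mul]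
      have h_two : ∀ j, 5 * m + 1 ≤ j → j ≠ (s : ℕ) → ∀ x, h j x = 1 := by
        intro j h1 h2 x
        have e1 : j ≠ 0 := by omega
        have e2 : ¬ (j ∈ W) := by rw [hWdef, Finset.mem_Icc]; omega
        simp only [hh', hh, e1, e2, h2, if_false, mul_one]
      have h_zero : ∀ x, h 0 x = Λ.indicator 1 x := by
        intro x
        have e2 : ¬ (0 ∈ W) := by rw [hWdef, Finset.mem_Icc]; omega
        have e3 : 0 ≠ (s : ℕ) := by omega
        simp only [hh', hh, e2, e3, if_false, if_true, mul_one]
      have hB1 : Bk G h 1 = Pe G (fun x => ENNReal.ofReal (Λ.indicator (1 : V → ℝ) x)) := by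
        simp only [Bk, mul_one]
        congr 1
        funext x
        rw [h_zero, ofReal_ind]
      have hBm : ∀ x, Bk G h m x = ENNReal.ofReal ((Pr G)^[m] (Λ.indicator 1) x) := by
        intro x
        obtain ⟨k, rfl⟩ : ∃ k, m = 1 + k := ⟨m - 1, by omega⟩
        rw [Bk_iter (fun j h1 h2 x => h_one j h1 h2 x), hB1, ← Function.iterate_succ_apply,
          Pe_iter_ofReal hdeg (ind_nonneg Λ)]
        rw [Nat.succ_eq_one_add]
      have hstay : ∀ i ≤ 4 * m, ∀ x, ENNReal.ofReal (c1 * st G Q i x) ≤
          h (m + i) x * Bk G h (m + i) x := by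
        intro i
        induction i with
        | zero =>
          intro _ x
          rw [add_zero, h_win m le_rfl (by omega), hBm]
          by_cases hx : x ∈ Q
          · simp only [st, indicator_of_mem hx, Pi.one_apply, mul_one, one_mul]
            exact ENNReal.ofReal_le_ofReal (hΛQ x hx)
          · simp [st, hx]
        | succ i ih =>
          intro hi x
          rw [h_win (m + (i + 1)) (by omega) (by omega)]
          by_cases hx : x ∈ Q
          · simp only [st, indicator_of_mem hx, Pi.one_apply, one_mul]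
            show _ ≤ Pe G (fun x => h (m + i) x * Bk G h (m + i) x) x
            refine le_trans ?_ (Pe_mono (ih (by omega)) x)
            rw [Pe_ofReal fun y => mul_nonneg hc1.le (st_nonneg hdeg Q i y)]
            apply ENNReal.ofReal_le_ofReal
            have := Pr_iter_mul (G := G) c1 (st G Q i) 1 x
            simp only [Function.iterate_one] at this
            rw [this]
          · simp [st, hx]
      have hlast : ∀ x, ENNReal.ofReal (c1 / 2 * B.indicator 1 x) ≤
          h (5 * m) x * Bk G h (5 * m) x := by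
        intro x
        have h1 := hstay (4 * m) le_rfl x
        have e : m + 4 * m = 5 * m := by ring
        rw [e] at h1
        refine le_trans (ENNReal.ofReal_le_ofReal ?_) h1
        by_cases hx : x ∈ B
        · simp only [indicator_of_mem hx, Pi.one_apply, mul_one]
          have := hst x hx (4 * m) (by omega)
          nlinarith
        · simp only [indicator_of_notMem hx, mul_zero]
          exact mul_nonneg hc1.le (st_nonneg hdeg Q _ x)
      have hback : ENNReal.ofReal (c1 ^ 2 / 2) ≤ Bk G h s a := by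
        obtain ⟨k, hk⟩ : ∃ k, (s : ℕ) = (5 * m + 1) + k := ⟨s - (5 * m + 1), by omega⟩
        rw [hk, Bk_iter (fun j h1 h2 x => h_two j h1 (by omega) x)]
        have h1 : ∀ x, Pe G (fun x => ENNReal.ofReal (c1 / 2 * B.indicator 1 x)) x ≤
            Bk G h (5 * m + 1) x := fun x => Pe_mono hlast x
        refine le_trans ?_ (Pe_iter_mono h1 k a)
        rw [← Function.iterate_succ_apply, Pe_iter_ofReal hdeg fun y => mul_nonneg (by positivity)
          (ind_nonneg B y)]
        show _ ≤ ENNReal.ofReal ((Pr G)^[k.succ] (fun y => c1 / 2 * B.indicator 1 y) a)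
        rw [Pr_iter_mul]
        apply ENNReal.ofReal_le_ofReal
        have h2 := hB (k + 1) (by omega) (by omega)
        rw [Nat.succ_eq_add_one]
        nlinarith
      have hsa : h s a = 1 := by
        have e2 : ¬ ((s : ℕ) ∈ W) := by rw [hWdef, Finset.mem_Icc]; omega
        simp only [hh', hh, e2, hs0, if_false, if_true, mul_one]
      have hfor : U G (12 * m - s) (fun j => h (j + s)) a = 1 := by
        cases hr : 12 * m - (s : ℕ) with
        | zero => simp only [U, zero_add, hsa]
        | succ r =>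
          have h1 : (U G r fun j => h (j + 1 + s)) = fun _ => 1 := by
            funext y
            exact U_one hdeg (fun j _ x => h_two _ (by omega) (by omega) x) y
          rw [U]
          simp only [zero_add, hsa, h1, one_mul]
          exact Pe_const hdeg 1 a
      refine ⟨W, ?_, ?_, ?_⟩
      · intro j hj
        rw [hWdef, Finset.mem_Icc] at hj
        omega
      · rw [hWdef, Nat.card_Icc]; omega
      · rw [hfor, mul_one]; exact hback
    · -- early meeting
      set W : Finset ℕ := Finset.Icc (7 * m) (12 * m) with hWdef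
      set h := hh Λ Q W s a with hh'
      have hs0 : (s : ℕ) ≠ 0 := by omega
      have h_one : ∀ j, j ≠ 0 → j ≠ (s : ℕ) → j < 7 * m → ∀ x, h j x = 1 := by
        intro j e1 e3 h2 x
        have e2 : ¬ (j ∈ W) := by rw [hWdef, Finset.mem_Icc]; omega
        simp only [hh', hh, e1, e2, e3, if_false, mul_one]
      have h_win : ∀ j, 7 * m ≤ j → j ≤ 12 * m → ∀ x, h j x = Q.indicator 1 x := by
        intro j h1 h2 x
        have e1 : j ≠ 0 := by omega
        have e2 : j ∈ W := by rw [hWdef, Finset.mem_Icc]; omega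
        have e3 : j ≠ (s : ℕ) := by omega
        simp only [hh', hh, e1, e2, e3, if_false, if_true, mul_one, one_mul]
      have h_zero : ∀ x, h 0 x = Λ.indicator 1 x := by
        intro x
        have e2 : ¬ (0 ∈ W) := by rw [hWdef, Finset.mem_Icc]; omega
        have e3 : 0 ≠ (s : ℕ) := by omega
        simp only [hh', hh, e2, e3, if_false, if_true, mul_one]
      have hB1 : Bk G h 1 = Pe G (fun x => ENNReal.ofReal (Λ.indicator (1 : V → ℝ) x)) := by
        simp only [Bk, mul_one]
        congr 1
        funext x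
        rw [h_zero, ofReal_ind]
      have hback : ENNReal.ofReal c1 ≤ Bk G h s a := by
        have h1 := hΛa s hs (by omega)
        obtain ⟨k, hk⟩ : ∃ k, (s : ℕ) = 1 + k := ⟨s - 1, by omega⟩
        rw [hk] at h1 ⊢
        rw [Bk_iter (fun j h1 h2 x => h_one j (by omega) (by omega) (by omega) x), hB1,
          ← Function.iterate_succ_apply, Pe_iter_ofReal hdeg (ind_nonneg Λ)]
        apply ENNReal.ofReal_le_ofReal
        rw [Nat.succ_eq_one_add]
        exact h1
      have hsa : h s a = 1 := by
        have e2 : ¬ ((s : ℕ) ∈ W) := by rw [hWdef, Finset.mem_Icc]; omega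
        simp only [hh', hh, e2, hs0, if_false, if_true, mul_one]
      have hfor : ENNReal.ofReal (c1 / 2) ≤ U G (12 * m - s) (fun j => h (j + s)) a := by
        obtain ⟨r, hr⟩ : ∃ r, 12 * m - (s : ℕ) = r + 1 := ⟨12 * m - s - 1, by omega⟩
        rw [hr, U]
        simp only [zero_add, hsa, one_mul]
        obtain ⟨k, hk⟩ : ∃ k, 7 * m = s + 1 + k := ⟨7 * m - (s + 1), by omega⟩
        have h1 : (U G r fun j => h (j + 1 + s)) =
            (Pe G)^[k] (U G (r - k) fun j => h (j + k + 1 + s)) := by
          funext y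
          rw [U_iter (k := k) (by omega) fun j hj x => h_one _ (by omega) (by omega) (by omega) x]
        rw [h1]
        have h2 : ∀ x, ENNReal.ofReal (1 / 2 * B.indicator 1 x) ≤
            U G (r - k) (fun j => h (j + k + 1 + s)) x := by
          intro x
          rw [U_st hdeg Q (r - k) _ fun j hj x => h_win _ (by omega) (by omega) x]
          apply ENNReal.ofReal_le_ofReal
          by_cases hx : x ∈ B
          · simp only [indicator_of_mem hx, Pi.one_apply, mul_one]
            exact hst x hx (r - k) (by omega)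
          · simp only [indicator_of_notMem hx, mul_zero]
            exact st_nonneg hdeg Q _ x
        refine le_trans ?_ (Pe_mono (Pe_iter_mono h2 k) a)
        rw [← Function.iterate_succ_apply' (Pe G) k, Pe_iter_ofReal hdeg fun y =>
          mul_nonneg (by positivity) (ind_nonneg B y)]
        show _ ≤ ENNReal.ofReal ((Pr G)^[k.succ] (fun y => 1 / 2 * B.indicator 1 y) a)
        rw [Pr_iter_mul]
        apply ENNReal.ofReal_le_ofReal
        have h3 := hB (k + 1) (by omega) (by omega)
        rw [Nat.succ_eq_add_one]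
        linarith
      refine ⟨W, ?_, ?_, ?_⟩
      · intro j hj
        rw [hWdef, Finset.mem_Icc] at hj
        omega
      · rw [hWdef, Nat.card_Icc]; omega
      · refine le_trans ?_ (mul_le_mul' hback hfor)
        rw [← ENNReal.ofReal_mul hc1.le]
        apply ENNReal.ofReal_le_ofReal
        nlinarith
  have h1 := mass_at (G := G) hdeg (12 * m) (hh Λ Q W s a) s hsn a (by
    intro x hx
    simp [hh, hx])
  have h2 : ENNReal.ofReal (c1 ^ 2 / 2) * (G.degree (γ s) : ENNReal) ≤
      ∑' γ' : Tr V (12 * m), (G.degree (γ' 0) : ENNReal) * wt G γ' *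
        ∏ j : Fin (12 * m + 1), hh Λ Q W s a j (γ' j) := by
    rw [h1, hγ, mul_comm, mul_assoc]
    exact mul_le_mul_right hmain _
  refine h2.trans (ENNReal.tsum_le_tsum fun γ' => ?_)
  rw [mw]
  refine mul_le_mul_right ?_ _
  rw [← hγ]
  exact prod_hh_le Λ Q W hW hWc hK γ γ' s

end

end MP7315a9
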