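import Pool.Agent.Lib.MP_7315a9_pr.Plane

/-!
# Infinite classes for every intensity on graphs with a harmonic map to the plane
-/

open MeasureTheory ProbabilityTheory Set Filter

namespace MP7315a9

noncomputable section

variable {V : Type*} {G : SimpleGraph V} [G.LocallyFinite] {F1 F2 : V → ℝ} {b ε : ℝ} {T0 : ℕ}

/-- The centre of the box of index `z`. -/
def ctr (F1 F2 : V → ℝ) (v0 : V) (L : ℝ) (z : ℤ × ℤ) : ℝ × ℝ := (F1 v0 + L * z.1, F2 v0 + L * z.2)

/-- The midpoint of the coarse edge `e`. -/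
def mid (F1 F2 : V → ℝ) (v0 : V) (L : ℝ) (e : E2) : ℝ × ℝ :=
  (F1 v0 + L / 2 * ((2 * e.1.1 + (if e.2 then 0 else 1) : ℤ) : ℝ),
    F2 v0 + L / 2 * ((2 * e.1.2 + (if e.2 then 1 else 0) : ℤ) : ℝ))

/-- The box of index `z`. -/
def Qs (F1 F2 : V → ℝ) (v0 : V) (L : ℝ) (z : ℤ × ℤ) : Set V :=
  {x | N2 F1 F2 x (ctr F1 F2 v0 L z) ≤ L ^ 2}

/-- The set where the walkers of the coarse edge `e` start. -/
def Lm (F1 F2 : V → ℝ) (v0 : V) (L : ℝ) (e : E2) : Set V :=
  {x | N2 F1 F2 x (mid F1 F2 v0 L e) ≤ (L / 8) ^ 2}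

/-- Trajectories which spend much time in the box of index `z`. -/
def Ks (F1 F2 : V → ℝ) (v0 : V) (L : ℝ) (m : ℕ) (z : ℤ × ℤ) : Set (Tr V (12 * m)) :=
  {γ | 4 * m ≤ (open Classical in (Finset.univ.filter fun j => γ j ∈ Qs F1 F2 v0 L z).card)}

lemma close_int {L u : ℝ} (hL : 0 < L) {p q : ℤ} {f : ℝ} (hp : |f - (u + L / 2 * (p : ℝ))| ≤ L / 8)
    (hq : |f - (u + L / 2 * (q : ℝ))| ≤ L / 8) : p = q := by
  have h1 : |L / 2 * ((p : ℝ) - q)| ≤ L / 4 := by
    have e : L / 2 * ((p : ℝ) - q) = (f - (u + L / 2 * q)) - (f - (u + L / 2 * p)) := by ring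
    rw [e]
    calc |(f - (u + L / 2 * q)) - (f - (u + L / 2 * p))|
        ≤ |f - (u + L / 2 * q)| + |f - (u + L / 2 * p)| := abs_sub _ _
      _ ≤ L / 4 := by linarith
  rw [abs_mul, abs_of_pos (by positivity : 0 < L / 2)] at h1
  have h2 : |(p : ℝ) - q| < 1 := by
    by_contra hcon
    push Not at hcon
    nlinarith
  have h3 : |p - q| < 1 := by
    have : ((|p - q| : ℤ) : ℝ) < 1 := by push_cast; exact h2
    exact_mod_cast this
  have h4 := Int.abs_lt_one_iff.1 h3
  omega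

lemma abs_of_N2 {x : V} {c : ℝ × ℝ} {r : ℝ} (hr : 0 ≤ r) (h : N2 F1 F2 x c ≤ r ^ 2) :
    |F1 x - c.1| ≤ r ∧ |F2 x - c.2| ≤ r := by
  simp only [N2] at h
  constructor
  · apply abs_le_of_sq_le_sq _ hr
    nlinarith [sq_nonneg (F2 x - c.2)]
  · apply abs_le_of_sq_le_sq _ hr
    nlinarith [sq_nonneg (F1 x - c.1)]

lemma Lm_disj {L : ℝ} (hL : 0 < L) (v0 : V) (e e' : E2) (h : e ≠ e') :
    Disjoint (Lm F1 F2 v0 L e) (Lm F1 F2 v0 L e') := by
  rw [Set.disjoint_left]
  intro x hx hx'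
  have h1 := abs_of_N2 (by positivity : 0 ≤ L / 8) hx
  have h2 := abs_of_N2 (by positivity : 0 ≤ L / 8) hx'
  have h3 := close_int hL h1.1 h2.1
  have h4 := close_int hL h1.2 h2.2
  apply h
  obtain ⟨⟨a1, a2⟩, c⟩ := e
  obtain ⟨⟨a1', a2'⟩, c'⟩ := e'
  cases c <;> cases c' <;> simp at h3 h4 ⊢ <;> omega

lemma Lm_v0 {L : ℝ} (hL : 0 < L) (v0 : V) (e : E2) : v0 ∉ Lm F1 F2 v0 L e := by
  intro hx
  have h1 := abs_of_N2 (by positivity : 0 ≤ L / 8) hx
  have h5 : |F1 v0 - (F1 v0 + L / 2 * ((0 : ℤ) : ℝ))| ≤ L / 8 := by simp; positivity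
  have h6 : |F2 v0 - (F2 v0 + L / 2 * ((0 : ℤ) : ℝ))| ≤ L / 8 := by simp; positivity
  have h3 := close_int hL h1.1 h5
  have h4 := close_int hL h1.2 h6
  obtain ⟨⟨a1, a2⟩, c⟩ := e
  cases c <;> simp at h3 h4 <;> omega

/-- Triangle inequality. -/
lemma N2_tri {x : V} {c c' : ℝ × ℝ} {L : ℝ} (h : N2 F1 F2 x c ≤ L ^ 2)
    (hc : (c.1 - c'.1) ^ 2 + (c.2 - c'.2) ^ 2 ≤ L ^ 2) : N2 F1 F2 x c' ≤ (2 * L) ^ 2 := by
  simp only [N2] at h ⊢
  nlinarith [sq_nonneg (F1 x - c.1 - (c.1 - c'.1)), sq_nonneg (F2 x - c.2 - (c.2 - c'.2))]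

/-- The centres of adjacent boxes and the midpoint of the edge are close. -/
lemma opp_dist {L : ℝ} (v0 : V) {e : E2} {z z' : ℤ × ℤ} (h : Opp ea eb e z z') :
    (((ctr F1 F2 v0 L z).1 - (ctr F1 F2 v0 L z').1) ^ 2 +
      ((ctr F1 F2 v0 L z).2 - (ctr F1 F2 v0 L z').2) ^ 2 ≤ L ^ 2) ∧
    (((ctr F1 F2 v0 L z).1 - (mid F1 F2 v0 L e).1) ^ 2 +
      ((ctr F1 F2 v0 L z).2 - (mid F1 F2 v0 L e).2) ^ 2 ≤ L ^ 2) ∧
    (((ctr F1 F2 v0 L z').1 - (mid F1 F2 v0 L e).1) ^ 2 +
      ((ctr F1 F2 v0 L z').2 - (mid F1 F2 v0 L e).2) ^ 2 ≤ L ^ 2) := by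
  obtain ⟨⟨a1, a2⟩, c⟩ := e
  have hL := sq_nonneg L
  rcases h with ⟨rfl, rfl⟩ | ⟨rfl, rfl⟩ <;> cases c <;>
    simp only [ea, eb, ctr, mid, if_true, if_false, Bool.false_eq_true] <;> push_cast <;>
      refine ⟨?_, ?_, ?_⟩ <;> nlinarith

/-- **All intensities.** -/
theorem plane_all [MeasurableSpace V] [DiscreteMeasurableSpace V] [Countable V] [Nonempty V]
    (hF : PlaneMap G F1 F2 b ε T0) {Δ : ℕ} (hΔ : ∀ v, G.degree v ≤ Δ) {lam : NNReal}
    (hlam : 0 < lam) : ∃ tc : ℕ, ∀ t ≥ tc, ∀ᵐ ω ∂(snLaw G lam), InfClass ω t := by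
  classical
  obtain ⟨v0⟩ := ‹Nonempty V›
  have hb := hF.b0
  have hlR : (0 : ℝ) < lam := by exact_mod_cast hlam
  have ht0 : (0 : ℝ) < T0 := by exact_mod_cast hF.t0
  obtain ⟨c1, hc1, hc1', m0, htr⟩ := travel hF
  obtain ⟨C, hC, hheat⟩ := heat hF hΔ
  set c0 : ℝ := c1 ^ 2 / 2 with hc0
  have hc0p : 0 < c0 := by positivity
  -- the constants
  obtain ⟨r, hr⟩ := exists_nat_ge (max 1 (287 * (56 * C) / (3 * c0 ^ 2 * lam)))
  have hr1 : (1 : ℝ) ≤ r := (le_max_left _ _).trans hr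
  have hr2 : 287 * (56 * C) / (3 * c0 ^ 2 * lam) ≤ r := (le_max_right _ _).trans hr
  have hr0 : (0 : ℝ) < r := by linarith
  set N : ℕ := r ^ 2 with hN
  have hNpos : 0 < N := by
    rw [hN]
    have : 0 < r := by exact_mod_cast hr0
    positivity
  have hsN : √(N : ℝ) = r := by
    rw [hN]; push_cast; exact Real.sqrt_sq hr0.le
  obtain ⟨m1, hm1⟩ := exists_nat_ge (max 1 (N * (2 * T0) * r / C))
  set m : ℕ := max m0 m1 with hm
  have hmm0 : m0 ≤ m := le_max_left _ _
  have hmm1 : (m1 : ℝ) ≤ m := by exact_mod_cast le_max_right m0 m1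
  have hmR : (1 : ℝ) ≤ m := (le_max_left _ _).trans (hm1.trans hmm1)
  have hmR2 : N * (2 * T0) * r / C ≤ m := (le_max_right _ _).trans (hm1.trans hmm1)
  have hmpos : 0 < m := by
    have : (0 : ℝ) < m := by linarith
    exact_mod_cast this
  have hmRpos : (0 : ℝ) < m := by linarith
  set L : ℝ := √(2048 * b ^ 2 * m) with hLdef
  have hLpos : 0 < L := Real.sqrt_pos.2 (by positivity)
  have hL2 : L ^ 2 = 2048 * b ^ 2 * m := Real.sq_sqrt (by positivity)
  have htrav := htr m hmm0 L hLpos hL2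
  -- the meeting estimate
  have hmeet : ∀ e z z', Opp ea eb e z z' → ∀ γ ∈ Ks F1 F2 v0 L m z,
      ENNReal.ofReal (287 / 288) ≤ snLaw G lam {ω | ∃ x ∈ Lm F1 F2 v0 L e, ∃ i < ω.1 x,
        traj (12 * m) ω (x, i) ∈ {γ' | γ' ∈ Ks F1 F2 v0 L m z' ∧ Meet γ γ'}} := by
    intro e z z' hopp γ hγ
    obtain ⟨hd1, hd2, hd3⟩ := opp_dist (F1 := F1) (F2 := F2) (L := L) v0 hopp
    set S : Finset (Fin (12 * m + 1)) :=
      Finset.univ.filter fun j => m ≤ (j : ℕ) ∧ γ j ∈ Qs F1 F2 v0 L z with hS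
    have hScard : 3 * m ≤ S.card := by
      have h1 : 4 * m ≤ (Finset.univ.filter fun j => γ j ∈ Qs F1 F2 v0 L z).card := hγ
      have h2 : (Finset.univ.filter fun j => γ j ∈ Qs F1 F2 v0 L z) ⊆
          S ∪ Finset.univ.filter fun j : Fin (12 * m + 1) => (j : ℕ) < m := by
        intro j hj
        rw [Finset.mem_filter] at hj
        rw [Finset.mem_union]
        by_cases h3 : m ≤ (j : ℕ)
        · left
          rw [hS, Finset.mem_filter]
          exact ⟨Finset.mem_univ _, h3, hj.2⟩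
        · right
          rw [Finset.mem_filter]
          exact ⟨Finset.mem_univ _, not_le.1 h3⟩
      have h3 : (Finset.univ.filter fun j : Fin (12 * m + 1) => (j : ℕ) < m).card ≤ m := by
        have h4 : ((Finset.univ.filter fun j : Fin (12 * m + 1) => (j : ℕ) < m).map
            Fin.valEmbedding) ⊆ Finset.range m := by
          intro i hi
          rw [Finset.mem_map] at hi
          obtain ⟨j, hj, rfl⟩ := hi
          rw [Finset.mem_filter] at hj
          exact Finset.mem_range.2 hj.2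
        have h5 := Finset.card_le_card h4
        rwa [Finset.card_map, Finset.card_range] at h5
      have h6 := (Finset.card_le_card h2).trans (Finset.card_union_le _ _)
      omega
    -- first moment
    have hfirst : ∀ s ∈ S, ENNReal.ofReal c0 * (G.degree (γ s) : ENNReal) ≤
        ∑' γ' : Tr V (12 * m), mw G γ' * ((if γ' 0 ∈ Lm F1 F2 v0 L e ∧
          γ' ∈ Ks F1 F2 v0 L m z' then 1 else 0) * co γ s γ') := by
      intro s hs
      rw [hS, Finset.mem_filter] at hs
      obtain ⟨_, hs1, hs2⟩ := hs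
      have hs3 : N2 F1 F2 (γ s) (ctr F1 F2 v0 L z) ≤ L ^ 2 := hs2
      exact mass_ge hF.deg (Λ := Lm F1 F2 v0 L e) (Q := Qs F1 F2 v0 L z')
        (B := {y | N2 F1 F2 y (ctr F1 F2 v0 L z') ≤ (L / 8) ^ 2}) hmpos hc1 (a := γ s)
        (fun x hx => htrav _ x (N2_tri hx hd3) m (by omega) (by omega))
        (fun k hk1 hk2 => htrav _ _ (N2_tri hs3 hd2) k (by omega) hk2)
        (fun x hx k hk => by
          refine le_trans ?_ (stay hF (r := L) hLpos (c := ctr F1 F2 v0 L z')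
            (fun x hx => le_of_lt hx) k x)
          have h1 : N2 F1 F2 x (ctr F1 F2 v0 L z') ≤ (L / 8) ^ 2 := hx
          have h2 : (k : ℝ) ≤ 5 * m := by exact_mod_cast hk
          have h3 : (k : ℝ) * b ^ 2 ≤ 5 * m * b ^ 2 := mul_le_mul_of_nonneg_right h2 (by positivity)
          have h4 : 5 * m * b ^ 2 = 5 / 2048 * L ^ 2 := by rw [hL2]; ring
          have h5 : (N2 F1 F2 x (ctr F1 F2 v0 L z') + k * b ^ 2) / L ^ 2 ≤ 1 / 2 := by
            rw [div_le_iff₀ (by positivity)]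
            nlinarith [sq_nonneg L]
          linarith)
        (fun k hk1 hk2 => htrav _ _ (N2_tri hs3 hd1) k (by omega) hk2)
        (K := Ks F1 F2 v0 L m z') (fun γ hγ => hγ) γ s hs1 rfl
    -- the Green function
    set a : ℕ → ℝ := fun k => if k < N * (2 * T0) then 1 else C / r with ha
    have ha0 : ∀ k, 0 ≤ a k := by
      intro k
      simp only [ha]
      split_ifs <;> positivity
    have hgr : ∑ k ∈ Finset.range (12 * m + 1), a k ≤ 14 * m * C / r := by
      have h1 : ∑ k ∈ Finset.range (12 * m + 1), a k ≤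
          ∑ k ∈ Finset.range (12 * m + 1), ((if k < N * (2 * T0) then 1 else 0) + C / r) := by
        refine Finset.sum_le_sum fun k _ => ?_
        simp only [ha]
        have : 0 ≤ C / r := by positivity
        split_ifs <;> linarith
      refine h1.trans ?_
      rw [Finset.sum_add_distrib, Finset.sum_const, Finset.card_range, nsmul_eq_mul,
        ← Finset.sum_filter, Finset.sum_const, nsmul_eq_mul, mul_one]
      have h2 : ((Finset.range (12 * m + 1)).filter fun k => k < N * (2 * T0)).card ≤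
          N * (2 * T0) := by
        have h3 : ((Finset.range (12 * m + 1)).filter fun k => k < N * (2 * T0)) ⊆
            Finset.range (N * (2 * T0)) := by
          intro k hk
          exact Finset.mem_range.2 (Finset.mem_filter.1 hk).2
        have := Finset.card_le_card h3
        rwa [Finset.card_range] at this
      have h3 : (((Finset.range (12 * m + 1)).filter fun k => k < N * (2 * T0)).card : ℝ) ≤
          N * (2 * T0) := by exact_mod_cast h2
      have h4 : (N : ℝ) * (2 * T0) ≤ m * (C / r) := by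
        rw [div_le_iff₀ hC] at hmR2
        rw [mul_div_assoc', le_div_iff₀ hr0]
        exact hmR2
      have h5 : ((12 * m + 1 : ℕ) : ℝ) * (C / r) ≤ 13 * m * (C / r) := by
        refine mul_le_mul_of_nonneg_right ?_ (by positivity)
        push_cast
        linarith
      calc _ ≤ m * (C / r) + 13 * m * (C / r) := add_le_add (h3.trans h4) h5
        _ = 14 * m * C / r := by ring
    have hk : ∀ k ≤ 12 * m, ∀ x y, (Pe G)^[k] (fun z => if z = y then 1 else 0) x ≤
        ENNReal.ofReal (a k) := by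
      intro k _ x y
      simp only [ha]
      by_cases hkN : k < N * (2 * T0)
      · rw [if_pos hkN, ENNReal.ofReal_one]
        have h1 := Pe_iter_mono (G := G) (f := fun z => if z = y then (1 : ENNReal) else 0)
          (g := fun _ => 1) (fun z => by split_ifs <;> simp) k x
        rw [Pe_iter_const hF.deg] at h1
        exact h1
      · rw [if_neg hkN, ← hsN]
        exact hheat N hNpos k (not_lt.1 hkN) x y
    have h2nd := second_moment hF.deg γ S (Lm F1 F2 v0 L e) (Ks F1 F2 v0 L m z') hc0p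
      (g := 14 * m * C / r) (by positivity) hfirst ha0 hk hgr
    set cc : ℝ := 3 * c0 ^ 2 * r / (56 * C) with hcc
    have hccp : 0 < cc := by positivity
    have hlt : ENNReal.ofReal cc < ENNReal.ofReal (S.card * (c0 ^ 2 / (2 * (14 * m * C / r)))) := by
      rw [ENNReal.ofReal_lt_ofReal_iff_of_nonneg hccp.le]
      have h1 : (3 * m : ℝ) ≤ S.card := by exact_mod_cast hScard
      have h2 : (3 * m : ℝ) * (c0 ^ 2 / (2 * (14 * m * C / r))) = 2 * cc := by
        rw [hcc]; field_simp; ring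
      have h3 : (3 * m : ℝ) * (c0 ^ 2 / (2 * (14 * m * C / r))) ≤
          S.card * (c0 ^ 2 / (2 * (14 * m * C / r))) :=
        mul_le_mul_of_nonneg_right h1 (by positivity)
      linarith
    obtain ⟨SS, hSS⟩ : ∃ SS : Set (Tr V (12 * m)),
      SS = {γ' | γ' ∈ Ks F1 F2 v0 L m z' ∧ Meet γ γ'} := ⟨_, rfl⟩
    have hex := exists_traj' G lam hF.deg (12 * m) (Lm F1 F2 v0 L e) SS (c := cc)
      (hlt.trans_le (h2nd.trans (le_of_eq (tsum_congr fun γ' => congrArg (mw G γ' * ·)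
        (if_congr (by rw [hSS]; rfl) rfl rfl)))))
    rw [hSS] at hex
    refine le_trans (ENNReal.ofReal_le_ofReal ?_) hex
    have h1 : 287 ≤ lam * cc := by
      rw [div_le_iff₀ (by positivity)] at hr2
      rw [hcc, mul_div_assoc', le_div_iff₀ (by positivity)]
      nlinarith
    have h2 : Real.exp (-(lam * cc)) ≤ 1 / 288 := by
      rw [Real.exp_neg, ← one_div]
      apply one_div_le_one_div_of_le (by norm_num)
      have := Real.add_one_le_exp ((lam : ℝ) * cc)
      linarith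
    linarith
  -- the starting path
  have hK0 : pl G (12 * m) v0 (Ks F1 F2 v0 L m (0, 0)) ≠ 0 := by
    have h1 : (fun _ => v0 : Tr V (12 * m)) ∈ Ks F1 F2 v0 L m (0, 0) := by
      show 4 * m ≤ (Finset.univ.filter fun j : Fin (12 * m + 1) => v0 ∈ Qs F1 F2 v0 L (0, 0)).card
      have h2 : v0 ∈ Qs F1 F2 v0 L (0, 0) := by
        simp [Qs, N2, ctr]
        positivity
      simp only [h2, Finset.filter_true, Finset.card_univ, Fintype.card_fin]
      omega
    have h2 : 0 < pl G (12 * m) v0 {(fun _ => v0 : Tr V (12 * m))} := by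
      rw [pl_singleton G hF.deg, if_pos rfl, wt]
      rw [pos_iff_ne_zero, Finset.prod_ne_zero_iff]
      intro s _
      simp [stepProb]
    exact (h2.trans_le (measure_mono (Set.singleton_subset_iff.2 h1))).ne'
  have hmain := criterion G hlam hF.deg (Lm F1 F2 v0 L) (Ks F1 F2 v0 L m) (Lm_disj hLpos v0)
    (p := ⟨287 / 288, by norm_num, by norm_num⟩) (by norm_num) hmeet (Lm_v0 hLpos v0) hK0
  refine ⟨12 * m, fun t ht => ?_⟩
  filter_upwards [hmain] with ω hω
  exact infClass_mono ht hω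

end

end MP7315a9
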