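import Pool.Agent.Lib.MP_7315a9_pr.Lower

/-!
# The critical parameter of a graph of bounded degree is positive
-/

open MeasureTheory ProbabilityTheory Set Filter Topology

namespace MP7315a9

noncomputable section

variable {V : Type*}

/-- The edge sets of the walks of length `n` from `v`. -/
def walks (G : SimpleGraph V) [G.LocallyFinite] : ℕ → V → Finset (Finset G.edgeSet)
  | 0, _ => {∅}
  | n + 1, v => open Classical in (G.neighborFinset v).attach.biUnion fun u =>
      (walks G n u).image (insert ⟨s(v, u), (G.mem_neighborFinset v u).1 u.2⟩)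

lemma card_walks {G : SimpleGraph V} [G.LocallyFinite] {Δ : ℕ} (hΔ : ∀ v, G.degree v ≤ Δ)
    (n : ℕ) (v : V) : (walks G n v).card ≤ Δ ^ n := by
  classical
  induction n generalizing v with
  | zero => simp [walks]
  | succ n ih =>
    simp only [walks]
    refine Finset.card_biUnion_le.trans ?_
    refine (Finset.sum_le_card_nsmul _ _ (Δ ^ n) fun u _ => ?_).trans ?_
    · exact Finset.card_image_le.trans (ih u)
    rw [Finset.card_attach, SimpleGraph.card_neighborFinset_eq_degree, smul_eq_mul, pow_succ,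
      mul_comm]
    exact Nat.mul_le_mul_left _ (hΔ v)

lemma exists_walks {G : SimpleGraph V} [G.LocallyFinite] {ω : G.edgeSet → Bool} (n : ℕ) (v w : V)
    (p : (openGraph G ω).Walk v w) (hp : p.IsPath) (hn : p.length = n) :
    ∃ F ∈ walks G n v, F.card = n ∧ (∀ e ∈ F, ω e = true) ∧
      ∀ e ∈ F, ∀ x ∈ (e : Sym2 V), x ∈ p.support := by
  classical
  induction p generalizing n with
  | nil =>
    simp only [SimpleGraph.Walk.length_nil] at hn
    subst hn
    exact ⟨∅, by simp [walks], by simp, by simp, by simp⟩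
  | @cons v u w h q ih =>
    rw [SimpleGraph.Walk.cons_isPath_iff] at hp
    obtain ⟨m, rfl⟩ : ∃ m, n = m + 1 := ⟨q.length, by
      rw [← hn]; rfl⟩
    obtain ⟨F, h1, h2, h3, h4⟩ := ih m hp.1 (by
      have : (SimpleGraph.Walk.cons h q).length = q.length + 1 := rfl
      omega)
    obtain ⟨hG, hω⟩ := h
    refine ⟨insert ⟨s(v, u), hG⟩ F, ?_, ?_, ?_, ?_⟩
    · simp only [walks, Finset.mem_biUnion, Finset.mem_attach, true_and, Subtype.exists,
        Finset.mem_image]
      exact ⟨u, (G.mem_neighborFinset v u).2 hG, F, h1, rfl⟩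
    · rw [Finset.card_insert_of_notMem, h2]
      intro hmem
      exact hp.2 (h4 _ hmem v (by simp))
    · intro e he
      rw [Finset.mem_insert] at he
      rcases he with rfl | he
      · exact hω
      · exact h3 e he
    · intro e he x hx
      rw [Finset.mem_insert] at he
      rcases he with rfl | he
      · simp only [Sym2.mem_iff] at hx
        rcases hx with rfl | rfl
        · simp
        · simp
      · have := h4 e he x hx
        simp [this]

lemma bits_path {K : Type*} (p : unitInterval) (F : Finset K) :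
    bits (fun _ : K => p) {ω | ∀ e ∈ F, ω e = true} = (ENNReal.ofReal p) ^ F.card := by
  have : {ω : K → Bool | ∀ e ∈ F, ω e = true} = Set.pi (F : Set K) fun _ => {true} := by
    ext ω; simp
  rw [this, bits, Measure.infinitePi_pi _ (fun _ _ => by trivial)]
  simp [bern_true]

lemma cluster_null {G : SimpleGraph V} [G.LocallyFinite] {Δ : ℕ}
    (hΔ : ∀ v, G.degree v ≤ Δ) {p : unitInterval} (hp : (Δ : ℝ) * p < 1) (v : V) :
    bits (fun _ : G.edgeSet => p) {ω | {u | (openGraph G ω).Reachable v u}.Infinite} = 0 := by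
  classical
  have h1 : ∀ n : ℕ, bits (fun _ : G.edgeSet => p)
      {ω | {u | (openGraph G ω).Reachable v u}.Infinite} ≤ ENNReal.ofReal ((Δ * p) ^ n) := by
    intro n
    have h2 : {ω : G.edgeSet → Bool | {u | (openGraph G ω).Reachable v u}.Infinite} ⊆
        ⋃ F ∈ (walks G n v).filter fun F => F.card = n, {ω | ∀ e ∈ F, ω e = true} := by
      intro ω hω
      obtain ⟨u, hu, hu'⟩ := hω.exists_notMem_finset (ball G n v)
      obtain ⟨q, hq⟩ := SimpleGraph.Reachable.exists_isPath (hu : (openGraph G ω).Reachable v u)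
      have h3 : n ≤ q.length := by
        by_contra hlt
        apply hu'
        have hle : openGraph G ω ≤ G := fun a b h => h.1
        exact mem_ball.2 ⟨q.mapLe hle, by simpa using (not_le.1 hlt).le⟩
      obtain ⟨F, h4, h5, h6, _⟩ := exists_walks n v _ (q.take n) (hq.take n) (by
        rw [SimpleGraph.Walk.take_length]; omega)
      rw [mem_iUnion₂]
      exact ⟨F, Finset.mem_filter.2 ⟨h4, h5⟩, h6⟩
    refine (measure_mono h2).trans ((measure_biUnion_finset_le _ _).trans ?_)
    have h3 : ∀ F ∈ (walks G n v).filter fun F => F.card = n,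
        bits (fun _ : G.edgeSet => p) {ω | ∀ e ∈ F, ω e = true} = (ENNReal.ofReal p) ^ n := by
      intro F hF
      rw [bits_path, (Finset.mem_filter.1 hF).2]
    rw [Finset.sum_congr rfl h3, Finset.sum_const, nsmul_eq_mul, mul_pow,
      ENNReal.ofReal_mul (by positivity), ← ENNReal.ofReal_pow p.2.1]
    refine mul_le_mul_left ?_ _
    rw [← Nat.cast_pow, ENNReal.ofReal_natCast]
    exact_mod_cast (Finset.card_filter_le _ _).trans (card_walks hΔ n v)
  have h2 : Tendsto (fun n : ℕ => ENNReal.ofReal ((Δ * p) ^ n)) atTop (𝓝 0) := by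
    have h3 := tendsto_pow_atTop_nhds_zero_of_lt_one (r := (Δ : ℝ) * p)
      (mul_nonneg (Nat.cast_nonneg _) p.2.1) hp
    have := ENNReal.tendsto_ofReal h3
    simpa using this
  exact le_antisymm (ge_of_tendsto' h2 h1) bot_le

/-- `1 / Δ ≤ pc G` for graphs of maximal degree at most `Δ`. -/
theorem pc_ge [Countable V] {G : SimpleGraph V} [G.LocallyFinite] (hG : HasInf G) {Δ : ℕ}
    (hΔ : ∀ v, G.degree v ≤ Δ) : 1 / (Δ : ℝ) ≤ pc G := by
  have hne : {p : ℝ | ∃ h : p ∈ Icc (0 : ℝ) 1,
      bits (fun _ : G.edgeSet => (⟨p, h⟩ : unitInterval))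
        {ω | HasInf (openGraph G ω)} ≠ 0}.Nonempty := by
    refine ⟨1, ⟨zero_le_one, le_rfl⟩, ?_⟩
    rw [bits_one]
    rw [Measure.dirac_apply' _ (measurable_inf_open G)]
    have : (fun _ => true) ∈ {ω : G.edgeSet → Bool | HasInf (openGraph G ω)} := by
      refine HasInf.mono ?_ hG
      intro u v h
      exact ⟨h, rfl⟩
    simp [indicator_of_mem this]
  refine le_csInf hne ?_
  rintro p ⟨h, h'⟩
  by_contra hlt
  apply h'
  have hp : (Δ : ℝ) * p < 1 := by
    rcases Nat.eq_zero_or_pos Δ with h0 | h0
    · simp [h0]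
    · have : (0 : ℝ) < Δ := by exact_mod_cast h0
      rw [not_le, lt_div_iff₀ this] at hlt
      linarith
  have h1 : {ω : G.edgeSet → Bool | HasInf (openGraph G ω)} =
      ⋃ v, {ω | {u | (openGraph G ω).Reachable v u}.Infinite} := by
    ext ω; simp [HasInf]
  rw [h1, measure_iUnion_null_iff]
  intro v
  exact cluster_null hΔ (p := ⟨p, h⟩) hp v

end

end MP7315a9
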