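import Pool.Agent.Lib.MP_7315a9_pr.Periodic

/-!
# Products with the square lattice have harmonic maps to the plane
-/

open MeasureTheory ProbabilityTheory Set Filter

namespace MP7315a9

noncomputable section

/-- The product of the square lattice with a graph `H`. -/
abbrev sqProd {W : Type*} (H : SimpleGraph W) : SimpleGraph ((ℤ × ℤ) × W) :=
  (SimpleGraph.hasse ℤ □ SimpleGraph.hasse ℤ) □ H

lemma hasse_int (a b : ℤ) : (SimpleGraph.hasse ℤ).Adj a b ↔ b = a + 1 ∨ b = a - 1 := by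
  rw [SimpleGraph.hasse_adj, Order.covBy_iff_add_one_eq, Order.covBy_iff_add_one_eq]
  omega

variable {W : Type*} {H : SimpleGraph W} [H.LocallyFinite] [(sqProd H).LocallyFinite]

lemma nb_sqProd [DecidableEq W] (a b : ℤ) (w : W) : (sqProd H).neighborFinset ((a, b), w) =
    ({((a + 1, b), w), ((a - 1, b), w), ((a, b + 1), w), ((a, b - 1), w)} :
      Finset ((ℤ × ℤ) × W)) ∪ (H.neighborFinset w).image fun w' => ((a, b), w') := by
  ext ⟨⟨a', b'⟩, w'⟩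
  simp only [SimpleGraph.mem_neighborFinset, SimpleGraph.boxProd_adj, hasse_int, Finset.mem_union,
    Finset.mem_insert, Finset.mem_singleton, Finset.mem_image, Prod.mk.injEq]
  constructor
  · rintro (⟨(⟨h1 | h1, h2⟩ | ⟨h1 | h1, h2⟩), h3⟩ | ⟨h1, h2⟩)
    · exact Or.inl (Or.inl ⟨⟨h1, h2.symm⟩, h3.symm⟩)
    · exact Or.inl (Or.inr (Or.inl ⟨⟨h1, h2.symm⟩, h3.symm⟩))
    · exact Or.inl (Or.inr (Or.inr (Or.inl ⟨⟨h2.symm, h1⟩, h3.symm⟩)))
    · exact Or.inl (Or.inr (Or.inr (Or.inr ⟨⟨h2.symm, h1⟩, h3.symm⟩)))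
    · exact Or.inr ⟨w', h1, h2, rfl⟩
  · rintro ((⟨⟨h1, h2⟩, h3⟩ | ⟨⟨h1, h2⟩, h3⟩ | ⟨⟨h1, h2⟩, h3⟩ | ⟨⟨h1, h2⟩, h3⟩) | ⟨w'', h1, h2, h3⟩)
    · exact Or.inl ⟨Or.inl ⟨Or.inl h1, h2.symm⟩, h3.symm⟩
    · exact Or.inl ⟨Or.inl ⟨Or.inr h1, h2.symm⟩, h3.symm⟩
    · exact Or.inl ⟨Or.inr ⟨Or.inl h2, h1.symm⟩, h3.symm⟩
    · exact Or.inl ⟨Or.inr ⟨Or.inr h2, h1.symm⟩, h3.symm⟩
    · rw [← h3]; exact Or.inr ⟨h1, h2⟩

lemma sum_sqProd (f : (ℤ × ℤ) × W → ℝ) (a b : ℤ) (w : W) :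
    ∑ y ∈ (sqProd H).neighborFinset ((a, b), w), f y =
      f ((a + 1, b), w) + f ((a - 1, b), w) + f ((a, b + 1), w) + f ((a, b - 1), w) +
        ∑ w' ∈ H.neighborFinset w, f ((a, b), w') := by
  classical
  rw [nb_sqProd, Finset.sum_union, Finset.sum_image]
  · congr 1
    rw [Finset.sum_insert, Finset.sum_insert, Finset.sum_insert, Finset.sum_singleton]
    · ring
    · simp only [Finset.mem_singleton, Prod.mk.injEq]; omega
    · simp only [Finset.mem_insert, Finset.mem_singleton, Prod.mk.injEq]; omega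
    · simp only [Finset.mem_insert, Finset.mem_singleton, Prod.mk.injEq]; omega
  · intro x _ y _ h
    exact congrArg Prod.snd h
  · rw [Finset.disjoint_left]
    intro y hy hy'
    rw [Finset.mem_image] at hy'
    obtain ⟨w', _, rfl⟩ := hy'
    simp only [Finset.mem_insert, Finset.mem_singleton, Prod.mk.injEq] at hy
    omega

/-- **Products.** -/
theorem product_map (Δ : ℕ) (hΔ : ∀ w, H.degree w ≤ Δ) :
    (∀ v, (sqProd H).degree v ≤ Δ + 4) ∧ PlaneMap (sqProd H) (fun v => (v.1.1 : ℝ))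
      (fun v => (v.1.2 : ℝ)) 1 (1 / ((Δ : ℝ) + 4)) 1 := by
  have hd : ∀ v, ((sqProd H).degree v : ℝ) = 4 + H.degree v.2 := by
    rintro ⟨⟨a, b⟩, w⟩
    rw [← SimpleGraph.card_neighborFinset_eq_degree, Finset.card_eq_sum_ones, Nat.cast_sum]
    have := sum_sqProd (H := H) (fun _ => 1) a b w
    simp only [Nat.cast_one]
    rw [this, Finset.sum_const, SimpleGraph.card_neighborFinset_eq_degree]
    simp
    ring
  have hd1 : ∀ v, (sqProd H).degree v = 4 + H.degree v.2 := fun v => by exact_mod_cast hd v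
  have hadj : ∀ x y, (sqProd H).Adj x y → |(y.1.1 : ℝ) - x.1.1| ≤ 1 ∧ |(y.1.2 : ℝ) - x.1.2| ≤ 1 := by
    rintro ⟨⟨a, b⟩, w⟩ ⟨⟨a', b'⟩, w'⟩ h
    simp only [SimpleGraph.boxProd_adj, hasse_int, Prod.mk.injEq] at h ⊢
    rcases h with (⟨(⟨h1 | h1, h2⟩ | ⟨h1 | h1, h2⟩), h3⟩ | ⟨h1, h2, h3⟩)
    · subst h1; subst h2; simp
    · subst h1; subst h2; simp
    · subst h1; subst h2; simp
    · subst h1; subst h2; simp
    · subst h2; subst h3; simp
  refine ⟨fun v => by rw [hd1]; have := hΔ v.2; omega, ⟨fun v => by rw [hd1]; omega,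
    fun x y h => (hadj x y h).1, fun x y h => (hadj x y h).2, ?_, ?_, ?_, one_pos, by positivity,
    one_pos⟩⟩
  · rintro ⟨⟨a, b⟩, w⟩
    rw [sum_sqProd]
    simp
  · rintro ⟨⟨a, b⟩, w⟩
    rw [sum_sqProd]
    simp
  · rintro ⟨⟨a, b⟩, w⟩ u1 u2
    rw [Function.iterate_one, Pr, ← Finset.mul_sum, sum_sqProd, hd]
    simp only [sub_self, mul_zero, add_zero, ne_eq, OfNat.ofNat_ne_zero, not_false_eq_true,
      zero_pow, Finset.sum_const_zero, zero_add]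
    push_cast
    have h1 : (H.degree w : ℝ) ≤ Δ := by exact_mod_cast hΔ w
    have h2 : 1 / (2 * (4 + (H.degree w : ℝ))) * ((u1 * (a + 1 - a)) ^ 2 + (u1 * (a - 1 - a)) ^ 2 +
        (u2 * (b + 1 - b)) ^ 2 + (u2 * (b - 1 - b)) ^ 2) =
        1 / (4 + (H.degree w : ℝ)) * (u1 ^ 2 + u2 ^ 2) := by
      field_simp
      ring
    have h3 : 1 / ((Δ : ℝ) + 4) ≤ 1 / (4 + (H.degree w : ℝ)) := by
      apply one_div_le_one_div_of_le (by positivity)
      linarith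
    have h4 := mul_le_mul_of_nonneg_right h3 (by positivity : 0 ≤ u1 ^ 2 + u2 ^ 2)
    refine h4.trans (le_of_eq ?_)
    rw [← h2]

end

end MP7315a9
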