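import Pool.Agent.Lib.MP_7315a9_pr.Op

/-!
# The second moment method for the number of walkers which meet a given trajectory
-/

open MeasureTheory ProbabilityTheory Set Filter

namespace MP7315a9

noncomputable section

variable {V : Type*} {G : SimpleGraph V} [G.LocallyFinite] {n : ℕ}

/-- The stationary weight of a trajectory. -/
def mw (G : SimpleGraph V) [G.LocallyFinite] (γ : Tr V n) : ENNReal :=
  (G.degree (γ 0) : ENNReal) * wt G γ

/-- The indicator of coincidence at time `s`. -/
def co (γ : Tr V n) (s : Fin (n + 1)) (γ' : Tr V n) : ENNReal :=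
  open Classical in if γ' s = γ s then 1 else 0

lemma prod_two {α : Type*} [Fintype α] [DecidableEq α] (f g : α → ENNReal) (i j : α) :
    ∏ k, ((if k = i then f k else 1) * (if k = j then g k else 1)) = f i * g j := by
  rw [Finset.prod_mul_distrib, Finset.prod_ite_eq' Finset.univ i f,
    Finset.prod_ite_eq' Finset.univ j g]
  simp

/-- The two point function. -/
lemma two_point (hdeg : ∀ v, 0 < G.degree v) (γ : Tr V n) {s s' : Fin (n + 1)} (hs : s ≤ s') :
    ∑' γ' : Tr V n, mw G γ' * (co γ s γ' * co γ s' γ') ≤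
      (G.degree (γ s) : ENNReal) *
        (Pe G)^[(s' : ℕ) - s] (fun x => open Classical in if x = γ s' then 1 else 0) (γ s) := by
  classical
  let h : ℕ → V → ENNReal := fun j x => (if j = (s : ℕ) then (if x = γ s then 1 else 0) else 1) *
    (if j = (s' : ℕ) then (if x = γ s' then 1 else 0) else 1)
  have h1 : ∀ γ' : Tr V n, ∏ j : Fin (n + 1), h j (γ' j) = co γ s γ' * co γ s' γ' := by
    intro γ'
    have h2 := prod_two (fun k : Fin (n + 1) => (if γ' k = γ s then (1 : ENNReal) else 0))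
      (fun k : Fin (n + 1) => (if γ' k = γ s' then (1 : ENNReal) else 0)) s s'
    simp only [co]
    rw [← h2]
    refine Finset.prod_congr rfl fun j _ => ?_
    simp only [h, Fin.ext_iff]
  have h2 := mass_at (G := G) hdeg n h s (by omega) (γ s) (by
    intro x hx
    simp [h, hx])
  have h3 : ∑' γ' : Tr V n, mw G γ' * (co γ s γ' * co γ s' γ') =
      (G.degree (γ s) : ENNReal) * Bk G h s (γ s) * U G (n - s) (fun j => h (j + s)) (γ s) := by
    rw [← h2]
    refine tsum_congr fun γ' => ?_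
    rw [h1, mw]
  rw [h3, Bk_one hdeg (fun j hj x => by
    have e1 : j ≠ (s : ℕ) := by omega
    have e2 : j ≠ (s' : ℕ) := by
      have : (s : ℕ) ≤ s' := hs
      omega
    simp [h, e1, e2]), mul_one]
  refine mul_le_mul_right ?_ _
  -- compare the forward value
  let h' : ℕ → V → ENNReal := fun j x =>
    if j = (s' : ℕ) - s then (if x = γ s' then 1 else 0) else 1
  have hss : (s : ℕ) ≤ s' := hs
  have hsn : (s' : ℕ) < n + 1 := s'.2
  have h4 : U G (n - s) (fun j => h (j + s)) (γ s) ≤ U G (n - s) h' (γ s) := by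
    refine U_mono (fun j hj x => ?_) _
    by_cases e : j = (s' : ℕ) - s
    · have e' : j + s = (s' : ℕ) := by omega
      simp only [h, h', e, if_true]
      have e2 : (s' : ℕ) - s + s = s' := by omega
      rw [e2]
      simp only [if_true]
      by_cases e3 : x = γ s'
      · simp only [e3, if_true, mul_one]
        split_ifs <;> simp
      · simp [e3]
    · have e' : j + (s : ℕ) ≠ (s' : ℕ) := by omega
      simp only [h, h', e, e', if_false, mul_one]
      split_ifs <;> simp
  refine h4.trans ?_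
  rw [U_iter (k := (s' : ℕ) - s) (by omega) (fun j hj x => by
    have : j ≠ (s' : ℕ) - s := by omega
    simp [h', this])]
  refine Pe_iter_mono (fun x => ?_) _ _
  obtain ⟨m, hm⟩ : ∃ m, n - s - ((s' : ℕ) - s) = m := ⟨_, rfl⟩
  rw [hm]
  cases m with
  | zero =>
    simp only [U, h', zero_add, if_true]
    exact le_rfl
  | succ m =>
    have h5 : (U G m fun j => (fun j => h' (j + ((s' : ℕ) - s))) (j + 1)) = fun _ => 1 := by
      funext y
      refine U_one hdeg (fun j hj z => ?_) y
      have : j + 1 + ((s' : ℕ) - s) ≠ (s' : ℕ) - s := by omega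
      simp only [h', this, if_false]
    rw [U, h5, Pe_const hdeg, mul_one]
    simp only [h', zero_add, if_true]
    exact le_rfl

lemma inner_sum (a : ℕ → ENNReal) (s : Fin (n + 1)) (S : Finset (Fin (n + 1))) :
    ∑ s' ∈ S, (if s ≤ s' then a ((s' : ℕ) - s) else 0) ≤ ∑ k ∈ Finset.range (n + 1), a k := by
  classical
  have hs : (s : ℕ) < n + 1 := s.2
  calc ∑ s' ∈ S, (if s ≤ s' then a ((s' : ℕ) - s) else 0)
      ≤ ∑ s' : Fin (n + 1), (if s ≤ s' then a ((s' : ℕ) - s) else 0) :=
        Finset.sum_le_sum_of_subset (Finset.subset_univ S)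
    _ = ∑ i ∈ Finset.range (n + 1), (if (s : ℕ) ≤ i then a (i - s) else 0) := by
        rw [← Fin.sum_univ_eq_sum_range (fun i => if (s : ℕ) ≤ i then a (i - s) else 0)]
        rfl
    _ = ∑ i ∈ Finset.Ico (s : ℕ) (n + 1), a (i - s) := by
        rw [← Finset.sum_filter]
        congr 1
        ext i
        simp only [Finset.mem_filter, Finset.mem_range, Finset.mem_Ico]
        tauto
    _ = ∑ k ∈ Finset.range (n + 1 - s), a k := by
        rw [Finset.sum_Ico_eq_sum_range]
        exact Finset.sum_congr rfl fun k _ => by rw [Nat.add_sub_cancel_left]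
    _ ≤ ∑ k ∈ Finset.range (n + 1), a k :=
        Finset.sum_le_sum_of_subset (Finset.range_subset_range.2 (by omega))

/-- The second moment bound. -/
lemma second_moment (hdeg : ∀ v, 0 < G.degree v) (γ : Tr V n) (S : Finset (Fin (n + 1)))
    (Λ : Set V) (K : Set (Tr V n)) {c0 g : ℝ} (hc0 : 0 < c0) (hg : 0 < g)
    (h1 : ∀ s ∈ S, ENNReal.ofReal c0 * (G.degree (γ s) : ENNReal) ≤
      ∑' γ' : Tr V n, mw G γ' * ((open Classical in if γ' 0 ∈ Λ ∧ γ' ∈ K then 1 else 0) * co γ s γ'))
    {a : ℕ → ℝ} (ha : ∀ k, 0 ≤ a k)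
    (h2 : ∀ k ≤ n, ∀ x y, (Pe G)^[k] (fun z => open Classical in if z = y then 1 else 0) x ≤
      ENNReal.ofReal (a k))
    (h3 : ∑ k ∈ Finset.range (n + 1), a k ≤ g) :
    ENNReal.ofReal (S.card * (c0 ^ 2 / (2 * g))) ≤
      ∑' γ' : Tr V n, mw G γ' *
        (open Classical in if γ' 0 ∈ Λ ∧ γ' ∈ K ∧ Meet γ γ' then 1 else 0) := by
  classical
  set D : ℝ := ∑ s ∈ S, (G.degree (γ s) : ℝ) with hD
  have hDS : (S.card : ℝ) ≤ D := by
    rw [hD, Finset.card_eq_sum_ones, Nat.cast_sum]
    refine Finset.sum_le_sum fun s _ => ?_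
    exact_mod_cast hdeg (γ s)
  have hD0 : 0 ≤ D := (Nat.cast_nonneg _).trans hDS
  have hDE : ENNReal.ofReal D = ∑ s ∈ S, (G.degree (γ s) : ENNReal) := by
    rw [hD, ENNReal.ofReal_sum_of_nonneg fun _ _ => Nat.cast_nonneg _]
    exact Finset.sum_congr rfl fun s _ => ENNReal.ofReal_natCast _
  set θ : ℝ := c0 / (2 * g) with hθ
  have hθ0 : 0 < θ := by positivity
  let Z : Tr V n → ENNReal := fun γ' => ∑ s ∈ S, co γ s γ'
  let I : Tr V n → ENNReal := fun γ' => if γ' 0 ∈ Λ ∧ γ' ∈ K then 1 else 0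
  let J : Tr V n → ENNReal := fun γ' => if γ' 0 ∈ Λ ∧ γ' ∈ K ∧ Meet γ γ' then 1 else 0
  have hco : ∀ s γ', co γ s γ' ≤ 1 := by
    intro s γ'; simp only [co]; split_ifs <;> simp
  have hZfin : ∀ γ', Z γ' ≠ ⊤ := by
    intro γ'
    refine ENNReal.sum_ne_top.2 fun s _ => ?_
    exact ne_top_of_le_ne_top ENNReal.one_ne_top (hco s γ')
  -- pointwise inequality
  have hpt : ∀ γ', mw G γ' * (I γ' * (ENNReal.ofReal (2 * θ) * Z γ')) ≤
      mw G γ' * J γ' + mw G γ' * (ENNReal.ofReal (θ ^ 2) * (Z γ' * Z γ')) := by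
    intro γ'
    rw [← mul_add]
    refine mul_le_mul_right ?_ _
    by_cases hI : γ' 0 ∈ Λ ∧ γ' ∈ K
    · have hI1 : I γ' = 1 := by simp only [I, hI, and_self, if_true]
      rw [hI1, one_mul]
      by_cases hM : Meet γ γ'
      · have hJ1 : J γ' = 1 := by simp only [J, hI, hM, and_self, if_true]
        rw [hJ1]
        obtain ⟨z, hz⟩ : ∃ z : NNReal, Z γ' = z := ⟨(Z γ').toNNReal, (ENNReal.coe_toNNReal (hZfin γ')).symm⟩
        rw [hz]
        have e1 : (z : ENNReal) = ENNReal.ofReal (z : ℝ) := (ENNReal.ofReal_coe_nnreal).symm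
        rw [e1, ← ENNReal.ofReal_mul (by positivity), ← ENNReal.ofReal_mul (by positivity),
          ← ENNReal.ofReal_mul (by positivity), ← ENNReal.ofReal_one,
          ← ENNReal.ofReal_add (by norm_num) (by positivity)]
        apply ENNReal.ofReal_le_ofReal
        nlinarith [sq_nonneg (θ * (z : ℝ) - 1)]
      · have hZ0 : Z γ' = 0 := by
          refine Finset.sum_eq_zero fun s _ => ?_
          simp only [co]
          rw [if_neg]
          intro h
          exact hM ⟨s, h.symm⟩
        rw [hZ0]; simp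
    · have hI0 : I γ' = 0 := by simp only [I, hI, if_false]
      rw [hI0]; simp
  have hsum := ENNReal.tsum_le_tsum hpt
  rw [ENNReal.tsum_add] at hsum
  -- first moment
  have hfirst : ENNReal.ofReal (2 * θ * c0 * D) ≤
      ∑' γ', mw G γ' * (I γ' * (ENNReal.ofReal (2 * θ) * Z γ')) := by
    have e1 : ∀ γ', mw G γ' * (I γ' * (ENNReal.ofReal (2 * θ) * Z γ')) =
        ENNReal.ofReal (2 * θ) * ∑ s ∈ S, mw G γ' * (I γ' * co γ s γ') := by
      intro γ'
      simp only [Z]
      rw [Finset.mul_sum, Finset.mul_sum, Finset.mul_sum, Finset.mul_sum]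
      exact Finset.sum_congr rfl fun s _ => by ring
    simp only [e1]
    rw [ENNReal.tsum_mul_left, Summable.tsum_finsetSum fun _ _ => ENNReal.summable]
    rw [show 2 * θ * c0 * D = 2 * θ * (c0 * D) by ring, ENNReal.ofReal_mul (by positivity),
      ENNReal.ofReal_mul hc0.le, hDE, Finset.mul_sum]
    refine mul_le_mul_right (Finset.sum_le_sum fun s hs => ?_) _
    exact h1 s hs
  -- second moment
  have hsecond : ∑' γ', mw G γ' * (ENNReal.ofReal (θ ^ 2) * (Z γ' * Z γ')) ≤
      ENNReal.ofReal (θ ^ 2 * (2 * D * g)) := by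
    have e1 : ∀ γ', mw G γ' * (ENNReal.ofReal (θ ^ 2) * (Z γ' * Z γ')) =
        ENNReal.ofReal (θ ^ 2) * ∑ s ∈ S, ∑ s' ∈ S, mw G γ' * (co γ s γ' * co γ s' γ') := by
      intro γ'
      simp only [Z]
      rw [Finset.sum_mul_sum]
      simp only [Finset.mul_sum]
      exact Finset.sum_congr rfl fun s _ => Finset.sum_congr rfl fun s' _ => by ring
    simp only [e1]
    rw [ENNReal.tsum_mul_left, Summable.tsum_finsetSum fun _ _ => ENNReal.summable,
      ENNReal.ofReal_mul (by positivity)]
    refine mul_le_mul_right ?_ _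
    have e2 : ∀ s ∈ S, ∑' γ', ∑ s' ∈ S, mw G γ' * (co γ s γ' * co γ s' γ') ≤
        ∑ s' ∈ S, ((G.degree (γ s) : ENNReal) *
            (if s ≤ s' then ENNReal.ofReal (a ((s' : ℕ) - s)) else 0) +
          (G.degree (γ s') : ENNReal) *
            (if s' ≤ s then ENNReal.ofReal (a ((s : ℕ) - s')) else 0)) := by
      intro s _
      rw [Summable.tsum_finsetSum fun _ _ => ENNReal.summable]
      refine Finset.sum_le_sum fun s' _ => ?_
      rcases le_total s s' with hss | hss
      · refine le_trans ?_ le_self_add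
        rw [if_pos hss]
        refine (two_point hdeg γ hss).trans (mul_le_mul_right ?_ _)
        refine h2 _ (by have := s'.2; omega) _ _
      · refine le_trans ?_ le_add_self
        rw [if_pos hss]
        have e3 : ∑' γ', mw G γ' * (co γ s γ' * co γ s' γ') =
            ∑' γ', mw G γ' * (co γ s' γ' * co γ s γ') :=
          tsum_congr fun γ' => by rw [mul_comm (co γ s γ')]
        rw [e3]
        refine (two_point hdeg γ hss).trans (mul_le_mul_right ?_ _)
        refine h2 _ (by have := s.2; omega) _ _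
    refine (Finset.sum_le_sum e2).trans ?_
    simp only [Finset.sum_add_distrib]
    have e4 : ∑ k ∈ Finset.range (n + 1), ENNReal.ofReal (a k) ≤ ENNReal.ofReal g := by
      rw [← ENNReal.ofReal_sum_of_nonneg fun k _ => ha k]
      exact ENNReal.ofReal_le_ofReal h3
    have e5 : ∑ s ∈ S, ∑ s' ∈ S, (G.degree (γ s) : ENNReal) *
        (if s ≤ s' then ENNReal.ofReal (a ((s' : ℕ) - s)) else 0) ≤
        ENNReal.ofReal D * ENNReal.ofReal g := by
      rw [hDE, Finset.sum_mul]
      refine Finset.sum_le_sum fun s _ => ?_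
      rw [← Finset.mul_sum]
      exact mul_le_mul_right ((inner_sum (fun k => ENNReal.ofReal (a k)) s S).trans e4) _
    have e6 : ∑ s ∈ S, ∑ s' ∈ S, (G.degree (γ s') : ENNReal) *
        (if s' ≤ s then ENNReal.ofReal (a ((s : ℕ) - s')) else 0) ≤
        ENNReal.ofReal D * ENNReal.ofReal g := by
      rw [Finset.sum_comm]
      exact e5
    refine (add_le_add e5 e6).trans ?_
    rw [← ENNReal.ofReal_mul hD0, ← ENNReal.ofReal_add (by positivity) (by positivity)]
    exact ENNReal.ofReal_le_ofReal (by linarith)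
  -- conclusion
  have h5 : ENNReal.ofReal (2 * θ * c0 * D) ≤
      ∑' γ', mw G γ' * J γ' + ENNReal.ofReal (θ ^ 2 * (2 * D * g)) :=
    hfirst.trans (hsum.trans (add_le_add le_rfl hsecond))
  have h6 : ENNReal.ofReal (2 * θ * c0 * D - θ ^ 2 * (2 * D * g)) ≤ ∑' γ', mw G γ' * J γ' := by
    rw [ENNReal.ofReal_sub _ (by positivity)]
    exact tsub_le_iff_right.2 h5
  refine le_trans (ENNReal.ofReal_le_ofReal ?_) h6
  have h7 : 2 * θ * c0 * D - θ ^ 2 * (2 * D * g) = D * (c0 ^ 2 / (2 * g)) := by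
    rw [hθ]; field_simp; ring
  rw [h7]
  exact mul_le_mul_of_nonneg_right hDS (by positivity)

variable [MeasurableSpace V] [DiscreteMeasurableSpace V]

/-- A walker started in `Λ` with trajectory in `S` exists with probability at least
`1 - exp (- lam * c)`. -/
lemma exists_traj' [Countable V] (G : SimpleGraph V) [G.LocallyFinite] (lam : NNReal)
    (hdeg : ∀ v, 0 < G.degree v) (n : ℕ) (Λ : Set V) (S : Set (Tr V n)) {c : ℝ}
    (hc : ENNReal.ofReal c < ∑' γ : Tr V n, mw G γ *
      (open Classical in if γ 0 ∈ Λ ∧ γ ∈ S then 1 else 0)) :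
    ENNReal.ofReal (1 - Real.exp (-(lam * c))) ≤
      snLaw G lam {ω | ∃ v ∈ Λ, ∃ i < ω.1 v, traj n ω (v, i) ∈ S} := by
  classical
  have := isProb_pl G hdeg n
  have h1 : ∑' γ : Tr V n, mw G γ * (if γ 0 ∈ Λ ∧ γ ∈ S then 1 else 0) =
      ∑' x, (if x ∈ Λ then (G.degree x : ENNReal) * pl G n x S else 0) := by
    have e1 : ∀ x, (if x ∈ Λ then (G.degree x : ENNReal) * pl G n x S else 0) =
        ∑' γ : Tr V n, (if γ 0 = x then mw G γ * (if γ 0 ∈ Λ ∧ γ ∈ S then 1 else 0) else 0) := by
      intro x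
      by_cases hx : x ∈ Λ
      · rw [if_pos hx, pl_apply G hdeg, ← ENNReal.tsum_mul_left]
        refine tsum_congr fun γ => ?_
        by_cases h2 : γ 0 = x
        · by_cases h3 : γ ∈ S
          · rw [indicator_of_mem h3, if_pos h2, if_pos h2, h2, if_pos ⟨hx, h3⟩, mul_one, mw, h2]
          · rw [indicator_of_notMem h3, if_pos h2, if_neg (fun h => h3 h.2), mul_zero, mul_zero]
        · rw [if_neg h2]
          by_cases h3 : γ ∈ S
          · rw [indicator_of_mem h3, if_neg h2, mul_zero]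
          · rw [indicator_of_notMem h3, mul_zero]
      · rw [if_neg hx]
        symm
        rw [ENNReal.tsum_eq_zero]
        intro γ
        by_cases h2 : γ 0 = x
        · rw [if_pos h2, h2, if_neg (fun h => hx h.1), mul_zero]
        · rw [if_neg h2]
    simp only [e1]
    rw [ENNReal.tsum_comm]
    refine tsum_congr fun γ => ?_
    rw [tsum_eq_single (γ 0)]
    · rw [if_pos rfl]
    · intro x hx
      rw [if_neg (Ne.symm hx)]
  rw [h1, ENNReal.tsum_eq_iSup_sum, lt_iSup_iff] at hc
  obtain ⟨F, hF⟩ := hc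
  have h2 := exists_traj G lam hdeg n (F.filter fun x => x ∈ Λ) S (c := c) (by
    rw [← ENNReal.ofReal_le_ofReal_iff (by positivity)]
    refine hF.le.trans ?_
    rw [← Finset.sum_filter, ENNReal.ofReal_sum_of_nonneg fun _ _ => by positivity]
    refine Finset.sum_le_sum fun x _ => ?_
    rw [ENNReal.ofReal_mul (Nat.cast_nonneg _), ENNReal.ofReal_natCast, measureReal_def,
      ENNReal.ofReal_toReal (measure_ne_top _ _)])
  refine h2.trans (measure_mono ?_)
  rintro ω ⟨v, hv, i, hi, h3⟩
  exact ⟨v, (Finset.mem_filter.1 hv).2, i, hi, h3⟩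

end

end MP7315a9
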