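import Pool.Agent.Lib.MP_7315a9_pr.Model

/-!
# Poisson thinning for the first step of the walkers
-/

open MeasureTheory ProbabilityTheory Set

namespace MP7315a9

noncomputable section

/-- A family of Boolean variables with product void probabilities. -/
lemma bool_law {Ω I : Type*} [MeasurableSpace Ω] {P : Measure Ω} [IsProbabilityMeasure P]
    {X : I → Ω → Bool} (hX : ∀ i, Measurable (X i)) {β : I → unitInterval}
    (h : ∀ s : Finset I, P (⋂ i ∈ s, {ω | X i ω = false}) = ∏ i ∈ s, ENNReal.ofReal (1 - β i)) :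
    P.map (fun ω i => X i ω) = bits β := by
  have hC : ∀ i, MeasurableSet {ω | X i ω = false} := fun i => hX i (by trivial : MeasurableSet {false})
  have h1 : ∀ i, P {ω | X i ω = false} = ENNReal.ofReal (1 - β i) := by
    intro i
    have := h {i}
    simpa using this
  have h2 : iIndepSet (fun i => {ω | X i ω = false}) P := by
    rw [iIndepSet_iff_meas_biInter hC]
    intro s
    rw [h s]
    exact Finset.prod_congr rfl fun i _ => (h1 i).symm
  have h3 : iIndepFun X P := by
    rw [iIndepFun_iff_measure_inter_preimage_eq_mul]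
    intro S sets _
    rw [iIndepSet_iff] at h2
    refine h2 S fun i _ => ?_
    have hc : MeasurableSet[MeasurableSpace.generateFrom {{ω | X i ω = false}}]
        {ω | X i ω = false} := MeasurableSpace.measurableSet_generateFrom rfl
    have ht : MeasurableSet[MeasurableSpace.generateFrom {{ω | X i ω = false}}]
        {ω | X i ω = true} := by
      have : {ω | X i ω = true} = {ω | X i ω = false}ᶜ := by
        ext ω; simp
      rw [this]; exact hc.compl
    have : X i ⁻¹' sets i = ({ω | X i ω = false} ∩ {_ω | false ∈ sets i}) ∪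
        ({ω | X i ω = true} ∩ {_ω | true ∈ sets i}) := by
      ext ω
      rcases hb : X i ω <;> simp [hb]
    rw [this]
    exact (hc.inter (@MeasurableSet.const _ (_) _)).union (ht.inter (@MeasurableSet.const _ (_) _))
  rw [h3.map_fun_eq_infinitePi_map hX]
  unfold bits
  congr 1
  funext i
  have : IsProbabilityMeasure (P.map (X i)) := Measure.isProbabilityMeasure_map (hX i).aemeasurable
  apply eq_bern_of_false
  rw [Measure.map_apply (hX i) (by trivial)]
  exact h1 i

/-- The generating function of the Poisson law. -/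
lemma poisson_pow (r : NNReal) (q : NNReal) :
    ∫⁻ n, (q : ENNReal) ^ n ∂(poissonMeasure r) = ENNReal.ofReal (Real.exp (-(r * (1 - q)))) := by
  rw [poissonMeasure, lintegral_sum_measure]
  simp only [lintegral_smul_measure, lintegral_dirac, smul_eq_mul]
  have h1 : ∀ n : ℕ, ENNReal.ofReal (Real.exp (-r) * r ^ n / n.factorial) * (q : ENNReal) ^ n =
      ENNReal.ofReal (Real.exp (-r) * ((r * q) ^ n / n.factorial)) := by
    intro n
    rw [← ENNReal.ofReal_coe_nnreal (p := q), ← ENNReal.ofReal_pow (NNReal.coe_nonneg q),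
      ← ENNReal.ofReal_mul (by positivity)]
    congr 1
    ring
  simp only [h1]
  have h2 : HasSum (fun n : ℕ => Real.exp (-r) * (((r : ℝ) * q) ^ n / n.factorial))
      (Real.exp (-r) * Real.exp (r * q)) := by
    have := (NormedSpace.expSeries_div_hasSum_exp ((r : ℝ) * q)).mul_left (Real.exp (-r))
    rwa [← Real.exp_eq_exp_ℝ] at this
  rw [← ENNReal.ofReal_tsum_of_nonneg (fun n => by positivity) h2.summable, h2.tsum_eq,
    ← Real.exp_add]
  congr 2
  ring

variable {V : Type*} [MeasurableSpace V] [DiscreteMeasurableSpace V]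

lemma snLaw_prob (G : SimpleGraph V) [G.LocallyFinite] (lam : NNReal)
    (hdeg : ∀ v, 0 < G.degree v) : IsProbabilityMeasure (snLaw G lam) := by
  have : ∀ x, IsProbabilityMeasure (stepLaw G x) := fun x => isProb_stepLaw G (hdeg x)
  unfold snLaw
  infer_instance

/-- Void probabilities of the first steps. -/
lemma void [Countable V] (G : SimpleGraph V) [G.LocallyFinite] (lam : NNReal)
    (hdeg : ∀ v, 0 < G.degree v) (F : Finset V) (S : V → Set V) :
    snLaw G lam {ω | ∀ v ∈ F, ∀ i < ω.1 v, ω.2 (v, i, 0, v) ∉ S v} =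
      ∏ v ∈ F, ENNReal.ofReal (Real.exp (-(lam * G.degree v * (stepLaw G v).real (S v)))) := by
  classical
  have hp : ∀ x, IsProbabilityMeasure (stepLaw G x) := fun x => isProb_stepLaw G (hdeg x)
  set E : Set (Om V) := {ω | ∀ v ∈ F, ∀ i < ω.1 v, ω.2 (v, i, 0, v) ∉ S v} with hE
  have hEm : MeasurableSet E := by
    have : E = ⋂ v ∈ F, ⋂ i : ℕ, ({ω : Om V | ¬ i < ω.1 v} ∪
        {ω : Om V | ω.2 (v, i, 0, v) ∉ S v}) := by
      ext ω
      simp only [hE, mem_ofPred_eq, mem_iInter, mem_union, ← imp_iff_not_or]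
    rw [this]
    refine Finset.measurableSet_biInter _ fun v _ => MeasurableSet.iInter fun i => ?_
    refine MeasurableSet.union ?_ ?_
    · have h1 : Measurable fun ω : Om V => ω.1 v := by fun_prop
      exact h1 (MeasurableSet.of_discrete (s := {n | ¬ i < n}))
    · have h1 : Measurable fun ω : Om V => ω.2 (v, i, 0, v) := by fun_prop
      exact h1 (MeasurableSet.of_discrete (s := {y | y ∉ S v}))
  let q : V → NNReal := fun v => (stepLaw G v (S v)ᶜ).toNNReal
  have hq : ∀ v, (q v : ENNReal) = stepLaw G v (S v)ᶜ :=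
    fun v => ENNReal.coe_toNNReal (measure_ne_top _ _)
  have h1 : ∀ N : V → ℕ, (Measure.infinitePi fun k : V × ℕ × ℕ × V => stepLaw G k.2.2.2)
      (Prod.mk N ⁻¹' E) = ∏ v ∈ F, (q v : ENNReal) ^ N v := by
    intro N
    let K : Finset (V × ℕ × ℕ × V) := (F.sigma fun v => Finset.range (N v)).map
      ⟨fun x => (x.1, x.2, 0, x.1), fun a b hab => by
        rcases a with ⟨a1, a2⟩; rcases b with ⟨b1, b2⟩
        simp only [Prod.mk.injEq] at hab
        obtain ⟨rfl, rfl, _⟩ := hab; rfl⟩
    have e1 : Prod.mk N ⁻¹' E = Set.pi (K : Set (V × ℕ × ℕ × V)) fun k => (S k.1)ᶜ := by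
      ext ξ
      simp only [hE, K, mem_preimage, mem_ofPred_eq, mem_pi, Finset.mem_coe, Finset.mem_map,
        Finset.mem_sigma, Finset.mem_range, Function.Embedding.coeFn_mk, mem_compl_iff]
      constructor
      · rintro h k ⟨⟨v, i⟩, ⟨hv, hi⟩, rfl⟩
        exact h v hv i hi
      · intro h v hv i hi
        exact h (v, i, 0, v) ⟨⟨v, i⟩, ⟨hv, hi⟩, rfl⟩
    rw [e1, Measure.infinitePi_pi _ fun _ _ => MeasurableSet.of_discrete, Finset.prod_map,
      Finset.prod_sigma]
    refine Finset.prod_congr rfl fun v _ => ?_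
    simp [hq]
  rw [snLaw, Measure.prod_apply hEm]
  simp only [h1]
  have h2 : iIndepFun (fun (v : V) (N : V → ℕ) => (q v : ENNReal) ^ N v)
      (Measure.infinitePi fun v => poissonMeasure (lam * G.degree v)) :=
    iIndepFun_infinitePi (P := fun v => poissonMeasure (lam * G.degree v))
      (X := fun (v : V) (n : ℕ) => (q v : ENNReal) ^ n) fun v => Measurable.of_discrete
  rw [lintegral_prod_eq_prod_lintegral_of_indepFun F _ h2 (fun v => by fun_prop)]
  refine Finset.prod_congr rfl fun v _ => ?_
  have h3 := Measure.infinitePi_map_eval (fun v => poissonMeasure (lam * G.degree v)) v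
  have h4 : ∫⁻ N : V → ℕ, (q v : ENNReal) ^ N v
      ∂(Measure.infinitePi fun v => poissonMeasure (lam * G.degree v)) =
      ∫⁻ n, (q v : ENNReal) ^ n ∂(poissonMeasure (lam * G.degree v)) := by
    rw [← h3, lintegral_map (by fun_prop) (by fun_prop)]
  rw [h4, poisson_pow]
  congr 3
  have h5 : (q v : ℝ) = 1 - (stepLaw G v).real (S v) := by
    have : (q v : ℝ) = (stepLaw G v).real (S v)ᶜ := rfl
    rw [this, measureReal_compl MeasurableSet.of_discrete]
    simp
  rw [h5]
  push_cast
  ring

end

end MP7315a9
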