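import Pool.Agent.Lib.MP_7315a9_pr.Barrier

/-!
# Harmonic maps to the plane: travel estimates
-/

open Set Filter

namespace MP7315a9

noncomputable section

variable {V : Type*} {G : SimpleGraph V} [G.LocallyFinite] {F1 F2 : V → ℝ} {b ε : ℝ} {T0 : ℕ}

/-- Transfer of a lower bound through a hitting estimate. -/
lemma transfer (hdeg : ∀ v, 0 < G.degree v) {A B : Set V} {f : V → ℝ} (hf : ∀ x, 0 ≤ f x)
    {κ : ℝ} {j0 j1 : ℕ} (h : ∀ a ∈ A, ∀ j, j0 ≤ j → j ≤ j1 → κ ≤ (Pr G)^[j] f a)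
    (T : ℕ) : ∀ n, T * T0 + j0 ≤ n → n ≤ j1 → ∀ x, κ * uu G T0 A B T x ≤ (Pr G)^[n] f x := by
  induction T with
  | zero =>
    intro n h1 h2 x
    by_cases hA : x ∈ A
    · simp only [uu, indicator_of_mem hA, Pi.one_apply, mul_one]
      exact h x hA n (by omega) h2
    · simp only [uu, indicator_of_notMem hA, mul_zero]
      exact Pr_iter_nonneg hdeg hf n x
  | succ T ih =>
    intro n h1 h2 x
    have h1' : T * T0 + T0 + j0 ≤ n := by
      have : (T + 1) * T0 = T * T0 + T0 := by ring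
      omega
    by_cases hA : x ∈ A
    · have h3 : x ∉ B \ A := fun h => h.2 hA
      simp only [uu, indicator_of_mem hA, indicator_of_notMem h3, Pi.one_apply, add_zero, mul_one]
      exact h x hA n (by omega) h2
    · by_cases hB : x ∈ B
      · have h3 : x ∈ B \ A := ⟨hB, hA⟩
        simp only [uu, indicator_of_notMem hA, indicator_of_mem h3, zero_add]
        obtain ⟨m, rfl⟩ : ∃ m, n = T0 + m := ⟨n - T0, by omega⟩
        rw [Function.iterate_add_apply, ← Pr_iter_mul]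
        exact Pr_iter_mono (ih m (by omega) (by omega)) T0 x
      · have h3 : x ∉ B \ A := fun h => hB h.1
        simp only [uu, indicator_of_notMem hA, indicator_of_notMem h3, add_zero, mul_zero]
        exact Pr_iter_nonneg hdeg hf n x

lemma ind_nonneg (A : Set V) (x : V) : 0 ≤ A.indicator (1 : V → ℝ) x :=
  indicator_nonneg (fun _ _ => zero_le_one) x

/-- Chain of hitting estimates. -/
lemma chain (hF : PlaneMap G F1 F2 b ε T0) {c2 ρ : ℝ} (hc2 : 0 < c2) {T : ℕ}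
    (hsm : ∀ (c : ℝ × ℝ) (x : V), N2 F1 F2 x c ≤ ρ ^ 2 →
      c2 ≤ uu G T0 {y | N2 F1 F2 y c ≤ (ρ / 4) ^ 2} {y | N2 F1 F2 y c < (2 * ρ) ^ 2} T x)
    {f : V → ℝ} (hf : ∀ x, 0 ≤ f x) (c v : ℝ × ℝ) (hv : v.1 ^ 2 + v.2 ^ 2 ≤ (ρ / 2) ^ 2)
    {κ : ℝ} (hκ : 0 < κ) {j0 j1 : ℕ}
    (h : ∀ a, N2 F1 F2 a c ≤ (ρ / 4) ^ 2 → ∀ j, j0 ≤ j → j ≤ j1 → κ ≤ (Pr G)^[j] f a) (k : ℕ) :
    ∀ a, N2 F1 F2 a (c.1 + k * v.1, c.2 + k * v.2) ≤ (ρ / 4) ^ 2 →
      ∀ j, k * (T * T0) + j0 ≤ j → j ≤ j1 → κ * c2 ^ k ≤ (Pr G)^[j] f a := by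
  induction k with
  | zero =>
    intro a ha j hj hj'
    simp only [pow_zero, mul_one]
    refine h a ?_ j (by omega) hj'
    simpa using ha
  | succ k ih =>
    intro a ha j hj hj'
    have e : (k + 1) * (T * T0) = k * (T * T0) + T * T0 := by ring
    have h1 : N2 F1 F2 a (c.1 + k * v.1, c.2 + k * v.2) ≤ ρ ^ 2 := by
      have e1 : ∀ p q : ℝ, (p + q) ^ 2 ≤ 3 * p ^ 2 + 3 / 2 * q ^ 2 := by
        intro p q
        nlinarith [sq_nonneg (2 * p - q)]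
      simp only [N2] at ha ⊢
      have e2 := e1 (F1 a - (c.1 + ((k + 1 : ℕ) : ℝ) * v.1)) v.1
      have e3 := e1 (F2 a - (c.2 + ((k + 1 : ℕ) : ℝ) * v.2)) v.2
      have e4 : F1 a - (c.1 + ((k + 1 : ℕ) : ℝ) * v.1) + v.1 = F1 a - (c.1 + k * v.1) := by
        push_cast; ring
      have e5 : F2 a - (c.2 + ((k + 1 : ℕ) : ℝ) * v.2) + v.2 = F2 a - (c.2 + k * v.2) := by
        push_cast; ring
      rw [e4] at e2
      rw [e5] at e3
      nlinarith [sq_nonneg ρ]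
    have h2 := hsm (c.1 + k * v.1, c.2 + k * v.2) a h1
    have h3 := transfer (T0 := T0) (B := {y | N2 F1 F2 y (c.1 + k * v.1, c.2 + k * v.2) < (2 * ρ) ^ 2})
      hF.deg hf (j0 := k * (T * T0) + j0) (j1 := j1) ih T j (by omega) hj' a
    have h4 : 0 < κ * c2 ^ k := by positivity
    calc κ * c2 ^ (k + 1) = κ * c2 ^ k * c2 := by ring
      _ ≤ _ := mul_le_mul_of_nonneg_left h2 h4.le
      _ ≤ _ := h3

/-- Travel estimate: in time of order `L ^ 2` the walk reaches the ball of radius `L / 8` around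
`c` from all points at distance at most `2 * L`, with probability bounded from below. -/
lemma travel (hF : PlaneMap G F1 F2 b ε T0) : ∃ c1 > 0, c1 ≤ 1 ∧ ∃ m0 : ℕ, ∀ m ≥ m0,
    ∀ L : ℝ, 0 < L → L ^ 2 = 2048 * b ^ 2 * m → ∀ (c : ℝ × ℝ) (x : V),
      N2 F1 F2 x c ≤ (2 * L) ^ 2 → ∀ n : ℕ, m ≤ 2 * n → n ≤ 8 * m →
        c1 ≤ (Pr G)^[n] ({y | N2 F1 F2 y c ≤ (L / 8) ^ 2}.indicator 1) x := by
  have hb := hF.b0
  obtain ⟨ρ0, hρ0, c2, hc2, CT, hCT, hsm⟩ := small_step hF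
  have ht0 : (0 : ℝ) < T0 := by exact_mod_cast hF.t0
  set Q : ℝ := 4 * (16 * CT * T0 * (2048 * b ^ 2)) with hQ
  have hQ0 : 0 < Q := by positivity
  obtain ⟨J, hJ⟩ := exists_nat_ge (max 16 Q)
  have hJ16 : (16 : ℝ) ≤ J := (le_max_left _ _).trans hJ
  have hJQ : Q ≤ J := (le_max_right _ _).trans hJ
  have hJ0 : (0 : ℝ) < J := by linarith
  obtain ⟨m0, hm0⟩ := exists_nat_ge (max (4 * (J * T0) + 1) ((J * ρ0) ^ 2 / (16 * (2048 * b ^ 2))) : ℝ)
  refine ⟨min 1 (1 / 2 * c2 ^ J), by positivity, min_le_left _ _, m0, ?_⟩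
  intro m hm L hL hL2 c x hx n hn1 hn2
  have hmR : (m0 : ℝ) ≤ m := by exact_mod_cast hm
  have hm1 : 4 * (J * T0 : ℝ) + 1 ≤ m := ((le_max_left _ _).trans hm0).trans hmR
  have hm2 : ((J * ρ0) ^ 2 / (16 * (2048 * b ^ 2)) : ℝ) ≤ m := ((le_max_right _ _).trans hm0).trans hmR
  have hmpos : (0 : ℝ) < m := by
    have : (0 : ℝ) < J * T0 := by positivity
    linarith
  refine (min_le_right _ _).trans ?_
  -- the scale
  set ρ : ℝ := 4 * L / J with hρ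
  have hρpos : 0 < ρ := by positivity
  have hρρ0 : ρ0 ≤ ρ := by
    rw [hρ, le_div_iff₀ hJ0]
    rw [div_le_iff₀ (by positivity)] at hm2
    have h1 : (ρ0 * J) ^ 2 ≤ (4 * L) ^ 2 := by
      have : (4 * L) ^ 2 = m * (16 * (2048 * b ^ 2)) := by
        rw [mul_pow, hL2]; ring
      rw [this]
      calc (ρ0 * J) ^ 2 = (J * ρ0) ^ 2 := by ring
        _ ≤ _ := hm2
    exact le_of_sq_le_sq h1 (by positivity)
  have hρL : ρ ≤ L / 4 := by
    rw [hρ, div_le_iff₀ hJ0]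
    nlinarith
  set T : ℕ := ⌈CT * ρ ^ 2⌉₊ with hT
  have hT1 : CT * ρ ^ 2 ≤ T := Nat.le_ceil _
  have hT2 : (T : ℝ) ≤ CT * ρ ^ 2 + 1 := (Nat.ceil_lt_add_one (by positivity)).le
  have htime : (J * (T * T0) : ℝ) ≤ m / 2 := by
    have h1 : (J * (T * T0) : ℝ) ≤ J * ((CT * ρ ^ 2 + 1) * T0) := by gcongr
    refine h1.trans ?_
    have h2 : (J : ℝ) * ((CT * ρ ^ 2 + 1) * T0) = (16 * CT * T0 * L ^ 2) / J + J * T0 := by
      rw [hρ]; field_simp; ring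
    rw [h2, hL2]
    have h3 : 16 * CT * T0 * (2048 * b ^ 2 * m) / J ≤ m / 4 := by
      rw [div_le_iff₀ hJ0]
      have : 16 * CT * T0 * (2048 * b ^ 2 * m) = Q / 4 * m := by rw [hQ]; ring
      rw [this]
      nlinarith
    linarith
  have htimeN : 2 * (J * (T * T0)) ≤ m := by
    have : (2 * (J * (T * T0)) : ℝ) ≤ m := by linarith
    exact_mod_cast this
  -- the base
  set f : V → ℝ := {y | N2 F1 F2 y c ≤ (L / 8) ^ 2}.indicator 1 with hf
  have hf0 : ∀ x, 0 ≤ f x := fun x => ind_nonneg _ x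
  have hbase : ∀ a, N2 F1 F2 a c ≤ (ρ / 4) ^ 2 → ∀ j, 0 ≤ j → j ≤ 8 * m →
      (1 / 2 : ℝ) ≤ (Pr G)^[j] f a := by
    intro a ha j _ hj
    refine le_trans ?_ (st_le_iter hF.deg _ j a)
    refine le_trans ?_ (stay hF (r := L / 8) (by positivity) (c := c) (fun x hx => le_of_lt hx) j a)
    have h1 : (j : ℝ) ≤ 8 * m := by exact_mod_cast hj
    have h2 : (j : ℝ) * b ^ 2 ≤ 8 * m * b ^ 2 := mul_le_mul_of_nonneg_right h1 (by positivity)
    have h3 : 8 * m * b ^ 2 = L ^ 2 / 256 := by rw [hL2]; ring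
    have h4 : (ρ / 4) ^ 2 ≤ L ^ 2 / 256 := by
      have : (ρ / 4) ^ 2 ≤ (L / 16) ^ 2 := pow_le_pow_left₀ (by positivity) (by linarith) 2
      calc (ρ / 4) ^ 2 ≤ (L / 16) ^ 2 := this
        _ = L ^ 2 / 256 := by ring
    have h5 : (N2 F1 F2 a c + j * b ^ 2) / (L / 8) ^ 2 ≤ 1 / 2 := by
      rw [div_le_iff₀ (by positivity)]
      have : (1 : ℝ) / 2 * (L / 8) ^ 2 = L ^ 2 / 256 + L ^ 2 / 256 := by ring
      linarith
    linarith
  -- the chain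
  set v : ℝ × ℝ := ((F1 x - c.1) / J, (F2 x - c.2) / J) with hv
  have hv2 : v.1 ^ 2 + v.2 ^ 2 ≤ (ρ / 2) ^ 2 := by
    have h1 : v.1 ^ 2 + v.2 ^ 2 = N2 F1 F2 x c / J ^ 2 := by
      simp only [hv, N2]; field_simp
    have h2 : (ρ / 2) ^ 2 = (2 * L) ^ 2 / J ^ 2 := by rw [hρ]; field_simp; ring
    rw [h1, h2]
    gcongr
  have h1 := chain hF hc2 (T := T) (fun c x hx => hsm ρ hρρ0 c x hx T hT1) hf0 c v hv2
    (κ := 1 / 2) (by norm_num) hbase J x (by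
      have e1 : c.1 + J * v.1 = F1 x := by simp only [hv]; field_simp; ring
      have e2 : c.2 + J * v.2 = F2 x := by simp only [hv]; field_simp; ring
      rw [e1, e2]
      have e3 : N2 F1 F2 x (F1 x, F2 x) = 0 := by simp [N2]
      rw [e3]
      positivity) n (by omega) hn2
  exact h1

end

end MP7315a9
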