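import Pool.Agent.Lib.MP_7315a9_pr.Thin

/-!
# Large intensity: an infinite class at time `1`
-/

open MeasureTheory ProbabilityTheory Set

namespace MP7315a9

noncomputable section

lemma coe_pow' (x : unitInterval) (n : ℕ) : ((x ^ n : unitInterval) : ℝ) = (x : ℝ) ^ n :=
  map_pow unitInterval.submonoid.subtype x n

lemma coe_mul' (x y : unitInterval) : ((x * y : unitInterval) : ℝ) = (x : ℝ) * y := rfl

/-- Disjunctions over disjoint finite groups. -/
lemma bits_or {K I : Type*} (r : K → unitInterval) (S : I → Finset K)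
    (hS : ∀ i j k, k ∈ S i → k ∈ S j → i = j) {F : (K → Bool) → I → Bool}
    (hF : ∀ b i, F b i = true ↔ ∃ k ∈ S i, b k = true) :
    (bits r).map F = bits fun i => unitInterval.symm (∏ k ∈ S i, unitInterval.symm (r k)) := by
  classical
  have hinj : Function.Injective fun x : Σ i, {k // k ∈ S i} => (x.2 : K) := by
    rintro ⟨i, k, hk⟩ ⟨j, k', hk'⟩ h
    simp only at h
    subst h
    obtain rfl := hS i j k hk hk'
    rfl
  have h1 := bits_group (J := fun i => {k // k ∈ S i}) r (fun x => (x.2 : K)) hinj
    (fun i b => decide (∃ k, b k = true)) (fun i => measurable_of_finite _)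
  have h2 : F = fun b i => decide (∃ k : {k // k ∈ S i}, b k = true) := by
    funext b i
    rw [Bool.eq_iff_iff, hF]
    simp
  rw [h2, h1]
  unfold bits
  congr 1
  funext i
  refine (bits_exists (fun k : {k // k ∈ S i} => r k) fun b => by simp).trans ?_
  rw [Finset.prod_coe_sort (S i) fun k => unitInterval.symm (r k)]

/-- Conjunctions over disjoint finite groups. -/
lemma bits_and {K I : Type*} (r : K → unitInterval) (S : I → Finset K)
    (hS : ∀ i j k, k ∈ S i → k ∈ S j → i = j) {F : (K → Bool) → I → Bool}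
    (hF : ∀ b i, F b i = true ↔ ∀ k ∈ S i, b k = true) :
    (bits r).map F = bits fun i => ∏ k ∈ S i, r k := by
  classical
  have hinj : Function.Injective fun x : Σ i, {k // k ∈ S i} => (x.2 : K) := by
    rintro ⟨i, k, hk⟩ ⟨j, k', hk'⟩ h
    simp only at h
    subst h
    obtain rfl := hS i j k hk hk'
    rfl
  have h1 := bits_group (J := fun i => {k // k ∈ S i}) r (fun x => (x.2 : K)) hinj
    (fun i b => decide (∀ k, b k = true)) (fun i => measurable_of_finite _)
  have h2 : F = fun b i => decide (∀ k : {k // k ∈ S i}, b k = true) := by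
    funext b i
    rw [Bool.eq_iff_iff, hF]
    simp
  rw [h2, h1]
  unfold bits
  congr 1
  funext i
  refine (bits_all (fun k : {k // k ∈ S i} => r k) fun b => by simp).trans ?_
  rw [Finset.prod_coe_sort (S i) fun k => r k]

lemma measurable_pi_of {K I : Type*} {F : (K → Bool) → I → Bool}
    (S : I → Finset K) (hF : ∀ b b' i, (∀ k ∈ S i, b k = b' k) → F b i = F b' i) :
    Measurable F := by
  classical
  refine measurable_pi_lambda _ fun i => ?_
  let g : ({k // k ∈ S i} → Bool) → Bool := fun c =>
    F (fun k => if h : k ∈ S i then c ⟨k, h⟩ else false) i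
  have h1 : (fun b => F b i) = g ∘ fun b (k : {k // k ∈ S i}) => b k := by
    funext b
    exact hF _ _ i fun k hk => by simp [hk]
  rw [h1]
  exact (measurable_of_finite g).comp (by fun_prop)

variable {V : Type*}

/-- Some walker started at `x.1` is at `x.2` at time `1`. -/
def B (ω : Om V) (x : V × V) : Bool :=
  open Classical in decide (∃ i < ω.1 x.1, ω.2 (x.1, i, 0, x.1) = x.2)

/-- The parameters of the variables `B`. -/
def beta (G : SimpleGraph V) [G.LocallyFinite] (lam : NNReal) (x : V × V) : unitInterval :=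
  ⟨1 - Real.exp (-(lam * G.degree x.1 * stepProb G x.1 x.2)), by
    have h := stepProb_nonneg G x.1 x.2
    constructor
    · rw [sub_nonneg, Real.exp_le_one_iff]
      have : 0 ≤ (lam : ℝ) * G.degree x.1 * stepProb G x.1 x.2 := by positivity
      linarith
    · have := Real.exp_pos (-(lam * G.degree x.1 * stepProb G x.1 x.2))
      linarith⟩

variable [MeasurableSpace V] [DiscreteMeasurableSpace V]

lemma measurable_B [Countable V] (x : V × V) : Measurable fun ω : Om V => B ω x := by
  classical
  have h1 : MeasurableSet {ω : Om V | B ω x = true} := by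
    have : {ω : Om V | B ω x = true} =
        ⋃ i : ℕ, ({ω : Om V | i < ω.1 x.1} ∩ {ω : Om V | ω.2 (x.1, i, 0, x.1) = x.2}) := by
      ext ω; simp [B]
    rw [this]
    refine MeasurableSet.iUnion fun i => MeasurableSet.inter ?_ ?_
    · have h1 : Measurable fun ω : Om V => ω.1 x.1 := by fun_prop
      exact h1 (MeasurableSet.of_discrete (s := {n | i < n}))
    · have h1 : Measurable fun ω : Om V => ω.2 (x.1, i, 0, x.1) := by fun_prop
      exact h1 (MeasurableSet.of_discrete (s := {y | y = x.2}))
  exact measurable_to_bool h1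

lemma B_law [Countable V] (G : SimpleGraph V) [G.LocallyFinite] (lam : NNReal)
    (hdeg : ∀ v, 0 < G.degree v) :
    (snLaw G lam).map (fun ω x => B ω x) = bits (beta G lam) := by
  classical
  have := snLaw_prob G lam hdeg
  apply bool_law measurable_B
  intro s
  have hp : ∀ x, IsProbabilityMeasure (stepLaw G x) := fun x => isProb_stepLaw G (hdeg x)
  have h1 : (⋂ x ∈ s, {ω : Om V | B ω x = false}) =
      {ω : Om V | ∀ v ∈ s.image Prod.fst, ∀ i < ω.1 v,
        ω.2 (v, i, 0, v) ∉ (({x ∈ s | x.1 = v}.image Prod.snd : Finset V) : Set V)} := by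
    ext ω
    simp only [mem_iInter, mem_ofPred_eq, B, decide_eq_false_iff_not, not_exists, not_and,
      Finset.mem_image, Finset.coe_image, mem_image, Finset.mem_coe, Finset.mem_filter]
    constructor
    · rintro h v ⟨x, hx, rfl⟩ i hi y ⟨hy, hy'⟩ hy2
      exact h y hy i (by rw [hy']; exact hi) (by rw [hy']; exact hy2.symm)
    · intro h x hx i hi h2
      exact h x.1 ⟨x, hx, rfl⟩ i hi x ⟨hx, rfl⟩ h2.symm
  rw [h1, void G lam hdeg]
  have h2 : ∀ v, (stepLaw G v).real (({x ∈ s | x.1 = v}.image Prod.snd : Finset V) : Set V) =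
      ∑ x ∈ s with x.1 = v, stepProb G v x.2 := by
    intro v
    have h3 : ∀ y, (stepLaw G v).real {y} = stepProb G v y := by
      intro y
      rw [measureReal_def, stepLaw_apply, tsum_eq_single y]
      · simp [ENNReal.toReal_ofReal (stepProb_nonneg G v y)]
      · intro z hz; simp [hz]
    have h4 : (stepLaw G v).real (({x ∈ s | x.1 = v}.image Prod.snd : Finset V) : Set V) =
        ∑ y ∈ ({x ∈ s | x.1 = v}.image Prod.snd : Finset V), (stepLaw G v).real {y} := by
      rw [← sum_measureReal_singleton]
    rw [h4]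
    simp only [h3]
    rw [Finset.sum_image]
    rintro ⟨a1, a2⟩ ha ⟨b1, b2⟩ hb hab
    simp only [Finset.coe_filter, mem_ofPred_eq] at ha hb
    simp only at hab
    rw [ha.2, hb.2, hab]
  simp only [h2]
  rw [← Finset.prod_fiberwise_of_maps_to (g := Prod.fst) (t := s.image Prod.fst)
    (fun x hx => Finset.mem_image_of_mem _ hx)]
  refine Finset.prod_congr rfl fun v _ => ?_
  rw [Finset.mul_sum, ← Finset.sum_neg_distrib, Real.exp_sum,
    ENNReal.ofReal_prod_of_nonneg fun _ _ => (Real.exp_pos _).le]
  refine Finset.prod_congr rfl fun x hx => ?_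
  rw [Finset.mem_filter] at hx
  obtain ⟨_, rfl⟩ := hx
  simp [beta]

omit [MeasurableSpace V] [DiscreteMeasurableSpace V] in
/-- The graph of the connections of a configuration of first steps. -/
lemma infClass_of_B {ω : Om V} {R : SimpleGraph V}
    (hR : ∀ u v, R.Adj u v → (B ω (u, v) = true ∧ B ω (v, v) = true) ∨
      (B ω (v, u) = true ∧ B ω (u, u) = true))
    (h : HasInf R) {t : ℕ} (ht : 1 ≤ t) : InfClass ω t := by
  classical
  have key : ∀ u v, u ≠ v → B ω (u, v) = true → B ω (v, v) = true →
      0 < ω.1 u ∧ 0 < ω.1 v ∧ (acq ω t).Reachable (u, 0) (v, 0) := by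
    intro u v huv h1 h2
    simp only [B, decide_eq_true_eq] at h1 h2
    obtain ⟨i, hi, h1⟩ := h1
    obtain ⟨j, hj, h2⟩ := h2
    refine ⟨by omega, by omega, ?_⟩
    have s1 : ∀ (x : V) (k : ℕ), k < ω.1 x → (acq ω t).Reachable (x, 0) (x, k) := by
      intro x k hk
      rcases Nat.eq_zero_or_pos k with h0 | h0
      · subst h0; exact SimpleGraph.Reachable.refl _
      · refine SimpleGraph.Adj.reachable ⟨?_, ?_, hk, 0, Nat.zero_le t, rfl⟩
        · intro h; rw [Prod.mk.injEq] at h; omega
        · show 0 < ω.1 x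
          omega
    refine (s1 u i hi).trans (SimpleGraph.Reachable.trans ?_ (s1 v j hj).symm)
    refine SimpleGraph.Adj.reachable ⟨?_, hi, hj, 1, ht, ?_⟩
    · intro h; rw [Prod.mk.injEq] at h; exact huv h.1
    · simp only [pos]
      rw [h1, h2]
  obtain ⟨v0, hv0⟩ := h
  have key2 : ∀ x, R.Reachable v0 x → x = v0 ∨ (0 < ω.1 v0 ∧
      (acq ω t).Reachable (v0, 0) (x, 0)) := by
    intro x hx
    rw [SimpleGraph.reachable_iff_reflTransGen] at hx
    induction hx with
    | refl => exact Or.inl rfl
    | @tail a b _ hab ih =>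
      have h1 : 0 < ω.1 a ∧ (acq ω t).Reachable (a, 0) (b, 0) := by
        rcases hR a b hab with ⟨h2, h3⟩ | ⟨h2, h3⟩
        · obtain ⟨h4, _, h5⟩ := key a b hab.ne h2 h3
          exact ⟨h4, h5⟩
        · obtain ⟨_, h4, h5⟩ := key b a hab.ne' h2 h3
          exact ⟨h4, h5.symm⟩
      right
      rcases ih with rfl | ⟨h2, h3⟩
      · exact h1
      · exact ⟨h2, h3.trans h1.2⟩
  have hpos : 0 < ω.1 v0 := by
    obtain ⟨x, hx, hx'⟩ := hv0.exists_notMem_finset {v0}
    rcases key2 x hx with h | h
    · simp [h] at hx'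
    · exact h.1
  refine ⟨(v0, 0), hpos, ?_⟩
  refine Infinite.mono (s := (fun x => (x, 0)) '' {x | R.Reachable v0 x}) ?_
    (hv0.image (fun a _ b _ h => by simpa using h))
  rintro _ ⟨x, hx, rfl⟩
  rcases key2 x hx with rfl | h
  · exact SimpleGraph.Reachable.refl _
  · exact h.2

/-- The parameter of bond percolation dominated by the acquaintance graph at time `1`:
`1 - (1 - q ^ 2) ^ 2` with `q = 1 - exp (- lam / 2)`. -/
def psi (lam : NNReal) : ℝ := 1 - (1 - (1 - Real.exp (-(lam / 2))) ^ 2) ^ 2

/-- **Large intensity.** If `pc G < psi lam` then there is an infinite class at every time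
`t ≥ 1`, almost surely. -/
theorem upper [Countable V] {G : SimpleGraph V} [G.LocallyFinite] (hG : HasInf G)
    (hdeg : ∀ v, 0 < G.degree v) {lam : NNReal} (hlam : pc G < psi lam) {t : ℕ} (ht : 1 ≤ t) :
    ∀ᵐ ω ∂(snLaw G lam), InfClass ω t := by
  classical
  set q : unitInterval := ⟨1 - Real.exp (-(lam / 2)), by
    constructor
    · rw [sub_nonneg, Real.exp_le_one_iff]
      have : (0 : ℝ) ≤ lam := lam.2
      linarith
    · have := Real.exp_pos (-(lam / 2 : ℝ))
      linarith⟩ with hq
  let r : V × V × Bool → unitInterval := fun k => if G.Adj k.1 k.2.1 then q else 0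
  -- the first steps
  let K1 : V × V → Finset (V × V × Bool) := fun i =>
    if i.1 = i.2 then (G.neighborFinset i.1).image (fun w => (i.1, w, true))
    else {(i.1, i.2, false)}
  let B1 : (V × V × Bool → Bool) → V × V → Bool := fun b i => decide (∃ k ∈ K1 i, b k = true)
  have hK1 : ∀ i j k, k ∈ K1 i → k ∈ K1 j → i = j := by
    intro i j k hi hj
    have h1 : k.1 = i.1 ∧ (if k.2.2 then i.2 = i.1 else i.2 = k.2.1) := by
      by_cases h : i.1 = i.2
      · simp only [K1, h, if_true, Finset.mem_image] at hi
        obtain ⟨w, _, rfl⟩ := hi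
        simp [h]
      · simp only [K1, h, if_false, Finset.mem_singleton] at hi
        subst hi
        simp
    have h2 : k.1 = j.1 ∧ (if k.2.2 then j.2 = j.1 else j.2 = k.2.1) := by
      by_cases h : j.1 = j.2
      · simp only [K1, h, if_true, Finset.mem_image] at hj
        obtain ⟨w, _, rfl⟩ := hj
        simp [h]
      · simp only [K1, h, if_false, Finset.mem_singleton] at hj
        subst hj
        simp
    have h3 : i.1 = j.1 := h1.1.symm.trans h2.1
    refine Prod.ext h3 ?_
    rcases hk : k.2.2 with _ | _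
    · simp only [hk, Bool.false_eq_true, if_false] at h1 h2
      exact h1.2.trans h2.2.symm
    · simp only [hk, if_true] at h1 h2
      rw [h1.2, h2.2, h3]
  have e1 : (bits r).map B1 = bits (beta G lam) := by
    rw [bits_or r K1 hK1 (F := B1) fun b i => by simp [B1]]
    congr 1
    funext i
    apply Subtype.ext
    rw [unitInterval.coe_symm_eq]
    obtain ⟨x, y⟩ := i
    by_cases h : x = y
    · subst h
      have h6 : K1 (x, x) = (G.neighborFinset x).image (fun w => (x, w, true)) := by simp [K1]
      have h5 : ∏ w ∈ G.neighborFinset x, unitInterval.symm (r (x, w, true)) =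
          unitInterval.symm q ^ G.degree x := by
        rw [← SimpleGraph.card_neighborFinset_eq_degree, ← Finset.prod_const]
        refine Finset.prod_congr rfl fun w hw => ?_
        rw [SimpleGraph.mem_neighborFinset] at hw
        simp [r, hw]
      rw [h6, Finset.prod_image (by intro a _ b _ hab; simpa using hab), h5]
      simp only [beta, stepProb, if_true]
      rw [coe_pow', unitInterval.coe_symm_eq, hq]
      simp only [sub_sub_cancel]
      rw [← Real.exp_nat_mul]
      congr 2
      ring
    · have h6 : K1 (x, y) = {(x, y, false)} := by simp [K1, h]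
      rw [h6, Finset.prod_singleton, unitInterval.coe_symm_eq]
      by_cases h' : G.Adj x y
      · simp only [r, h', if_true, beta, stepProb, Ne.symm h, if_false, hq]
        have : (0 : ℝ) < G.degree x := by exact_mod_cast hdeg x
        simp only [sub_sub_cancel, sub_right_inj]
        congr 2
        field_simp
      · simp [r, h', beta, stepProb, Ne.symm h]
  -- the connections
  let K2 : V × V → Finset (V × V × Bool) := fun i => {(i.1, i.2, false), (i.2, i.1, true)}
  let A : (V × V × Bool → Bool) → V × V → Bool := fun b i => decide (∀ k ∈ K2 i, b k = true)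
  have hK2 : ∀ i j k, k ∈ K2 i → k ∈ K2 j → i = j := by
    rintro ⟨i1, i2⟩ ⟨j1, j2⟩ ⟨k1, k2, k3⟩ hi hj
    simp only [K2, Finset.mem_insert, Finset.mem_singleton, Prod.mk.injEq] at hi hj
    rcases k3 with _ | _
    · simp at hi hj
      rw [← hi.1, ← hi.2, hj.1, hj.2]
    · simp at hi hj
      rw [← hi.1, ← hi.2, hj.1, hj.2]
  have e2 : (bits r).map A = bits fun i => ∏ k ∈ K2 i, r k :=
    bits_and r K2 hK2 fun b i => by simp [A]
  let K3 : G.edgeSet → Finset (V × V) := fun e =>
    {((Quot.out (e : Sym2 V)).1, (Quot.out (e : Sym2 V)).2),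
      ((Quot.out (e : Sym2 V)).2, (Quot.out (e : Sym2 V)).1)}
  have hK3' : ∀ (e : G.edgeSet) x, x ∈ K3 e ↔ s(x.1, x.2) = (e : Sym2 V) := by
    intro e x
    have h0 : s((Quot.out (e : Sym2 V)).1, (Quot.out (e : Sym2 V)).2) = (e : Sym2 V) :=
      Quot.out_eq _
    simp only [K3, Finset.mem_insert, Finset.mem_singleton]
    generalize (Quot.out (e : Sym2 V)).1 = a at h0 ⊢
    generalize (Quot.out (e : Sym2 V)).2 = b at h0 ⊢
    rw [← h0, Sym2.eq_iff]
    constructor
    · rintro (h | h) <;> rw [h] <;> simp
    · rintro (⟨h1, h2⟩ | ⟨h1, h2⟩)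
      · left; exact Prod.ext h1 h2
      · right; exact Prod.ext h1 h2
  have hK3 : ∀ i j k, k ∈ K3 i → k ∈ K3 j → i = j := by
    intro i j k hi hj
    rw [hK3'] at hi hj
    exact Subtype.ext (hi.symm.trans hj)
  let E : (V × V → Bool) → G.edgeSet → Bool := fun a e => decide (∃ x ∈ K3 e, a x = true)
  have e3 : (bits fun i => ∏ k ∈ K2 i, r k).map E = bits fun e : G.edgeSet =>
      unitInterval.symm (∏ x ∈ K3 e, unitInterval.symm (∏ k ∈ K2 x, r k)) :=
    bits_or _ K3 hK3 fun a e => by simp [E]
  have hm1 : Measurable B1 := measurable_pi_of K1 fun b b' i h => by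
    simp only [B1, decide_eq_decide]
    exact exists_congr fun k => and_congr_right fun hk => by rw [h k hk]
  have hmA : Measurable A := measurable_pi_of K2 fun b b' i h => by
    simp only [A, decide_eq_decide]
    exact forall₂_congr fun k hk => by rw [h k hk]
  have hmE : Measurable E := measurable_pi_of K3 fun b b' i h => by
    simp only [E, decide_eq_decide]
    exact exists_congr fun k => and_congr_right fun hk => by rw [h k hk]
  -- percolation
  have hψ : ∀ e : G.edgeSet,
      (unitInterval.symm (∏ x ∈ K3 e, unitInterval.symm (∏ k ∈ K2 x, r k)) : ℝ) = psi lam := by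
    intro e
    have h1 : ∀ x ∈ K3 e, ∏ k ∈ K2 x, r k = q * q := by
      intro x hx
      rw [hK3'] at hx
      have h2 : G.Adj x.1 x.2 := by
        rw [← SimpleGraph.mem_edgeSet, hx]; exact e.2
      simp only [K2]
      rw [Finset.prod_insert (by simp), Finset.prod_singleton]
      simp [r, h2, h2.symm]
    have h3 : (K3 e).card = 2 := by
      have h2 : ((Quot.out (e : Sym2 V)).1, (Quot.out (e : Sym2 V)).2) ∈ K3 e := by simp [K3]
      rw [hK3'] at h2
      have h4 : G.Adj (Quot.out (e : Sym2 V)).1 (Quot.out (e : Sym2 V)).2 := by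
        rw [← SimpleGraph.mem_edgeSet, h2]; exact e.2
      refine Finset.card_pair ?_
      intro h5
      rw [Prod.mk.injEq] at h5
      exact h4.ne h5.1
    rw [Finset.prod_congr rfl fun x hx => by rw [h1 x hx], Finset.prod_const, h3,
      unitInterval.coe_symm_eq, coe_pow', unitInterval.coe_symm_eq,
      coe_mul', hq]
    simp only [psi]
    ring
  have hpsi : psi lam ∈ Icc (0 : ℝ) 1 := by
    have h1 : (0 : ℝ) ≤ q := q.2.1
    have h2 : (q : ℝ) ≤ 1 := q.2.2
    have h3 : psi lam = 1 - (1 - (q : ℝ) ^ 2) ^ 2 := rfl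
    have h4 : (q : ℝ) ^ 2 ≤ 1 := by nlinarith
    have h5 : 0 ≤ (q : ℝ) ^ 2 := by positivity
    rw [h3]
    constructor
    · nlinarith
    · nlinarith [sq_nonneg (1 - (q : ℝ) ^ 2)]
  have h4 : ∀ᵐ η ∂((bits fun i => ∏ k ∈ K2 i, r k).map E), HasInf (openGraph G η) := by
    rw [e3]
    refine supercritical hG (p := ⟨psi lam, hpsi⟩) hlam fun e => ?_
    exact Subtype.coe_le_coe.1 (hψ e).ge
  have h5 : ∀ᵐ b ∂(bits r), HasInf (openGraph G (E (A b))) := by
    have h6 := ae_of_ae_map hmE.aemeasurable h4
    rw [← e2] at h6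
    exact ae_of_ae_map hmA.aemeasurable h6
  -- transfer
  let R : (V × V → Bool) → SimpleGraph V := fun c =>
    { Adj := fun u v => u ≠ v ∧ ((c (u, v) = true ∧ c (v, v) = true) ∨
        (c (v, u) = true ∧ c (u, u) = true))
      symm := ⟨fun u v h => ⟨h.1.symm, h.2.symm⟩⟩
      loopless := ⟨fun u h => h.1 rfl⟩ }
  have hRm : MeasurableSet {c | HasInf (R c)} := by
    apply measurable_hasInf
    intro u v
    by_cases huv : u = v
    · simp [R, huv]
    · have : {c : V × V → Bool | (R c).Adj u v} =
          ({c | c (u, v) = true} ∩ {c | c (v, v) = true}) ∪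
            ({c | c (v, u) = true} ∩ {c | c (u, u) = true}) := by
        ext c; simp [R, huv]
      rw [this]
      have hc : ∀ x : V × V, MeasurableSet {c : V × V → Bool | c x = true} := fun x => by
        have : {c : V × V → Bool | c x = true} = (fun c => c x) ⁻¹' {true} := rfl
        rw [this]
        exact measurable_pi_apply x (by trivial : MeasurableSet ({true} : Set Bool))
      exact ((hc _).inter (hc _)).union ((hc _).inter (hc _))
  have h7 : ∀ᵐ b ∂(bits r), HasInf (R (B1 b)) := by
    filter_upwards [h5] with b hb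
    refine hb.mono ?_
    rintro u v ⟨huv, h8⟩
    refine ⟨huv.ne, ?_⟩
    simp only [E, decide_eq_true_eq] at h8
    obtain ⟨x, hx, hx'⟩ := h8
    rw [hK3', Sym2.eq_iff] at hx
    have h9 : ∀ a c, G.Adj a c → A b (a, c) = true → B1 b (a, c) = true ∧ B1 b (c, c) = true := by
      intro a c hac h
      simp only [A, K2, decide_eq_true_eq, Finset.mem_insert, Finset.mem_singleton,
        forall_eq_or_imp, forall_eq] at h
      constructor
      · simp only [B1, decide_eq_true_eq]
        exact ⟨(a, c, false), by simp [K1, hac.ne], h.1⟩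
      · simp only [B1, decide_eq_true_eq]
        exact ⟨(c, a, true), by simp [K1, hac.symm], h.2⟩
    rcases hx with ⟨h1, h2⟩ | ⟨h1, h2⟩
    · left; exact h9 u v huv (by rw [← h1, ← h2]; exact hx')
    · right; exact h9 v u huv.symm (by rw [← h1, ← h2]; exact hx')
  have h8 : ∀ᵐ ω ∂(snLaw G lam), HasInf (R fun x => B ω x) := by
    have h9 : ∀ᵐ c ∂(bits (beta G lam)), HasInf (R c) := by
      rw [← e1]
      rw [ae_map_iff hm1.aemeasurable hRm]
      exact h7
    rw [← B_law G lam hdeg] at h9
    exact ae_of_ae_map (measurable_pi_lambda _ measurable_B).aemeasurable h9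
  filter_upwards [h8] with ω hω
  exact infClass_of_B (R := R fun x => B ω x) (fun u v h => h.2) hω ht

end

end MP7315a9
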