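import Pool.Agent.Lib.MP_7315a9_pr.Indep

/-!
# The zero-one law for the existence of an infinite class
-/

open MeasureTheory ProbabilityTheory Set Filter

namespace MP7315a9

noncomputable section

variable {V : Type*}

/-- Replace the moves which are not steps of the graph by no move. -/
def legal (G : SimpleGraph V) (ω : Om V) : Om V :=
  open Classical in
  (ω.1, fun k => if ω.2 k = k.2.2.2 ∨ G.Adj k.2.2.2 (ω.2 k) then ω.2 k else k.2.2.2)

lemma legal_spec (G : SimpleGraph V) (ω : Om V) (k : V × ℕ × ℕ × V) :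
    (legal G ω).2 k = k.2.2.2 ∨ G.Adj k.2.2.2 ((legal G ω).2 k) := by
  classical
  by_cases h : ω.2 k = k.2.2.2 ∨ G.Adj k.2.2.2 (ω.2 k)
  · simp only [legal, h, if_true]
  · simp only [legal, h, if_false]; simp

lemma legal_eq {G : SimpleGraph V} {ω : Om V}
    (h : ∀ k : V × ℕ × ℕ × V, ω.2 k = k.2.2.2 ∨ G.Adj k.2.2.2 (ω.2 k)) : legal G ω = ω := by
  classical
  refine Prod.ext rfl (funext fun k => ?_)
  simp only [legal, h k, if_true]

lemma infClass_iff {ω : Om V} {t : ℕ} : InfClass ω t ↔ HasInf (acq ω t) := by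
  constructor
  · rintro ⟨w, _, h⟩; exact ⟨w, h⟩
  · rintro ⟨w, h⟩
    refine ⟨w, ?_, h⟩
    obtain ⟨u, hu, hu'⟩ := h.exists_notMem_finset {w}
    have h1 : (acq ω t).Reachable w u := hu
    rw [SimpleGraph.reachable_iff_reflTransGen] at h1
    rcases Relation.ReflTransGen.cases_head h1 with h2 | ⟨c, hc, _⟩
    · simp [h2] at hu'
    · exact hc.2.1

lemma infClass_mono {ω : Om V} {t t' : ℕ} (htt : t ≤ t') (h : InfClass ω t) : InfClass ω t' := by
  rw [infClass_iff] at h ⊢
  refine h.mono ?_
  rintro u v ⟨h1, h2, h3, s, hs, h4⟩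
  exact ⟨h1, h2, h3, s, hs.trans htt, h4⟩

lemma ball_trans {G : SimpleGraph V} [G.LocallyFinite] {n m : ℕ} {x y z : V}
    (h1 : y ∈ ball G n x) (h2 : z ∈ ball G m y) : z ∈ ball G (n + m) x := by
  obtain ⟨p, hp⟩ := mem_ball.1 h1
  obtain ⟨q, hq⟩ := mem_ball.1 h2
  exact mem_ball.2 ⟨p.append q, by rw [SimpleGraph.Walk.length_append]; omega⟩

lemma pos_mem_ball {G : SimpleGraph V} [G.LocallyFinite] {ω : Om V}
    (hω : ∀ k : V × ℕ × ℕ × V, ω.2 k = k.2.2.2 ∨ G.Adj k.2.2.2 (ω.2 k)) (w : V × ℕ) (s : ℕ) :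
    pos ω w s ∈ ball G s w.1 := by
  induction s with
  | zero => simp [pos, ball]
  | succ s ih => exact ball_step ih (hω (w.1, w.2, s, pos ω w s))

lemma pos_congr {ω ω' : Om V} {w : V × ℕ} (h : ∀ s x, ω.2 (w.1, w.2, s, x) = ω'.2 (w.1, w.2, s, x))
    (s : ℕ) : pos ω w s = pos ω' w s := by
  induction s with
  | zero => rfl
  | succ s ih => simp only [pos, ih, h]

/-- Changing the walkers started at finitely many vertices does not matter. -/
lemma infClass_of_diff {G : SimpleGraph V} [G.LocallyFinite] {ω ω' : Om V}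
    (hω : ∀ k : V × ℕ × ℕ × V, ω.2 k = k.2.2.2 ∨ G.Adj k.2.2.2 (ω.2 k)) {D : Set V}
    (hfin : D.Finite) (hD : ∀ v, v ∉ D → ω.1 v = ω'.1 v)
    (hD2 : ∀ v, v ∉ D → ∀ i s x, ω.2 (v, i, s, x) = ω'.2 (v, i, s, x)) {t : ℕ}
    (h : InfClass ω t) : InfClass ω' t := by
  classical
  rw [infClass_iff] at h ⊢
  set T : Set (V × ℕ) := {v | v.2 < ω.1 v.1 ∧ (v.1 ∈ D ∨ ∃ u : V × ℕ, u.1 ∈ D ∧
    ∃ s ≤ t, pos ω u s = pos ω v s)} with hTdef
  have hT : T.Finite := by
    have h1 : T ⊆ ⋃ x ∈ D ∪ ⋃ u ∈ D, (ball G (t + t) u : Set V),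
        (fun i => (x, i)) '' (Set.Iio (ω.1 x)) := by
      rintro v ⟨hv, hv'⟩
      refine mem_biUnion (x := v.1) ?_ ⟨v.2, hv, rfl⟩
      rcases hv' with h2 | ⟨u, hu, s, hs, h3⟩
      · exact Or.inl h2
      · right
        refine mem_biUnion hu ?_
        have h4 := pos_mem_ball hω u s
        have h5 := pos_mem_ball hω v s
        rw [← h3] at h5
        exact ball_mono (by omega) (ball_trans h4 (ball_symm h5))
    refine Finite.subset ?_ h1
    refine (hfin.union (hfin.biUnion fun u _ => Finset.finite_toSet _)).biUnion fun x _ => ?_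
    exact (finite_Iio _).image _
  refine hasInf_of_finite hT ?_ h
  rintro u v ⟨h1, h2, h3, s, hs, h4⟩
  by_cases hv : v.1 ∈ D
  · exact Or.inr ⟨h3, Or.inl hv⟩
  · by_cases hu : u.1 ∈ D
    · exact Or.inr ⟨h3, Or.inr ⟨u, hu, s, hs, h4⟩⟩
    · left
      refine ⟨h1, by rw [← hD _ hu]; exact h2, by rw [← hD _ hv]; exact h3, s, hs, ?_⟩
      rw [← pos_congr (hD2 _ hu u.2) s, ← pos_congr (hD2 _ hv v.2) s]
      exact h4

variable [MeasurableSpace V] [DiscreteMeasurableSpace V]

lemma measurable_pos [Countable V] (w : V × ℕ) (s : ℕ) : Measurable fun ω : Om V => pos ω w s := by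
  induction s with
  | zero => exact measurable_const
  | succ s ih =>
    refine measurable_to_countable' fun y => ?_
    have h1 : (fun ω : Om V => pos ω w (s + 1)) ⁻¹' {y} =
        ⋃ x : V, ({ω : Om V | pos ω w s = x} ∩ {ω : Om V | ω.2 (w.1, w.2, s, x) = y}) := by
      ext ω; simp [pos]
    rw [h1]
    refine MeasurableSet.iUnion fun x => MeasurableSet.inter ?_ ?_
    · exact ih (MeasurableSet.of_discrete (s := {x}))
    · have h2 : Measurable fun ω : Om V => ω.2 (w.1, w.2, s, x) := by fun_prop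
      exact h2 (MeasurableSet.of_discrete (s := {y}))

lemma measurable_infClass [Countable V] (t : ℕ) : MeasurableSet {ω : Om V | InfClass ω t} := by
  classical
  simp only [infClass_iff]
  apply measurable_hasInf
  intro u v
  have h1 : {ω : Om V | (acq ω t).Adj u v} = {ω : Om V | u ≠ v} ∩ ({ω : Om V | u.2 < ω.1 u.1} ∩
      ({ω : Om V | v.2 < ω.1 v.1} ∩ ⋃ s ∈ Finset.range (t + 1), {ω : Om V | pos ω u s = pos ω v s})) := by
    ext ω
    simp only [acq, mem_ofPred_eq, mem_inter_iff, mem_iUnion, Finset.mem_range, exists_prop,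
      Nat.lt_succ_iff]
  rw [h1]
  refine (MeasurableSet.const _).inter (MeasurableSet.inter ?_ (MeasurableSet.inter ?_ ?_))
  · have h1 : Measurable fun ω : Om V => ω.1 u.1 := by fun_prop
    exact h1 (MeasurableSet.of_discrete (s := {n | u.2 < n}))
  · have h1 : Measurable fun ω : Om V => ω.1 v.1 := by fun_prop
    exact h1 (MeasurableSet.of_discrete (s := {n | v.2 < n}))
  · refine Finset.measurableSet_biUnion _ fun s _ => ?_
    have h2 : {ω : Om V | pos ω u s = pos ω v s} =
        ⋃ x : V, ({ω : Om V | pos ω u s = x} ∩ {ω : Om V | pos ω v s = x}) := by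
      ext ω
      simp only [mem_ofPred_eq, mem_iUnion, mem_inter_iff]
      constructor
      · intro h; exact ⟨_, h, rfl⟩
      · rintro ⟨x, hx, hx'⟩; rw [hx, hx']
    rw [h2]
    refine MeasurableSet.iUnion fun x => MeasurableSet.inter ?_ ?_
    · exact measurable_pos u s (MeasurableSet.of_discrete (s := {x}))
    · exact measurable_pos v s (MeasurableSet.of_discrete (s := {x}))

lemma measurable_legal [Countable V] (G : SimpleGraph V) : Measurable (legal G) := by
  classical
  refine measurable_fst.prodMk (measurable_pi_lambda _ fun k => ?_)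
  have h1 : Measurable fun ω : Om V => ω.2 k := by fun_prop
  exact (Measurable.of_discrete (f := fun y : V => if y = k.2.2.2 ∨ G.Adj k.2.2.2 y then y
    else k.2.2.2)).comp h1

/-- The zero-one law. -/
theorem zero_one_inf [Countable V] (G : SimpleGraph V) [G.LocallyFinite] (lam : NNReal)
    (hdeg : ∀ v, 0 < G.degree v) (t : ℕ) :
    snLaw G lam {ω | InfClass ω t} = 0 ∨ snLaw G lam {ω | InfClass ω t} = 1 := by
  classical
  have := snLaw_prob G lam hdeg
  set A : Set (Om V) := {ω | InfClass (legal G ω) t} with hA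
  have hAm : MeasurableSet A := measurable_legal G (measurable_infClass t)
  have hAE : snLaw G lam {ω | InfClass ω t} = snLaw G lam A := by
    apply measure_congr
    filter_upwards [ae_step G lam hdeg] with ω hω
    have : ({ω | InfClass ω t} : Set (Om V)) ω = A ω := by
      show InfClass ω t = InfClass (legal G ω) t
      rw [legal_eq hω]
    exact this
  rw [hAE]
  refine measure_zero_or_one_of_measurableSet_limsup (p := Set.Finite) (f := cofinite)
    (ns := fun F : Finset (Crd V) => (F : Set (Crd V))) (s := crd (V := V))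
    crd_le (iIndep_crd G lam hdeg) ?_ ?_ ?_ ?_ ?_
  · intro t ht
    exact ht.compl_mem_cofinite
  · exact Monotone.directed_le fun F F' h => Finset.coe_subset.2 h
  · intro F; exact F.finite_toSet
  · intro e; exact ⟨{e}, by simp⟩
  · rw [hasBasis_cofinite.limsup_eq_iInf_iSup]
    simp only [MeasurableSpace.measurableSet_iInf]
    intro tt ht
    let f : Om V → Om V := fun ω => (fun v => if Sum.inl v ∈ tt then 0 else ω.1 v,
      fun k => if Sum.inr k ∈ tt then k.2.2.2 else ω.2 k)
    have hf1 : Measurable[⨆ a ∈ ttᶜ, crd a] fun ω : Om V => (f ω).1 := by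
      rw [@measurable_pi_iff]
      intro v
      by_cases h : Sum.inl v ∈ tt
      · simp only [f, h, if_true]
        exact @measurable_const _ _ _ (_) _
      · simp only [f, h, if_false]
        have h2 : crd (Sum.inl v) ≤ ⨆ j ∈ ttᶜ, crd (V := V) j :=
          le_iSup₂_of_le (Sum.inl v) h le_rfl
        exact (measurable_iff_comap_le.2 (le_refl (crd (Sum.inl v)))).mono h2 le_rfl
    have hf2 : Measurable[⨆ a ∈ ttᶜ, crd a] fun ω : Om V => (f ω).2 := by
      rw [@measurable_pi_iff]
      intro k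
      by_cases h : Sum.inr k ∈ tt
      · simp only [f, h, if_true]
        exact @measurable_const _ _ _ (_) _
      · simp only [f, h, if_false]
        have h2 : crd (Sum.inr k) ≤ ⨆ j ∈ ttᶜ, crd (V := V) j :=
          le_iSup₂_of_le (Sum.inr k) h le_rfl
        exact (measurable_iff_comap_le.2 (le_refl (crd (Sum.inr k)))).mono h2 le_rfl
    have hf : Measurable[⨆ a ∈ ttᶜ, crd a] f := @Measurable.prodMk _ _ _ _ _ (_) _ _ hf1 hf2
    have hfA : f ⁻¹' A = A := by
      let D : Set V := (Sum.elim id fun k => k.1) '' tt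
      have hDfin : D.Finite := ht.image _
      have h1 : ∀ (ω : Om V) v, v ∉ D → (legal G ω).1 v = (legal G (f ω)).1 v := by
        intro ω v hv
        have h2 : Sum.inl v ∉ tt := fun h => hv ⟨_, h, rfl⟩
        simp [legal, f, h2]
      have h2 : ∀ (ω : Om V) v, v ∉ D → ∀ i s x, (legal G ω).2 (v, i, s, x) =
          (legal G (f ω)).2 (v, i, s, x) := by
        intro ω v hv i s x
        have h2 : Sum.inr (v, i, s, x) ∉ tt := fun h => hv ⟨_, h, rfl⟩
        simp [legal, f, h2]
      ext ω
      constructor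
      · intro h
        exact infClass_of_diff (legal_spec G (f ω)) hDfin (fun v hv => (h1 ω v hv).symm)
          (fun v hv i s x => (h2 ω v hv i s x).symm) h
      · intro h
        exact infClass_of_diff (legal_spec G ω) hDfin (h1 ω) (h2 ω) h
    rw [← hfA]
    exact hf hAm

end

end MP7315a9
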